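import Mathlib

/-! Definitions used in the statement of the hand-in `StableSets` of MP_28250c. -/

set_option autoImplicit false

namespace Pool.Agent.H58.IS

open Classical in
/-- The number of edges of `G` with both ends in `S`. -/
noncomputable def edgesIn {n : ℕ} (G : SimpleGraph (Fin n)) (S : Finset (Fin n)) : ℕ :=
  (G.edgeFinset.filter fun e => ∀ v ∈ e, v ∈ S).card

/-- `S` agrees with the partial decision `τ`: a vertex `v` with `τ v = some true` is in `S`, one with
`τ v = some false` is not in `S`, and one with `τ v = none` is undecided. -/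
def Ext {n : ℕ} (τ : Fin n → Option Bool) (S : Finset (Fin n)) : Prop :=
  ∀ v s, τ v = some s → (v ∈ S ↔ s = true)

open Classical in
/-- All degrees are at most 8. -/
def Deg8 {n : ℕ} (G : SimpleGraph (Fin n)) : Prop := ∀ v, G.degree v ≤ 8

/-- `G` has no independent set with `k` vertices. -/
def NoIndep {n : ℕ} (G : SimpleGraph (Fin n)) (k : ℕ) : Prop :=
  ∀ S : Finset (Fin n), S.card = k → ∃ u ∈ S, ∃ v ∈ S, G.Adj u v

/-- The value of a polynomial at the indicator vector of `S`. -/
noncomputable def ev {n : ℕ} (S : Finset (Fin n)) (p : MvPolynomial (Fin n) ℝ) : ℝ :=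
  MvPolynomial.eval (fun v => if v ∈ S then (1 : ℝ) else 0) p

open Classical in
/-- A sum-of-squares (Positivstellensatz) refutation of the existence of an independent set `S` of
`G` with `k` vertices which agrees with `τ`: polynomials `p j` of degree at most `d` and `h u v` of
degree at most `2 d` for which `∑ j, p j ^ 2 + ∑ h u v = -1` at all sets `S` of `k` vertices which
agree with `τ`; the second sum is over the pairs `(u, v)` of adjacent vertices of `S`. -/
def SosRefutes {n : ℕ} (d k : ℕ) (τ : Fin n → Option Bool) (G : SimpleGraph (Fin n)) : Prop :=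
  ∃ (m : ℕ) (p : Fin m → MvPolynomial (Fin n) ℝ) (h : Fin n → Fin n → MvPolynomial (Fin n) ℝ),
    (∀ j, (p j).totalDegree ≤ d) ∧ (∀ u v, (h u v).totalDegree ≤ 2 * d) ∧
      ∀ S : Finset (Fin n), S.card = k → Ext τ S → ∑ j, ev S (p j) ^ 2 +
        ∑ u ∈ S, ∑ v ∈ S, (if G.Adj u v then ev S (h u v) else 0) = -1

end Pool.Agent.H58.IS
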