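import Pool.Agent.H58.IS.Select
import Pool.Agent.H58.LPE.Avg

/-! The rank argument. -/

set_option autoImplicit false
set_option linter.unusedSectionVars false

namespace Pool.Agent.H58.IS

open Finset Pool.Agent.H58.LPE

section defs

variable {α : Type*} [Fintype α] [DecidableEq α] {N M n R : ℕ}

/-- the number of violated constraints -/
def nv (e : α ≃ Fin M) (ι : α ⊕ Fin (M + M) ↪ Fin N) (σ : Equiv.Perm α) (b : α → ZMod 2)
    (z : Fin N → Bool) : ℕ := (univ.filter fun κ => viol (EE2 e) ι σ b z κ ≠ 0).card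

/-- a certificate by a nonnegative combination of the inequalities attached to the cell -/
def LpC (e : α ≃ Fin M) (ι : α ⊕ Fin (M + M) ↪ Fin N) (jj : Vx α M ↪ Fin n)
    (a : (Fin n → Option Bool) → Fin R → (Fin N → Bool) → ℝ) (ε : ℝ) (σ : Equiv.Perm α)
    (b : α → ZMod 2) (τ : Fin n → Option Bool) : Prop :=
  ∃ (c : Fin R → ℝ) (c0 : ℝ), (∀ i, 0 ≤ c i) ∧ 0 ≤ c0 ∧ ∀ z, Ext τ (mem ι jj z) →
    (nv e ι σ b z : ℝ) - ε = ∑ i, c i * a τ i z + c0

/-- a certificate by sums of squares -/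
def SosC (e : α ≃ Fin M) (ι : α ⊕ Fin (M + M) ↪ Fin N) (jj : Vx α M ↪ Fin n)
    (d : ℕ) (σ : Equiv.Perm α) (b : α → ZMod 2) (τ : Fin n → Option Bool) : Prop :=
  ∃ (m : ℕ) (p : Fin m → MvPolynomial (Fin N) ℝ) (h : Clause N → MvPolynomial (Fin N) ℝ),
    (∀ j, (p j).totalDegree ≤ d) ∧ (∀ C, (h C).totalDegree ≤ 2 * d) ∧
      ∀ z, Ext τ (mem ι jj z) → ∑ j, ev z (p j) ^ 2 +
        ∑ C ∈ Fm (EE2 e) ι σ b, (if ∃ l ∈ C, z l.1 = l.2 then 0 else ev z (h C)) = -1

/-- a refutation with `T` cells in terms of the assignments -/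
def Rfz (e : α ≃ Fin M) (ι : α ⊕ Fin (M + M) ↪ Fin N) (jj : Vx α M ↪ Fin n)
    (a : (Fin n → Option Bool) → Fin R → (Fin N → Bool) → ℝ) (ε : ℝ) (d k s T : ℕ)
    (σ : Equiv.Perm α) (b : α → ZMod 2) : Prop :=
  ∃ (A : (Fin N → Bool) → Fin k) (τ : ℕ → Fin n → Option Bool)
    (Q : ℕ → Fin k → (Fin N → Bool) → Prop) (Sx : ℕ → Finset (Fin N)),
    (∀ i, (Sx i).card ≤ s) ∧ (∀ i a z z', cb (Sx i) z z' → Q i a z → Q i a z') ∧
    (∃ i < T, ∀ z, Ext (τ i) (mem ι jj z) ∧ Q i (A z) z) ∧ ∀ i < T,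
    (LpC e ι jj a ε σ b (τ i) ∨ SosC e ι jj d σ b (τ i)) ∨
    (∃ C ∈ Fm (EE2 e) ι σ b, ∀ z, Ext (τ i) (mem ι jj z) → Q i (A z) z →
      ¬ ∃ l ∈ C, z l.1 = l.2) ∨
    ∃ j < i, ∃ l < i, ∀ z, Ext (τ i) (mem ι jj z) → Q i (A z) z →
      (Ext (τ j) (mem ι jj z) ∧ Q j (A z) z) ∨ (Ext (τ l) (mem ι jj z) ∧ Q l (A z) z)

end defs

open Classical in
/-- THE RANK INEQUALITY -/
theorem lower {N R T d k s n : ℕ} {ε : ℝ} (hε : 0 < ε)
    (hε1 : ε ≤ 1) (j : ℕ) (hj : 0 < j) (hN : N = 9 + 6 * j)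
    (a : (Fin n → Option Bool) → Fin R → (Fin N → Bool) → ℝ)
    {θ φ K f W M : ℕ} (hM : M = 3 + 2 * j) (hn : n ≤ 10 * M + 19) (hn0 : 0 < n)
    (hθ : 1 ≤ θ) (hθM : 2 * θ ≤ M)
    (hW : 2 * f + 6 + k * (3 * (36 * K + 52 + s) + 3) ≤ W) (hKW : 18 * K + 26 ≤ W)
    (hWφ' : W + 2 * d + 6 ≤ φ)
    (hlt : 2 * (T : ℝ) * ((3 + Real.exp (-(f / n))) / 4) ^ K < 1)
    (e : Al j ≃ Fin M) (ι : (Al j) ⊕ Fin (M + M) ↪ Fin N) (jj : Vx (Al j) M ↪ Fin n)
    (ha : ∀ τ z, Ext τ (mem ι jj z) → ∀ i, 0 ≤ a τ i z)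
    (G : Finset (Equiv.Perm (Al j) × (Al j → ZMod 2)))
    (hGne : G.Nonempty) (hG : ∀ p ∈ G, ∑ i, p.2 i = 1 ∧
      Expand (en1 (EE2 e) p.1) (en2 (EE2 e)) θ φ M ∧ Rfz e ι jj a ε d k s T p.1 p.2)
    {δ : ℝ} (hδ : 0 < δ) (hδ1 : δ ≤ 1 / 2) (t : ℝ) (ht : 0 ≤ t) (q : ℝ)
    (hq : q = 11664 / (δ ^ 2 * j)) :
    2 * ε ≤ 100 * δ + 60 * q * t + 40 * q * (((univ.filter fun τ : Fin n → Option Bool =>
        width τ < W + 1).card : ℝ) * ((univ.filter fun ρ : Fin N → Option Bool =>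
        width ρ < W + 1).card : ℝ) * (R + 1)) *
        (M * (M.factorial * 2 ^ M / G.card * 2 ^ W)) * Real.exp (-t) + 45 * θ / M := by
  have hcard : Fintype.card (Al j) = M := by
    simp only [Fintype.card_sum, Fintype.card_fin, Fintype.card_prod, Fintype.card_bool]
    omega
  have hL : 3 ≤ M + M := by omega
  have hLc : M + M = 2 * Fintype.card (Al j) := by rw [hcard]; ring
  have hM2 : 2 ≤ M := by omega
  have hWφ : W ≤ φ := by omega
  obtain ⟨gd, hgd⟩ : ∃ gd : Equiv.Perm (Al j) → ((Al j) → ZMod 2) → Prop,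
    ∀ σ b, gd σ b ↔ (σ, b) ∈ G := ⟨_, fun _ _ => Iff.rfl⟩
  have hgb : ∀ σ b, gd σ b → ∑ i, b i = 1 := fun σ b h => (hG (σ, b) ((hgd σ b).mp h)).1
  -- the chosen cells
  have hsel : ∀ (σ : Equiv.Perm (Al j)) (b : (Al j) → ZMod 2), ∃ (τ0 : Fin n → Option Bool)
      (ρ1 : Fin N → Option Bool) (N0 : ℕ)
      (C : Finset (Al j)), gd σ b → (LpC e ι jj a ε σ b τ0 ∧ width τ0 ≤ W ∧
      width ρ1 ≤ W ∧ (∀ z, Ext ρ1 z → Ext τ0 (mem ι jj z)) ∧ C.card < θ ∧ 2 ^ M ≤ N0 * 2 ^ W ∧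
      (∀ v : (Al j) → ZMod 2, ∑ i, v i = 1 → cnt e ι σ b ρ1 v ≤ N0) ∧
      ∀ v : (Al j) → ZMod 2, ∑ i, v i = 1 → (∀ i ∈ C, v i = 0) → cnt e ι σ b ρ1 v = N0) := by
    intro σ b
    by_cases hg : gd σ b
    · obtain ⟨hb, hE, A, τ, Q, Sx, hSx, hQ, hroot, hstep⟩ := hG (σ, b) ((hgd σ b).mp hg)
      obtain ⟨τ0, ρ1, N0, C, h1, h2, h3, h4, h5, h6, h7, h8, D, z0, h9, h10, h11⟩ :=
        select e ι jj σ b hM2 hcard (by omega) hn hn0 hb hθ hθM hE hW hKW hWφ hlt τ A Q Sx hSx hQ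
        (fun τ => LpC e ι jj a ε σ b τ ∨ SosC e ι jj d σ b τ) hroot hstep
      have h1' : LpC e ι jj a ε σ b τ0 := by
        refine h1.resolve_right fun hS => ?_
        obtain ⟨m, p, h, hp, hh, hid⟩ := hS
        refine no_sos e ι σ b hL hLc hθ hθM hE hWφ' h9 h10
          (ρ := fun j => if j ∈ D then some (z0 j) else none) (fun z hz j s hj => ?_)
          ⟨m, p, h, hp, hh, fun z hz => hid z (h11 z fun j hj => ?_)⟩
        · simp only at hj
          by_cases h : j ∈ D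
          · rw [if_pos h] at hj
            rw [hz j h]
            exact Option.some.inj hj
          · rw [if_neg h] at hj
            exact absurd hj (by simp)
        · exact hz j (z0 j) (by simp only; rw [if_pos hj])
      exact ⟨τ0, ρ1, N0, C, fun _ => ⟨h1', h2, h3, h4, h5, h6, h7, h8⟩⟩
    · exact ⟨fun _ => none, fun _ => none, 0, ∅, fun h => absurd h hg⟩
  choose τ0 ρ1 N0 C hsel using hsel
  have hdual : ∀ (σ : Equiv.Perm (Al j)) (b : (Al j) → ZMod 2), gd σ b →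
      ∃ (c : Fin R → ℝ) (c0 : ℝ), (∀ i, 0 ≤ c i) ∧ 0 ≤ c0 ∧ ∀ z, Ext (τ0 σ b) (mem ι jj z) →
        (nv e ι σ b z : ℝ) - ε = ∑ i, c i * a (τ0 σ b) i z + c0 :=
    fun σ b hg => (hsel σ b hg).1
  choose! c c0 hc hc0 hcz using hdual
  obtain ⟨P, hP⟩ : ∃ P : Equiv.Perm (Al j) → ((Al j) → ZMod 2) → ((Al j) → ZMod 2) →
      ((Al j) → ZMod 2) → Prop,
      ∀ σ b x η, P σ b x η ↔ gd σ b ∧ Ext (ρ1 σ b) (bobz (EE2 e) ι x η) :=
    ⟨_, fun _ _ _ _ => Iff.rfl⟩
  have hpts : ∀ σ b v, gd σ b → pts P σ b v = cnt e ι σ b (ρ1 σ b) v := by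
    intro σ b v hg
    unfold pts cnt
    congr 1
    refine Finset.filter_congr fun x _ => ?_
    rw [hP]
    exact ⟨fun h => h.2, fun h => ⟨hg, h⟩⟩
  have hpts0 : ∀ σ b v, ¬ gd σ b → pts P σ b v = 0 := by
    intro σ b v hg
    unfold pts
    rw [Finset.card_eq_zero, Finset.filter_eq_empty_iff]
    intro x _ h
    rw [hP] at h
    exact hg h.1
  have hkey := rank_cells (J := Fin j) ⟨0, hj⟩
    (R := {τ : Fin n → Option Bool // width τ < W + 1} ×
      {ρ : Fin N → Option Bool // width ρ < W + 1} × Option (Fin R))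
    (fun r σ b => if gd σ b ∧ r.1.1 = τ0 σ b ∧ r.2.1.1 = ρ1 σ b then
      (match r.2.2 with | none => c0 σ b | some i => c σ b i) else 0)
    (fun r x η => if ∑ i, x i = ∑ i, η i ∧ Ext r.1.1 (mem ι jj (bobz (EE2 e) ι x η)) ∧
      Ext r.2.1.1 (bobz (EE2 e) ι x η) then
      (match r.2.2 with | none => 1 | some i => a r.1.1 i (bobz (EE2 e) ι x η)) else 0)
    P ε M (fun σ b => if gd σ b then N0 σ b else 0) (fun σ b => if gd σ b then C σ b else ∅) θ
    (M.factorial * 2 ^ M / G.card * 2 ^ W) hε hε1 (by rw [← hcard])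
    (by
      rintro ⟨ρ, ρ', o⟩ σ b
      simp only
      split_ifs with h
      · rcases o with _ | i
        · exact hc0 σ b h.1
        · exact hc σ b h.1 i
      · exact le_rfl)
    (by
      rintro ⟨ρ, ρ', o⟩ x η
      simp only
      split_ifs with h
      · rcases o with _ | i
        · exact zero_le_one
        · exact ha _ _ h.2.1 i
      · exact le_rfl)
    (fun σ b x η h => hgb σ b ((hP σ b x η).mp h).1)
    (by
      intro σ b x η
      by_cases hx : ∑ i, x i = ∑ i, η i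
      · by_cases hp : P σ b x η
        · obtain ⟨hg, hz1⟩ := (hP σ b x η).mp hp
          obtain ⟨-, hw0, hw1, hsub, -⟩ := hsel σ b hg
          have hz0 := hsub _ hz1
          rw [if_pos ⟨hx, hp⟩, Fintype.sum_prod_type, Finset.sum_eq_single ⟨τ0 σ b, by omega⟩,
            Fintype.sum_prod_type, Finset.sum_eq_single ⟨ρ1 σ b, by omega⟩]
          · simp only [true_and, if_true, hg, hx, hz0, hz1, Fintype.sum_option, mul_one]
            have h1 := hcz σ b hg (bobz (EE2 e) ι x η) hz0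
            have h2 := numSat_bob hL (EE2 e) ι σ b x η hx
            have h3 := numSat_add hL (EE2 e) ι σ b (bobz (EE2 e) ι x η)
            have h4 : nv e ι σ b (bobz (EE2 e) ι x η) = VV σ b x η := by
              unfold nv
              omega
            rw [h4] at h1
            rw [add_comm, ← h1]
          · intro ρ _ hne
            refine Finset.sum_eq_zero fun o _ => ?_
            simp only
            rw [if_neg (fun h => hne (Subtype.ext h.2.2)), zero_mul]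
          · intro h
            exact absurd (Finset.mem_univ _) h
          · intro ρ _ hne
            refine Finset.sum_eq_zero fun o _ => ?_
            simp only
            rw [if_neg (fun h => hne (Subtype.ext h.2.1)), zero_mul]
          · intro h
            exact absurd (Finset.mem_univ _) h
        · rw [if_neg (fun h => hp h.2)]
          refine Finset.sum_eq_zero fun r _ => ?_
          by_cases h1 : gd σ b ∧ r.1.1 = τ0 σ b ∧ r.2.1.1 = ρ1 σ b
          · by_cases h2 : ∑ i, x i = ∑ i, η i ∧ Ext r.1.1 (mem ι jj (bobz (EE2 e) ι x η)) ∧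
              Ext r.2.1.1 (bobz (EE2 e) ι x η)
            · exfalso
              apply hp
              rw [hP]
              refine ⟨h1.1, ?_⟩
              rw [← h1.2.2]
              exact h2.2.2
            · rw [if_neg h2, mul_zero]
          · rw [if_neg h1, zero_mul]
      · rw [if_neg (fun h => hx h.1)]
        refine Finset.sum_eq_zero fun r _ => ?_
        have h2 : ¬ (∑ i, x i = ∑ i, η i ∧ Ext r.1.1 (mem ι jj (bobz (EE2 e) ι x η)) ∧
              Ext r.2.1.1 (bobz (EE2 e) ι x η)) := fun h => hx h.1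
        rw [if_neg h2, mul_zero])
    (by
      intro σ b v hv
      by_cases hg : gd σ b
      · rw [hpts σ b v hg, if_pos hg]
        exact (hsel σ b hg).2.2.2.2.2.2.1 v hv
      · rw [hpts0 σ b v hg, if_neg hg])
    (by
      intro σ b v hv h0
      by_cases hg : gd σ b
      · rw [if_pos hg] at h0
        rw [hpts σ b v hg, if_pos hg]
        exact (hsel σ b hg).2.2.2.2.2.2.2 v hv h0
      · rw [hpts0 σ b v hg, if_neg hg])
    (by
      intro σ b
      by_cases hg : gd σ b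
      · rw [if_pos hg]
        exact (hsel σ b hg).2.2.2.2.1.le
      · rw [if_neg hg]
        simp)
    (by
      have hsum : G.card * 2 ^ M ≤ (∑ σ : Equiv.Perm (Al j), ∑ b : (Al j) → ZMod 2,
          (if gd σ b then N0 σ b else 0)) * 2 ^ W := by
        rw [← Fintype.sum_prod_type' (f := fun (σ : Equiv.Perm (Al j)) (b : (Al j) → ZMod 2) =>
          if gd σ b then N0 σ b else 0), Finset.sum_mul]
        have h2 : ∀ p ∈ G, 2 ^ M ≤ (if gd p.1 p.2 then N0 p.1 p.2 else 0) * 2 ^ W := by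
          intro p hp
          have hgp : gd p.1 p.2 := (hgd p.1 p.2).mpr hp
          rw [if_pos hgp]
          exact (hsel p.1 p.2 hgp).2.2.2.2.2.1
        rw [← smul_eq_mul, ← Finset.sum_const]
        exact (Finset.sum_le_sum h2).trans (Finset.sum_le_sum_of_subset (Finset.subset_univ _))
      have hSt : Fintype.card (St (Al j)) = M.factorial * (2 ^ M * 2 ^ M) := by
        unfold St
        rw [Fintype.card_prod, Fintype.card_prod, Fintype.card_fun, ZMod.card, Fintype.card_perm,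
          hcard]
      have hGpos : (0:ℝ) < G.card := by exact_mod_cast Finset.card_pos.mpr hGne
      have hsumR : (G.card : ℝ) * 2 ^ M ≤ ((∑ σ : Equiv.Perm (Al j), ∑ b : (Al j) → ZMod 2,
          (if gd σ b then N0 σ b else 0) : ℕ) : ℝ) * 2 ^ W := by
        exact_mod_cast hsum
      push_cast at hsumR
      rw [hSt]
      push_cast
      have e1 : (M.factorial : ℝ) * (2 ^ M * 2 ^ M) =
          (M.factorial * 2 ^ M / G.card) * (G.card * 2 ^ M) := by
        field_simp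
      rw [e1]
      refine (mul_le_mul_of_nonneg_left hsumR (by positivity)).trans (le_of_eq ?_)
      ring)
    hδ hδ1 t ht q (by rw [Fintype.card_fin]; exact hq)
  have hcardR : (Fintype.card ({τ : Fin n → Option Bool // width τ < W + 1} ×
      {ρ : Fin N → Option Bool // width ρ < W + 1} × Option (Fin R)) : ℝ)
      = ((univ.filter fun τ : Fin n → Option Bool => width τ < W + 1).card : ℝ) *
        ((univ.filter fun ρ : Fin N → Option Bool => width ρ < W + 1).card : ℝ) * (R + 1) := by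
    rw [Fintype.card_prod, Fintype.card_prod, Fintype.card_option, Fintype.card_fin,
      Fintype.card_subtype, Fintype.card_subtype]
    push_cast
    ring
  rw [hcardR] at hkey
  exact hkey

end Pool.Agent.H58.IS
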