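import Pool.Agent.H58.IS.Defs
import Pool.Agent.H58.IS.Low

/-! The graphs. -/

set_option autoImplicit false
set_option linter.unusedSectionVars false

namespace Pool.Agent.H58.IS

open Finset Pool.Agent.H58.LPE

section enc

variable {α : Type*} [Fintype α] [DecidableEq α] {N M n : ℕ}
variable (e : α ≃ Fin M) (ι : α ⊕ Fin (M + M) ↪ Fin N) (jj : Vx α M ↪ Fin n)
variable (σ : Equiv.Perm α) (b : α → ZMod 2)

/-- Bob's set -/
noncomputable def Sz (z : Fin N → Bool) : Finset (Fin n) := univ.filter fun v => mem ι jj z v = true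

theorem mem_Sz (z : Fin N → Bool) (v : Fin n) : v ∈ Sz ι jj z ↔ mem ι jj z v = true := by
  simp [Sz]

theorem ext_Sz (τ : Fin n → Option Bool) (z : Fin N → Bool) :
    Ext τ (Sz ι jj z) ↔ LPE.Ext τ (mem ι jj z) := by
  unfold Ext LPE.Ext
  refine forall_congr' fun v => forall_congr' fun s => imp_congr_right fun _ => ?_
  rw [mem_Sz]
  cases s <;> simp

/-- adjacency, in one direction -/
def rel (w w' : Vx α M) : Prop :=
  match w, w' with
  | Sum.inl (l, a), Sum.inl (l', a') => l = l' ∧ a ≠ a'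
  | Sum.inr (t, p, q), Sum.inr (t', p', q') =>
      (t = t' ∧ (p, q) ≠ (p', q')) ∨ (t' = finRotate (M + M) t ∧ q ≠ p')
  | Sum.inr (t, p, q), Sum.inl (l, a) =>
      l = lab σ ((EE2 e).symm t) ∧ a = third b ((EE2 e).symm t) p q
  | Sum.inl _, Sum.inr _ => False

/-- the graph -/
def Gr : SimpleGraph (Fin n) :=
  SimpleGraph.fromRel fun u v => ∃ w w', jj w = u ∧ jj w' = v ∧ rel e σ b w w'

theorem Gr_adj (u v : Fin n) : (Gr e jj σ b).Adj u v ↔ u ≠ v ∧
    ((∃ w w', jj w = u ∧ jj w' = v ∧ rel e σ b w w') ∨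
      ∃ w w', jj w = v ∧ jj w' = u ∧ rel e σ b w w') := by
  unfold Gr
  rw [SimpleGraph.fromRel_adj]

theorem card_pos_le : (univ : Finset (Bool × Bool)).card = 4 := by decide

/-- the size of Bob's set -/
theorem Sz_card (hcard : Fintype.card α = M) (z : Fin N → Bool) :
    (Sz ι jj z).card + 7 * M = n := by
  classical
  have h1 : (Sz ι jj z)ᶜ = (univ.image fun l : α => jj (Sum.inl (l, !z (ι (Sum.inl l))))) ∪
      ((univ : Finset (Fin (M + M))).biUnion fun t => (univ.filter fun pq : Bool × Bool =>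
        pq ≠ (z (ι (Sum.inr t)), z (ι (Sum.inr (finRotate (M + M) t))))).image
          fun pq => jj (Sum.inr (t, pq))) := by
    ext v
    rw [Finset.mem_compl, mem_Sz, Finset.mem_union, Finset.mem_image, Finset.mem_biUnion]
    by_cases hv : ∃ w, jj w = v
    · obtain ⟨w, rfl⟩ := hv
      rw [mem_jj]
      rcases w with ⟨l, a⟩ | ⟨t, p, q⟩
      · simp only [tst, beq_iff_eq, Finset.mem_univ, true_and, EmbeddingLike.apply_eq_iff_eq,
          Sum.inl.injEq, Prod.mk.injEq, Finset.mem_image, reduceCtorEq, and_false, exists_false,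
          or_false]
        constructor
        · intro h
          refine ⟨l, rfl, ?_⟩
          cases hz : z (ι (Sum.inl l)) <;> cases a <;> simp_all
        · rintro ⟨l', rfl, h⟩ h2
          rw [h2] at h
          cases a <;> simp at h
      · simp only [tst, Bool.and_eq_true, beq_iff_eq, Finset.mem_univ, true_and,
          EmbeddingLike.apply_eq_iff_eq, reduceCtorEq, exists_false, false_or, Finset.mem_image,
          Finset.mem_filter, Sum.inr.injEq, Prod.mk.injEq]
        constructor
        · intro h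
          refine ⟨t, (p, q), fun h2 => h ?_, rfl, rfl⟩
          rw [Prod.mk.injEq] at h2
          exact ⟨h2.1.symm, h2.2.symm⟩
        · rintro ⟨t', pq, h, rfl, rfl⟩ h2
          apply h
          rw [h2.1, h2.2]
    · push Not at hv
      rw [mem_out ι jj z v hv]
      simp only [not_true_eq_false, Finset.mem_univ, true_and, Finset.mem_image, false_iff, not_or,
        not_exists, not_and]
      exact ⟨fun l => hv _, fun t pq _ => hv _⟩
  have h2 : ((Sz ι jj z)ᶜ).card = 7 * M := by
    rw [h1, Finset.card_union_of_disjoint, Finset.card_image_of_injective,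
      Finset.card_biUnion, Finset.card_univ, hcard]
    · have : ∀ t ∈ (univ : Finset (Fin (M + M))), ((univ.filter fun pq : Bool × Bool =>
        pq ≠ (z (ι (Sum.inr t)), z (ι (Sum.inr (finRotate (M + M) t))))).image
          fun pq => jj (Sum.inr (t, pq))).card = 3 := by
        intro t _
        rw [Finset.card_image_of_injective _ (fun x y h => by
          have := Sum.inr.inj (jj.injective h)
          exact (Prod.mk.inj this).2)]
        generalize z (ι (Sum.inr t)) = x
        generalize z (ι (Sum.inr (finRotate (M + M) t))) = y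
        revert x y
        decide
      rw [Finset.sum_congr rfl this, Finset.sum_const, Finset.card_univ, Fintype.card_fin,
        smul_eq_mul]
      ring
    · intro t _ t' _ hne
      change Disjoint _ _
      rw [Finset.disjoint_left]
      intro v hv hv'
      rw [Finset.mem_image] at hv hv'
      obtain ⟨pq, -, h3⟩ := hv
      obtain ⟨pq', -, h4⟩ := hv'
      rw [← h4] at h3
      have := Sum.inr.inj (jj.injective h3)
      exact hne (Prod.mk.inj this).1
    · intro l l' h
      have := Sum.inl.inj (jj.injective h)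
      exact (Prod.mk.inj this).1
    · rw [Finset.disjoint_left]
      intro v hv hv'
      rw [Finset.mem_image] at hv
      rw [Finset.mem_biUnion] at hv'
      obtain ⟨l, -, h3⟩ := hv
      obtain ⟨t, -, h4⟩ := hv'
      rw [Finset.mem_image] at h4
      obtain ⟨pq, -, h4⟩ := h4
      rw [← h4] at h3
      exact absurd (jj.injective h3) (by simp)
  have h3 := Finset.card_add_card_compl (Sz ι jj z)
  rw [h2, Fintype.card_fin] at h3
  exact h3

/-- the adjacent pairs in Bob's set -/
theorem adj_Sz (z : Fin N → Bool) (u v : Fin n) (hu : mem ι jj z u = true)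
    (hv : mem ι jj z v = true) :
    (∃ w w', jj w = u ∧ jj w' = v ∧ rel e σ b w w') ↔ ∃ κ : α ⊕ α, viol (EE2 e) ι σ b z κ ≠ 0 ∧
      u = jj (Sum.inr (EE2 e κ, z (ι (Sum.inr (EE2 e κ))),
        z (ι (Sum.inr (finRotate (M + M) (EE2 e κ)))))) ∧
      v = jj (Sum.inl (lab σ κ, z (ι (Sum.inl (lab σ κ))))) := by
  constructor
  · rintro ⟨w, w', rfl, rfl, h⟩
    rw [mem_jj] at hu hv
    rcases w with ⟨l, a⟩ | ⟨t, p, q⟩ <;> rcases w' with ⟨l', a'⟩ | ⟨t', p', q'⟩
    · simp only [tst, beq_iff_eq] at hu hv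
      obtain ⟨rfl, h2⟩ := h
      exact absurd (hu.symm.trans hv) h2
    · exact h.elim
    · simp only [tst, Bool.and_eq_true, beq_iff_eq] at hu hv
      obtain ⟨h1, h2⟩ := h
      refine ⟨(EE2 e).symm t, ?_, ?_, ?_⟩
      · rw [viol_iff, Equiv.apply_symm_apply, hu.1, hu.2, ← h1, hv, h2]
      · rw [Equiv.apply_symm_apply, hu.1, hu.2]
      · rw [← h1, hv]
    · simp only [tst, Bool.and_eq_true, beq_iff_eq] at hu hv
      rcases h with ⟨rfl, h2⟩ | ⟨h1, h2⟩
      · refine absurd ?_ h2
        rw [← hu.1, ← hu.2, hv.1, hv.2]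
      · refine absurd ?_ h2
        rw [← hu.2, ← hv.1, h1]
  · rintro ⟨κ, h1, rfl, rfl⟩
    refine ⟨_, _, rfl, rfl, ?_⟩
    rw [viol_iff] at h1
    simp only [rel, Equiv.symm_apply_apply]
    exact ⟨trivial, h1⟩

/-- the number of edges in Bob's set -/
theorem edges_Sz (z : Fin N → Bool) :
    edgesIn (Gr e jj σ b) (Sz ι jj z) = nv e ι σ b z := by
  classical
  unfold edgesIn nv
  symm
  refine Finset.card_bij (fun κ _ => s(jj (Sum.inr (EE2 e κ, z (ι (Sum.inr (EE2 e κ))),
        z (ι (Sum.inr (finRotate (M + M) (EE2 e κ)))))),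
      jj (Sum.inl (lab σ κ, z (ι (Sum.inl (lab σ κ))))))) ?_ ?_ ?_
  · intro κ hκ
    simp only [Finset.mem_filter, Finset.mem_univ, true_and] at hκ
    have hu : mem ι jj z (jj (Sum.inr (EE2 e κ, z (ι (Sum.inr (EE2 e κ))),
        z (ι (Sum.inr (finRotate (M + M) (EE2 e κ))))))) = true := by
      rw [mem_jj]; simp only [tst, beq_self_eq_true, Bool.and_self]
    have hv : mem ι jj z (jj (Sum.inl (lab σ κ, z (ι (Sum.inl (lab σ κ)))))) = true := by
      rw [mem_jj]; simp only [tst, beq_self_eq_true]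
    rw [Finset.mem_filter, SimpleGraph.mem_edgeFinset, SimpleGraph.mem_edgeSet, Gr_adj]
    refine ⟨⟨?_, Or.inl ((adj_Sz e ι jj σ b z _ _ hu hv).mpr ⟨κ, hκ, rfl, rfl⟩)⟩, ?_⟩
    · intro h
      exact absurd (jj.injective h) (by simp)
    · intro v hv'
      rw [Sym2.mem_iff] at hv'
      rw [mem_Sz]
      rcases hv' with rfl | rfl
      · exact hu
      · exact hv
  · intro κ _ κ' _ h
    rw [Sym2.eq_iff] at h
    rcases h with ⟨h1, -⟩ | ⟨h1, -⟩
    · have := Sum.inr.inj (jj.injective h1)
      exact (EE2 e).injective (Prod.mk.inj this).1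
    · exact absurd (jj.injective h1) (by simp)
  · intro E hE
    induction E with
    | _ u v =>
      rw [Finset.mem_filter, SimpleGraph.mem_edgeFinset, SimpleGraph.mem_edgeSet, Gr_adj] at hE
      obtain ⟨⟨hne, h⟩, hS⟩ := hE
      have hu : mem ι jj z u = true := (mem_Sz ι jj z u).mp (hS u (Sym2.mem_mk_left u v))
      have hv : mem ι jj z v = true := (mem_Sz ι jj z v).mp (hS v (Sym2.mem_mk_right u v))
      rcases h with h | h
      · obtain ⟨κ, h1, h2, h3⟩ := (adj_Sz e ι jj σ b z u v hu hv).mp h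
        refine ⟨κ, by simp [h1], ?_⟩
        rw [h2, h3]
      · obtain ⟨κ, h1, h2, h3⟩ := (adj_Sz e ι jj σ b z v u hv hu).mp h
        refine ⟨κ, by simp [h1], ?_⟩
        rw [h2, h3, Sym2.eq_swap]

/-- adjacent vertices in Bob's set falsify a clause -/
theorem adj_clause {u v : Fin n} (h : (Gr e jj σ b).Adj u v) (hne : (Fm (EE2 e) ι σ b).Nonempty) :
    ∃ C ∈ Fm (EE2 e) ι σ b, ∀ z, mem ι jj z u = true → mem ι jj z v = true →
      ¬ ∃ l ∈ C, z l.1 = l.2 := by
  classical
  -- one direction
  have key : ∀ u v : Fin n, (∃ w w', jj w = u ∧ jj w' = v ∧ rel e σ b w w') →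
      ∃ C ∈ Fm (EE2 e) ι σ b, ∀ z, mem ι jj z u = true → mem ι jj z v = true →
      ¬ ∃ l ∈ C, z l.1 = l.2 := by
    rintro u v ⟨w, w', rfl, rfl, h⟩
    by_cases hz : ∃ z, mem ι jj z (jj w) = true ∧ mem ι jj z (jj w') = true
    · rcases w with ⟨l, a⟩ | ⟨t, p, q⟩
      · rcases w' with ⟨l', a'⟩ | ⟨t', p', q'⟩
        · obtain ⟨z, hu, hv⟩ := hz
          rw [mem_jj] at hu hv
          simp only [tst, beq_iff_eq] at hu hv
          obtain ⟨rfl, h2⟩ := h
          exact absurd (hu.symm.trans hv) h2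
        · exact h.elim
      · rcases w' with ⟨l', a'⟩ | ⟨t', p', q'⟩
        · obtain ⟨h1, h2⟩ := h
          refine ⟨cl (EE2 e) ι σ b ((EE2 e).symm t, p, q), Finset.mem_image_of_mem _
            (Finset.mem_univ _), fun z hu hv => ?_⟩
          rw [mem_jj] at hu hv
          simp only [tst, Bool.and_eq_true, beq_iff_eq] at hu hv
          rw [not_sat_iff]
          simp only [Equiv.apply_symm_apply]
          refine ⟨hu.1, hu.2, ?_⟩
          rw [← h1, hv, h2]
        · obtain ⟨z, hu, hv⟩ := hz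
          rw [mem_jj] at hu hv
          simp only [tst, Bool.and_eq_true, beq_iff_eq] at hu hv
          rcases h with ⟨rfl, h2⟩ | ⟨h1, h2⟩
          · refine absurd ?_ h2
            rw [← hu.1, ← hu.2, hv.1, hv.2]
          · refine absurd ?_ h2
            rw [← hu.2, ← hv.1, h1]
    · push Not at hz
      obtain ⟨C, hC⟩ := hne
      exact ⟨C, hC, fun z hu hv => absurd hv (hz z hu)⟩
  rw [Gr_adj] at h
  rcases h.2 with h | h
  · exact key u v h
  · obtain ⟨C, hC, h⟩ := key v u h
    exact ⟨C, hC, fun z hu hv => h z hv hu⟩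

end enc

end Pool.Agent.H58.IS
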