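import Pool.Agent.H58.IS.Enc

/-! The graphs have no large independent sets, and small degrees. -/

set_option autoImplicit false
set_option linter.unusedSectionVars false

namespace Pool.Agent.H58.IS

open Finset Pool.Agent.H58.LPE

section enc

variable {α : Type*} [Fintype α] [DecidableEq α] {N M n : ℕ}
variable (e : α ≃ Fin M) (jj : Vx α M ↪ Fin n)
variable (σ : Equiv.Perm α) (b : α → ZMod 2)

theorem Gr_jj (w w' : Vx α M) : (Gr e jj σ b).Adj (jj w) (jj w') ↔
    w ≠ w' ∧ (rel e σ b w w' ∨ rel e σ b w' w) := by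
  rw [Gr_adj]
  constructor
  · rintro ⟨h1, h2⟩
    refine ⟨fun h => h1 (by rw [h]), ?_⟩
    rcases h2 with ⟨x, y, hx, hy, h⟩ | ⟨x, y, hx, hy, h⟩
    · rw [jj.injective hx, jj.injective hy] at h
      exact Or.inl h
    · rw [jj.injective hx, jj.injective hy] at h
      exact Or.inr h
  · rintro ⟨h1, h2⟩
    refine ⟨fun h => h1 (jj.injective h), ?_⟩
    rcases h2 with h | h
    · exact Or.inl ⟨w, w', rfl, rfl, h⟩
    · exact Or.inr ⟨w', w, rfl, rfl, h⟩

/-- NO LARGE INDEPENDENT SETS -/
theorem no_indep (ι : α ⊕ Fin (M + M) ↪ Fin N) (hM : 2 ≤ M) (hcard : Fintype.card α = M) (hN : 3 * M ≤ N)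
    (hb : ∑ i, b i = 1) {k : ℕ} (hk : k + 7 * M = n) : NoIndep (Gr e jj σ b) k := by
  classical
  intro S hS
  by_contra hcon
  push Not at hcon
  obtain ⟨bk, hbk⟩ : ∃ bk : Fin n → Fin n ⊕ (α ⊕ Fin (M + M)), bk = Function.extend jj
    (fun w => Sum.inr (Sum.elim (fun x => Sum.inl x.1) (fun x => Sum.inr x.1) w))
    (fun v => Sum.inl v) := ⟨_, rfl⟩
  have hb1 : ∀ w, bk (jj w) =
      Sum.inr (Sum.elim (fun x => Sum.inl x.1) (fun x => Sum.inr x.1) w) := by
    intro w
    rw [hbk, jj.injective.extend_apply]
  have hb2 : ∀ v, (∀ w, jj w ≠ v) → bk v = Sum.inl v := by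
    intro v hv
    rw [hbk, Function.extend_apply' _ _ _ (fun ⟨y, hy⟩ => hv y hy)]
  have hinj : ∀ u ∈ S, ∀ v ∈ S, bk u = bk v → u = v := by
    intro u hu v hv h
    by_cases h1 : ∃ w, jj w = u
    · obtain ⟨w, rfl⟩ := h1
      by_cases h2 : ∃ w', jj w' = v
      · obtain ⟨w', rfl⟩ := h2
        rw [hb1, hb1] at h
        have h := Sum.inr.inj h
        by_contra hne
        have hne' : w ≠ w' := fun h => hne (by rw [h])
        apply hcon _ hu _ hv
        rw [Gr_jj]
        refine ⟨hne', Or.inl ?_⟩
        rcases w with ⟨l, a⟩ | ⟨t, p, q⟩ <;> rcases w' with ⟨l', a'⟩ | ⟨t', p', q'⟩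
        · simp only [Sum.elim_inl, Sum.inl.injEq] at h
          subst h
          exact ⟨rfl, fun h => hne' (by rw [h])⟩
        · simp at h
        · simp at h
        · simp only [Sum.elim_inr, Sum.inr.injEq] at h
          subst h
          exact Or.inl ⟨rfl, fun h => hne' (by rw [h])⟩
      · push Not at h2
        rw [hb1, hb2 v h2] at h
        exact absurd h (by simp)
    · push Not at h1
      by_cases h2 : ∃ w', jj w' = v
      · obtain ⟨w', rfl⟩ := h2
        rw [hb1, hb2 u h1] at h
        exact absurd h (by simp)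
      · push Not at h2
        rw [hb2 u h1, hb2 v h2] at h
        exact Sum.inl.inj h
  obtain ⟨TT, hTT⟩ : ∃ TT : Finset (Fin n ⊕ (α ⊕ Fin (M + M))), TT =
    ((univ.image jj)ᶜ : Finset (Fin n)).image Sum.inl ∪ univ.image Sum.inr := ⟨_, rfl⟩
  have hTc : TT.card ≤ k := by
    rw [hTT]
    refine (Finset.card_union_le _ _).trans ?_
    have h1 : (((univ.image jj)ᶜ : Finset (Fin n)).image
        (Sum.inl : Fin n → Fin n ⊕ (α ⊕ Fin (M + M)))).card ≤ n - 10 * M := by
      refine Finset.card_image_le.trans ?_
      rw [Finset.card_compl, Finset.card_image_of_injective _ jj.injective, Finset.card_univ,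
        Fintype.card_fin, Fintype.card_sum, Fintype.card_prod, Fintype.card_prod, hcard,
        Fintype.card_fin, Fintype.card_prod, Fintype.card_bool]
      omega
    have h2 : ((univ : Finset (α ⊕ Fin (M + M))).image
        (Sum.inr : α ⊕ Fin (M + M) → Fin n ⊕ (α ⊕ Fin (M + M)))).card ≤ 3 * M := by
      refine Finset.card_image_le.trans ?_
      rw [Finset.card_univ, Fintype.card_sum, Fintype.card_fin, hcard]
      omega
    have h3 := Fintype.card_le_of_embedding jj
    rw [Fintype.card_fin, Fintype.card_sum, Fintype.card_prod, Fintype.card_prod, hcard,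
      Fintype.card_fin, Fintype.card_prod, Fintype.card_bool] at h3
    omega
  have hsub : S.image bk ⊆ TT := by
    intro y hy
    obtain ⟨v, -, rfl⟩ := Finset.mem_image.mp hy
    rw [hTT, Finset.mem_union]
    by_cases h1 : ∃ w, jj w = v
    · obtain ⟨w, rfl⟩ := h1
      right
      rw [hb1]
      exact Finset.mem_image_of_mem _ (Finset.mem_univ _)
    · left
      have h2 := h1
      push Not at h1
      rw [hb2 v h1]
      refine Finset.mem_image_of_mem _ ?_
      rw [Finset.mem_compl, Finset.mem_image]
      rintro ⟨w, -, hw⟩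
      exact h2 ⟨w, hw⟩
  have heq : S.image bk = TT := by
    refine Finset.eq_of_subset_of_card_le hsub ?_
    rw [Finset.card_image_of_injOn fun u hu v hv h => hinj u hu v hv h, hS]
    exact hTc
  have hall : ∀ y : α ⊕ Fin (M + M), ∃ v ∈ S, bk v = Sum.inr y := by
    intro y
    have : (Sum.inr y : Fin n ⊕ (α ⊕ Fin (M + M))) ∈ S.image bk := by
      rw [heq, hTT]
      exact Finset.mem_union_right _ (Finset.mem_image_of_mem _ (Finset.mem_univ _))
    obtain ⟨v, hv, h⟩ := Finset.mem_image.mp this
    exact ⟨v, hv, h⟩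
  have hlab : ∀ l : α, ∃ a, jj (Sum.inl (l, a)) ∈ S := by
    intro l
    obtain ⟨v, hv, h⟩ := hall (Sum.inl l)
    by_cases h1 : ∃ w, jj w = v
    · obtain ⟨w, rfl⟩ := h1
      rw [hb1] at h
      have h := Sum.inr.inj h
      rcases w with ⟨l', a⟩ | ⟨t, p, q⟩
      · simp only [Sum.elim_inl, Sum.inl.injEq] at h
        subst h
        exact ⟨a, hv⟩
      · simp at h
    · push Not at h1
      rw [hb2 v h1] at h
      exact absurd h (by simp)
  have hpos : ∀ t : Fin (M + M), ∃ p q, jj (Sum.inr (t, p, q)) ∈ S := by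
    intro t
    obtain ⟨v, hv, h⟩ := hall (Sum.inr t)
    by_cases h1 : ∃ w, jj w = v
    · obtain ⟨w, rfl⟩ := h1
      rw [hb1] at h
      have h := Sum.inr.inj h
      rcases w with ⟨l', a⟩ | ⟨t', p, q⟩
      · simp at h
      · simp only [Sum.elim_inr, Sum.inr.injEq] at h
        subst h
        exact ⟨p, q, hv⟩
    · push Not at h1
      rw [hb2 v h1] at h
      exact absurd h (by simp)
  choose la hla using hlab
  choose ps qs hpq using hpos
  have hcons : ∀ t, qs t = ps (finRotate (M + M) t) := by
    intro t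
    by_contra hne
    apply hcon _ (hpq t) _ (hpq (finRotate (M + M) t))
    rw [Gr_jj]
    refine ⟨fun h => ?_, Or.inl (Or.inr ⟨rfl, hne⟩)⟩
    have := (Prod.mk.inj (Sum.inr.inj h)).1
    exact rot_ne (by omega) t this.symm
  -- an assignment
  have hU : Fintype.card (α ⊕ Fin (M + M)) ≤ N := by
    rw [Fintype.card_sum, Fintype.card_fin, hcard]
    omega
  obtain ⟨z, hz⟩ : ∃ z : Fin N → Bool, (∀ l, z (ι (Sum.inl l)) = la l) ∧
      ∀ t, z (ι (Sum.inr t)) = ps t := by
    refine ⟨Function.extend ι (Sum.elim la ps) (fun _ => false), fun l => ?_, fun t => ?_⟩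
    · rw [ι.injective.extend_apply]; rfl
    · rw [ι.injective.extend_apply]; rfl
  obtain ⟨κ, hκ⟩ : ∃ κ, viol (EE2 e) ι σ b z κ ≠ 0 := by
    obtain ⟨κ, -, hκ⟩ := viol_ref (EE2 e) ι σ b hb (fun _ => True) z trivial
    exact ⟨κ, hκ⟩
  rw [viol_iff, hz.1, hz.2, hz.2, ← hcons] at hκ
  apply hcon _ (hpq (EE2 e κ)) _ (hla (lab σ κ))
  rw [Gr_jj]
  refine ⟨by simp, Or.inl ?_⟩
  simp only [rel, Equiv.symm_apply_apply]
  exact ⟨trivial, hκ⟩

/-- SMALL DEGREES -/
theorem deg8 : Deg8 (Gr e jj σ b) := by
  classical
  intro v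
  by_cases hv : ∃ w, jj w = v
  swap
  · have : (Gr e jj σ b).degree v = 0 := by
      rw [SimpleGraph.degree, Finset.card_eq_zero, Finset.eq_empty_iff_forall_notMem]
      intro u hu
      rw [SimpleGraph.mem_neighborFinset, Gr_adj] at hu
      rcases hu.2 with ⟨w, w', h1, h2, -⟩ | ⟨w, w', h1, h2, -⟩
      · exact hv ⟨w, h1⟩
      · exact hv ⟨w', h2⟩
    rw [this]
    exact Nat.zero_le _
  obtain ⟨w, rfl⟩ := hv
  have hin : ∀ u, (Gr e jj σ b).Adj (jj w) u → ∃ w', u = jj w' ∧
      (rel e σ b w w' ∨ rel e σ b w' w) := by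
    intro u hu
    rw [Gr_adj] at hu
    rcases hu.2 with ⟨x, y, h1, h2, h⟩ | ⟨x, y, h1, h2, h⟩
    · rw [jj.injective h1] at h
      exact ⟨y, h2.symm, Or.inl h⟩
    · rw [jj.injective h2] at h
      exact ⟨x, h1.symm, Or.inr h⟩
  rw [SimpleGraph.degree]
  rcases w with ⟨l, a⟩ | ⟨t, p, q⟩
  · have hsub : (Gr e jj σ b).neighborFinset (jj (Sum.inl (l, a))) ⊆
        {jj (Sum.inl (l, !a))} ∪ (univ : Finset (Bool × Bool)).image (fun x =>
          jj (Sum.inr (EE2 e (if x.1 then Sum.inl (σ.symm l) else Sum.inr l), x.2,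
            zb (rhs b (if x.1 then Sum.inl (σ.symm l) else Sum.inr l) + 1 + bz x.2 + bz a)))) := by
      intro u hu
      rw [SimpleGraph.mem_neighborFinset] at hu
      obtain ⟨w', rfl, h⟩ := hin u hu
      rcases w' with ⟨l', a'⟩ | ⟨t', p', q'⟩
      · apply Finset.mem_union_left
        rw [Finset.mem_singleton]
        have h2 : l = l' ∧ a ≠ a' := by
          rcases h with h | h
          · exact h
          · exact ⟨h.1.symm, h.2.symm⟩
        obtain ⟨rfl, h3⟩ := h2
        have h4 : a' = !a := by
          revert h3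
          cases a <;> cases a' <;> decide
        rw [h4]
      · apply Finset.mem_union_right
        rcases h with h | h
        · exact h.elim
        obtain ⟨h1, h2⟩ := h
        rw [Finset.mem_image]
        have key : ∀ (r : ZMod 2) (p q : Bool), q = zb (r + 1 + bz p + bz (zb (r + 1 + bz p + bz q))) := by
          decide
        have hq : q' = zb (rhs b ((EE2 e).symm t') + 1 + bz p' + bz a) := by
          rw [h2]
          exact key _ _ _
        rcases hκ : (EE2 e).symm t' with i | l'
        · refine ⟨(true, p'), Finset.mem_univ _, ?_⟩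
          rw [hκ] at h1 hq
          simp only [lab, Sum.elim_inl] at h1
          have h3 : σ.symm l = i := by rw [h1, Equiv.symm_apply_apply]
          simp only [if_true, h3]
          rw [← hq, ← hκ, Equiv.apply_symm_apply]
        · refine ⟨(false, p'), Finset.mem_univ _, ?_⟩
          rw [hκ] at h1 hq
          simp only [lab, Sum.elim_inr, id] at h1
          subst h1
          simp only [Bool.false_eq_true, if_false]
          rw [← hq, ← hκ, Equiv.apply_symm_apply]
    refine (Finset.card_le_card hsub).trans ((Finset.card_union_le _ _).trans ?_)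
    have h1 := Finset.card_image_le (s := (univ : Finset (Bool × Bool))) (f := fun x =>
          jj (Sum.inr (EE2 e (if x.1 then Sum.inl (σ.symm l) else Sum.inr l), x.2,
            zb (rhs b (if x.1 then Sum.inl (σ.symm l) else Sum.inr l) + 1 + bz x.2 + bz a))))
    rw [card_pos_le] at h1
    rw [Finset.card_singleton]
    omega
  · have hsub : (Gr e jj σ b).neighborFinset (jj (Sum.inr (t, p, q))) ⊆
        ((univ.filter fun pq : Bool × Bool => pq ≠ (p, q)).image fun pq => jj (Sum.inr (t, pq))) ∪
        (((univ : Finset Bool).image fun x => jj (Sum.inr (finRotate (M + M) t, !q, x))) ∪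
        (((univ : Finset Bool).image fun x => jj (Sum.inr ((finRotate (M + M)).symm t, x, !p))) ∪
        {jj (Sum.inl (lab σ ((EE2 e).symm t), third b ((EE2 e).symm t) p q))})) := by
      intro u hu
      rw [SimpleGraph.mem_neighborFinset] at hu
      have hne := hu.ne
      obtain ⟨w', rfl, h⟩ := hin u hu
      rcases w' with ⟨l', a'⟩ | ⟨t', p', q'⟩
      · refine Finset.mem_union_right _ (Finset.mem_union_right _ (Finset.mem_union_right _ ?_))
        rw [Finset.mem_singleton]
        rcases h with h | h
        · obtain ⟨h1, h2⟩ := h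
          rw [h1, h2]
        · exact h.elim
      · have hsame : t = t' → jj (Sum.inr (t', p', q')) ∈
            ((univ.filter fun pq : Bool × Bool => pq ≠ (p, q)).image
              fun pq => jj (Sum.inr (t, pq))) := by
          rintro rfl
          refine Finset.mem_image.mpr ⟨(p', q'), ?_, rfl⟩
          rw [Finset.mem_filter]
          refine ⟨Finset.mem_univ _, fun h => hne ?_⟩
          rw [h]
        rcases h with h | h
        · rcases h with ⟨h1, -⟩ | ⟨h1, h2⟩
          · exact Finset.mem_union_left _ (hsame h1)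
          · refine Finset.mem_union_right _ (Finset.mem_union_left _
              (Finset.mem_image.mpr ⟨q', Finset.mem_univ _, ?_⟩))
            have h3 : p' = !q := by
              revert h2
              cases q <;> cases p' <;> decide
            rw [h1, h3]
        · rcases h with ⟨h1, -⟩ | ⟨h1, h2⟩
          · exact Finset.mem_union_left _ (hsame h1.symm)
          · refine Finset.mem_union_right _ (Finset.mem_union_right _ (Finset.mem_union_left _
              (Finset.mem_image.mpr ⟨p', Finset.mem_univ _, ?_⟩)))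
            have h3 : q' = !p := by
              revert h2
              cases p <;> cases q' <;> decide
            have h4 : (finRotate (M + M)).symm t = t' := by rw [h1, Equiv.symm_apply_apply]
            rw [h3, h4]
    have h1 : ((univ.filter fun pq : Bool × Bool => pq ≠ (p, q)).image
        fun pq => jj (Sum.inr (t, pq))).card ≤ 3 := by
      refine Finset.card_image_le.trans (le_of_eq ?_)
      have h0 : ∀ p q : Bool, (univ.filter fun pq : Bool × Bool => pq ≠ (p, q)).card = 3 := by
        decide
      exact h0 p q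
    have h2 := Finset.card_image_le (s := (univ : Finset Bool))
      (f := fun x => jj (Sum.inr (finRotate (M + M) t, !q, x)))
    have h3 := Finset.card_image_le (s := (univ : Finset Bool))
      (f := fun x => jj (Sum.inr ((finRotate (M + M)).symm t, x, !p)))
    rw [Finset.card_univ, Fintype.card_bool] at h2 h3
    refine (Finset.card_le_card hsub).trans ((Finset.card_union_le _ _).trans ?_)
    have u1 := Finset.card_union_le
      ((univ : Finset Bool).image fun x => jj (Sum.inr (finRotate (M + M) t, !q, x)))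
      (((univ : Finset Bool).image fun x => jj (Sum.inr ((finRotate (M + M)).symm t, x, !p))) ∪
        {jj (Sum.inl (lab σ ((EE2 e).symm t), third b ((EE2 e).symm t) p q))})
    have u2 := Finset.card_union_le
      ((univ : Finset Bool).image fun x => jj (Sum.inr ((finRotate (M + M)).symm t, x, !p)))
      {jj (Sum.inl (lab σ ((EE2 e).symm t), third b ((EE2 e).symm t) p q))}
    rw [Finset.card_singleton] at u2
    omega

/-- different formulas have different graphs -/
theorem Gr_inj (σ' : Equiv.Perm α) (b' : α → ZMod 2) (h : Gr e jj σ b = Gr e jj σ' b') :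
    σ = σ' ∧ b = b' := by
  have key : ∀ i, σ i = σ' i ∧ b i = b' i := by
    intro i
    have h1 : (Gr e jj σ b).Adj (jj (Sum.inr (EE2 e (Sum.inl i), false, false)))
        (jj (Sum.inl (σ i, third b (Sum.inl i) false false))) := by
      rw [Gr_jj]
      refine ⟨by simp, Or.inl ?_⟩
      simp only [rel, Equiv.symm_apply_apply, lab, Sum.elim_inl]
      exact ⟨trivial, trivial⟩
    rw [h, Gr_jj] at h1
    rcases h1.2 with h2 | h2
    · simp only [rel, Equiv.symm_apply_apply, lab, Sum.elim_inl] at h2
      refine ⟨h2.1, ?_⟩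
      have h3 := h2.2
      simp only [third, rhs, Sum.elim_inl] at h3
      have key : ∀ r r' : ZMod 2, zb (r + 1 + bz false + bz false) =
        zb (r' + 1 + bz false + bz false) → r = r' := by decide
      exact key _ _ h3
    · exact h2.elim
  exact ⟨Equiv.ext fun i => (key i).1, funext fun i => (key i).2⟩

end enc

end Pool.Agent.H58.IS
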