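import Pool.Agent.H58.LPE.Branch

/-! Sums of products of functions of disjoint sets of bits. -/

set_option autoImplicit false
set_option linter.unusedSectionVars false

namespace Pool.Agent.H58.IS

open Finset Pool.Agent.H58.LPE

section indep

variable {β : Type*} [Fintype β] [DecidableEq β]

/-- exchange of the bits outside `D` -/
def exch (D : Finset β) (p : (β → Bool) × (β → Bool)) : (β → Bool) × (β → Bool) :=
  (fun j => if j ∈ D then p.1 j else p.2 j, fun j => if j ∈ D then p.2 j else p.1 j)

theorem exch_exch (D : Finset β) (p : (β → Bool) × (β → Bool)) : exch D (exch D p) = p := by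
  unfold exch
  apply Prod.ext <;> funext j <;> by_cases h : j ∈ D <;> simp [h]

theorem sum_mul_indep (F G : (β → Bool) → ℝ) (D D' : Finset β) (hdis : Disjoint D D')
    (hF : ∀ g g', (∀ j ∈ D, g j = g' j) → F g = F g')
    (hG : ∀ g g', (∀ j ∈ D', g j = g' j) → G g = G g') :
    (∑ g, F g * G g) * 2 ^ Fintype.card β = (∑ g, F g) * ∑ g, G g := by
  have h1 : (∑ g, F g) * ∑ g, G g = ∑ p : (β → Bool) × (β → Bool), F p.1 * G p.2 := by
    rw [Fintype.sum_prod_type, Finset.sum_mul]
    refine Finset.sum_congr rfl fun g _ => ?_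
    rw [Finset.mul_sum]
  have h2 : ∑ p : (β → Bool) × (β → Bool), F p.1 * G p.2 =
      ∑ p : (β → Bool) × (β → Bool), F p.1 * G p.1 := by
    refine Finset.sum_nbij' (exch D) (exch D) (fun _ _ => Finset.mem_univ _)
      (fun _ _ => Finset.mem_univ _) (fun p _ => exch_exch D p) (fun p _ => exch_exch D p)
      (fun p _ => ?_)
    congr 1
    · refine hF _ _ fun j hj => ?_
      simp [exch, hj]
    · refine hG _ _ fun j hj => ?_
      have hj' : j ∉ D := fun h => Finset.disjoint_left.mp hdis h hj
      simp [exch, hj']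
  rw [h1, h2, Fintype.sum_prod_type]
  simp only [Finset.sum_const, Finset.card_univ, Fintype.card_fun, Fintype.card_bool,
    nsmul_eq_mul]
  rw [← Finset.mul_sum]
  push_cast
  ring

theorem indep_prod {I : Type*} (F : I → (β → Bool) → ℝ) (D : I → Finset β) (r : ℝ) (hr : 0 ≤ r)
    (J : Finset I) (hdis : ∀ i ∈ J, ∀ j ∈ J, i ≠ j → Disjoint (D i) (D j))
    (hF : ∀ i ∈ J, ∀ g g', (∀ j ∈ D i, g j = g' j) → F i g = F i g')
    (h0 : ∀ i ∈ J, ∀ g, 0 ≤ F i g)
    (hs : ∀ i ∈ J, ∑ g, F i g ≤ r * 2 ^ Fintype.card β) :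
    ∑ g, ∏ i ∈ J, F i g ≤ r ^ J.card * 2 ^ Fintype.card β := by
  classical
  induction J using Finset.induction_on with
  | empty =>
    simp
  | insert i J hi ih =>
    have ih' := ih (fun a ha b hb => hdis a (Finset.mem_insert_of_mem ha) b
      (Finset.mem_insert_of_mem hb)) (fun a ha => hF a (Finset.mem_insert_of_mem ha))
      (fun a ha => h0 a (Finset.mem_insert_of_mem ha))
      (fun a ha => hs a (Finset.mem_insert_of_mem ha))
    have h1 := sum_mul_indep (F i) (fun g => ∏ j ∈ J, F j g) (D i) (J.biUnion D)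
      (by
        rw [Finset.disjoint_biUnion_right]
        intro j hj
        exact hdis i (Finset.mem_insert_self _ _) j (Finset.mem_insert_of_mem hj)
          (by rintro rfl; exact hi hj))
      (hF i (Finset.mem_insert_self _ _))
      (fun g g' h => Finset.prod_congr rfl fun j hj => hF j (Finset.mem_insert_of_mem hj) g g'
        fun l hl => h l (Finset.mem_biUnion.mpr ⟨j, hj, hl⟩))
    have h2 : ∀ g, ∏ j ∈ insert i J, F j g = F i g * ∏ j ∈ J, F j g := fun g =>
      Finset.prod_insert hi
    simp only [h2]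
    rw [Finset.card_insert_of_notMem hi]
    have h3 : 0 ≤ ∑ g, ∏ j ∈ J, F j g := Finset.sum_nonneg fun g _ =>
      Finset.prod_nonneg fun j hj => h0 j (Finset.mem_insert_of_mem hj) g
    have h4 : (∑ g, F i g) * ∑ g, ∏ j ∈ J, F j g ≤
        (r * 2 ^ Fintype.card β) * (r ^ J.card * 2 ^ Fintype.card β) :=
      mul_le_mul (hs i (Finset.mem_insert_self _ _)) ih' h3 (by positivity)
    rw [← h1] at h4
    have h5 : (0:ℝ) < 2 ^ Fintype.card β := by positivity
    have h6 : (r * 2 ^ Fintype.card β) * (r ^ J.card * 2 ^ Fintype.card β) =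
      (r ^ (J.card + 1) * 2 ^ Fintype.card β) * 2 ^ Fintype.card β := by ring
    rw [h6] at h4
    exact le_of_mul_le_mul_right h4 h5

/-- a pattern on two bits -/
theorem pat_two {a c : β} (hac : a ≠ c) (p q : Bool) {y : ℝ} (_hy : 0 ≤ y) (hy1 : y ≤ 1) :
    ∑ g : β → Bool, (if g a = p ∧ g c = q then y else 1) ≤
      (3 + y) / 4 * 2 ^ Fintype.card β := by
  classical
  obtain ⟨ρ, hρ⟩ : ∃ ρ : β → Option Bool, ρ = fun j => if j = a then some p else
    if j = c then some q else none := ⟨_, rfl⟩
  have hw : width ρ = 2 := by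
    unfold width
    have : (univ.filter fun i => ρ i ≠ none) = {a, c} := by
      ext i
      simp only [Finset.mem_filter, Finset.mem_univ, true_and, Finset.mem_insert,
        Finset.mem_singleton, hρ]
      by_cases h1 : i = a
      · simp [h1]
      · by_cases h2 : i = c
        · subst h2
          simp [h1]
        · simp [h1, h2]
    rw [this, Finset.card_pair hac]
  have h1 : (univ.filter fun g : β → Bool => Ext ρ g).card * 2 ^ 2 = 2 ^ Fintype.card β := by
    have h := card_fix ρ
    rw [hw] at h
    have key : ∀ (f1 f2 : Fintype (β → Bool)) (i1 i2 : DecidablePred fun g : β → Bool => Ext ρ g),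
        (@Finset.filter _ _ i1 (@univ _ f1)).card = (@Finset.filter _ _ i2 (@univ _ f2)).card := by
      intro f1 f2 i1 i2
      rw [Subsingleton.elim f1 f2, Subsingleton.elim i1 i2]
    rw [← h]
    exact congrArg (fun x => x * 2 ^ 2) (key _ _ _ _)
  have h2 : (univ.filter fun g : β → Bool => g a = p ∧ g c = q) =
      univ.filter fun g : β → Bool => Ext ρ g := by
    ext g
    simp only [Finset.mem_filter, Finset.mem_univ, true_and]
    constructor
    · rintro ⟨ha, hc⟩ i s hi
      rw [hρ] at hi
      simp only at hi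
      by_cases h1 : i = a
      · rw [if_pos h1] at hi
        rw [h1, ha]
        exact Option.some.inj hi
      · rw [if_neg h1] at hi
        by_cases h2 : i = c
        · rw [if_pos h2] at hi
          rw [h2, hc]
          exact Option.some.inj hi
        · rw [if_neg h2] at hi
          exact absurd hi (by simp)
    · intro h
      exact ⟨h a p (by rw [hρ]; simp), h c q (by rw [hρ]; simp [Ne.symm hac])⟩
  have h3 := Finset.card_filter_add_card_filter_not (s := (univ : Finset (β → Bool)))
    (fun g => g a = p ∧ g c = q)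
  rw [Finset.card_univ, Fintype.card_fun, Fintype.card_bool] at h3
  rw [Finset.sum_ite, Finset.sum_const, Finset.sum_const, nsmul_eq_mul, nsmul_eq_mul, mul_one]
  rw [h2] at h3 ⊢
  have h4 : (((univ.filter fun g : β → Bool => Ext ρ g).card : ℕ) : ℝ) * 4 =
      2 ^ Fintype.card β := by
    have : (((univ.filter fun g : β → Bool => Ext ρ g).card * 2 ^ 2 : ℕ) : ℝ) =
      ((2 ^ Fintype.card β : ℕ) : ℝ) := by rw [h1]
    push_cast at this
    linarith
  have h5 : (((univ.filter fun g : β → Bool => Ext ρ g).card : ℕ) : ℝ) +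
      ((univ.filter fun g : β → Bool => ¬ (g a = p ∧ g c = q)).card : ℕ) = 2 ^ Fintype.card β := by
    exact_mod_cast h3
  have h6 : (0:ℝ) < 2 ^ Fintype.card β := by positivity
  nlinarith

end indep

end Pool.Agent.H58.IS
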