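import Pool.Agent.H58.IS.Indep
import Pool.Agent.H58.LPE.Restr

/-! The vertices of the graph, and the decay of the probability that a wide cell survives. -/

set_option autoImplicit false
set_option linter.unusedSectionVars false

namespace Pool.Agent.H58.IS

open Finset Pool.Agent.H58.LPE

/-- the vertices: two for every label, four for every position -/
abbrev Vx (α : Type*) (M : ℕ) := (α × Bool) ⊕ (Fin (M + M) × Bool × Bool)

section defs

variable {α : Type*} [Fintype α] [DecidableEq α] {N M n : ℕ}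

/-- is the vertex in Bob's set -/
def tst (ι : α ⊕ Fin (M + M) ↪ Fin N) (w : Vx α M) (z : Fin N → Bool) : Bool :=
  match w with
  | Sum.inl (l, a) => z (ι (Sum.inl l)) == a
  | Sum.inr (t, p, q) => (z (ι (Sum.inr t)) == p) && (z (ι (Sum.inr (finRotate (M + M) t))) == q)

/-- the variables of a vertex -/
def vs (ι : α ⊕ Fin (M + M) ↪ Fin N) (w : Vx α M) : Finset (Fin N) :=
  match w with
  | Sum.inl (l, _) => {ι (Sum.inl l)}
  | Sum.inr (t, _, _) => {ι (Sum.inr t), ι (Sum.inr (finRotate (M + M) t))}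

/-- the indicator function of Bob's set -/
noncomputable def mem (ι : α ⊕ Fin (M + M) ↪ Fin N) (jj : Vx α M ↪ Fin n) (z : Fin N → Bool) :
    Fin n → Bool :=
  Function.extend jj (fun w => tst ι w z) (fun _ => true)

/-- the variables of a vertex -/
noncomputable def vv (ι : α ⊕ Fin (M + M) ↪ Fin N) (jj : Vx α M ↪ Fin n) : Fin n → Finset (Fin N) :=
  Function.extend jj (vs ι) (fun _ => ∅)

variable (ι : α ⊕ Fin (M + M) ↪ Fin N) (jj : Vx α M ↪ Fin n)

theorem mem_jj (z : Fin N → Bool) (w : Vx α M) : mem ι jj z (jj w) = tst ι w z := by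
  unfold mem
  rw [jj.injective.extend_apply]

theorem mem_out (z : Fin N → Bool) (v : Fin n) (h : ∀ w, jj w ≠ v) : mem ι jj z v = true := by
  unfold mem
  rw [Function.extend_apply' _ _ _ (fun ⟨y, hy⟩ => h y hy)]

theorem vv_jj (w : Vx α M) : vv ι jj (jj w) = vs ι w := by
  unfold vv
  rw [jj.injective.extend_apply]

theorem vv_card (v : Fin n) : (vv ι jj v).card ≤ 2 := by
  by_cases h : ∃ w, jj w = v
  · obtain ⟨w, rfl⟩ := h
    rw [vv_jj]
    rcases w with ⟨l, a⟩ | ⟨t, p, q⟩
    · simp [vs]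
    · exact Finset.card_le_two
  · unfold vv
    rw [Function.extend_apply' _ _ _ h]
    simp

theorem tst_local (w : Vx α M) {z z' : Fin N → Bool} (h : ∀ j ∈ vs ι w, z j = z' j) :
    tst ι w z = tst ι w z' := by
  rcases w with ⟨l, a⟩ | ⟨t, p, q⟩
  · simp only [vs, Finset.mem_singleton, forall_eq] at h
    simp only [tst, h]
  · simp only [vs, Finset.mem_insert, Finset.mem_singleton, forall_eq_or_imp, forall_eq] at h
    simp only [tst, h.1, h.2]

theorem mem_local (v : Fin n) {z z' : Fin N → Bool} (h : ∀ j ∈ vv ι jj v, z j = z' j) :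
    mem ι jj z v = mem ι jj z' v := by
  by_cases hv : ∃ w, jj w = v
  · obtain ⟨w, rfl⟩ := hv
    rw [vv_jj] at h
    rw [mem_jj, mem_jj]
    exact tst_local ι w h
  · push Not at hv
    rw [mem_out ι jj z v hv, mem_out ι jj z' v hv]

end defs

section grp

variable {X β I : Type*} [Fintype X] [Fintype β] [DecidableEq β] {n : ℕ}

theorem grp (C : X → Fin n → ℝ) (hC0 : ∀ x v, 0 ≤ C x v) (hC1 : ∀ x v, C x v ≤ 1)
    (F : X → β → Bool) (hF : Function.Injective F) (J : Finset I) (v : I → Fin n)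
    (hv : ∀ i ∈ J, ∀ j ∈ J, v i = v j → i = j) (pt : I → (β → Bool) → Prop) (D : I → Finset β)
    (hdis : ∀ i ∈ J, ∀ j ∈ J, i ≠ j → Disjoint (D i) (D j))
    (hloc : ∀ i ∈ J, ∀ g g' : β → Bool, (∀ j ∈ D i, g j = g' j) → (pt i g ↔ pt i g'))
    {y : ℝ} (hy : 0 ≤ y)
    (hsum : ∀ i ∈ J, ∀ [∀ g, Decidable (pt i g)], ∑ g, (if pt i g then y else 1) ≤
      (3 + y) / 4 * 2 ^ Fintype.card β)
    (hpt : ∀ i ∈ J, ∀ x, pt i (F x) → C x (v i) ≤ y) :
    ∑ x, ∏ v, C x v ≤ ((3 + y) / 4) ^ J.card * 2 ^ Fintype.card β := by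
  classical
  have h1 := indep_prod (fun i g => if pt i g then y else 1) D ((3 + y) / 4) (by linarith) J hdis
    (fun i hi g g' h => by simp only [hloc i hi g g' h])
    (fun i _ g => by split_ifs; exacts [hy, zero_le_one]) (fun i hi => hsum i hi)
  refine le_trans ?_ h1
  have h2 : ∀ x, ∏ v, C x v ≤ ∏ i ∈ J, (if pt i (F x) then y else 1) := by
    intro x
    have h3 : ∏ v, C x v ≤ ∏ i ∈ J, C x (v i) := by
      rw [← Finset.prod_mul_prod_compl (J.image v) (C x), Finset.prod_image fun a ha b hb h =>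
        hv a ha b hb h]
      exact mul_le_of_le_one_right (Finset.prod_nonneg fun l _ => hC0 _ _)
        (Finset.prod_le_one (fun i _ => hC0 _ _) fun i _ => hC1 _ _)
    refine h3.trans (Finset.prod_le_prod (fun i _ => hC0 _ _) fun i hi => ?_)
    split_ifs with h
    · exact hpt i hi x h
    · exact hC1 _ _
  refine (Finset.sum_le_sum fun x _ => h2 x).trans ?_
  have h3 : ∑ x : X, ∏ i ∈ J, (if pt i (F x) then y else 1) =
      ∑ g ∈ univ.image F, ∏ i ∈ J, (if pt i g then y else 1) := by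
    rw [Finset.sum_image fun a _ b _ h => hF h]
  rw [h3]
  refine Finset.sum_le_sum_of_subset_of_nonneg (Finset.subset_univ _) fun g _ _ => ?_
  refine Finset.prod_nonneg fun i _ => ?_
  split_ifs
  · exact hy
  · exact zero_le_one

end grp

section kill

variable {α : Type*} [Fintype α] [DecidableEq α] {N M n : ℕ}
variable (e : α ≃ Fin M) (ι : α ⊕ Fin (M + M) ↪ Fin N) (jj : Vx α M ↪ Fin n)
variable (σ : Equiv.Perm α) (b c : α → ZMod 2)

theorem cf_some (s a : Bool) (h : a = !s) : cf (some s) a = true := by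
  subst h
  cases s <;> rfl

/-- positions in an interval, of one parity -/
theorem kill_pos (off r : ℕ) (hoff : off + M ≤ M + M + 1) (hM : 2 ≤ M) (ho2 : off ≤ M)
    (Z : (α → ZMod 2) → Fin N → Bool)
    (hinj : Function.Injective fun (x : α → ZMod 2) (j : Fin M) =>
      Z x (ι (Sum.inr ⟨(off + (j : ℕ)) % (M + M), Nat.mod_lt _ (by omega)⟩)))
    {y : ℝ} (hy : 0 ≤ y) (hy1 : y ≤ 1) (hcard : Fintype.card α = M) (τ : Fin n → Option Bool)
    (J : Finset {t : Fin (M + M) // off ≤ (t : ℕ) ∧ (t : ℕ) + 1 < off + M ∧ (t : ℕ) + 1 < M + M})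
    (hJ : ∀ t ∈ J, (t.1 : ℕ) % 2 = r ∧ ∃ p q, τ (jj (Sum.inr (t.1, p, q))) ≠ none) :
    ∑ x : α → ZMod 2, ∏ v, (if cf (τ v) (mem ι jj (Z x) v) = true then y else 1) ≤
      ((3 + y) / 4) ^ J.card * 2 ^ M := by
  classical
  have hch : ∀ t : {t : Fin (M + M) // off ≤ (t : ℕ) ∧ (t : ℕ) + 1 < off + M ∧
      (t : ℕ) + 1 < M + M}, ∃ pq pt : Bool × Bool, t ∈ J → ∀ z : Fin N → Bool,
      z (ι (Sum.inr t.1)) = pt.1 → z (ι (Sum.inr (finRotate (M + M) t.1))) = pt.2 →
        cf (τ (jj (Sum.inr (t.1, pq)))) (mem ι jj z (jj (Sum.inr (t.1, pq)))) = true := by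
    intro t
    by_cases ht : t ∈ J
    · obtain ⟨-, p, q, hpq⟩ := hJ t ht
      obtain ⟨s, hs⟩ := Option.ne_none_iff_exists'.mp hpq
      rcases s with _ | _
      · refine ⟨(p, q), (p, q), fun _ z h1 h2 => ?_⟩
        rw [hs, mem_jj]
        apply cf_some
        simp only at h1 h2
        simp only [tst, h1, h2, beq_self_eq_true, Bool.and_self, Bool.not_false]
      · refine ⟨(p, q), (!p, q), fun _ z h1 h2 => ?_⟩
        rw [hs, mem_jj]
        apply cf_some
        simp only at h1 h2
        have h3 : ((!p) == p) = false := by cases p <;> rfl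
        simp only [tst, h1, h2, h3, Bool.false_and, Bool.not_true]
    · exact ⟨(true, true), (true, true), fun h => absurd h ht⟩
  choose pq pt hpt using hch
  obtain ⟨a, ha⟩ : ∃ a : {t : Fin (M + M) // off ≤ (t : ℕ) ∧ (t : ℕ) + 1 < off + M ∧
      (t : ℕ) + 1 < M + M} → Fin M, ∀ t, (a t : ℕ) = (t.1 : ℕ) - off :=
    ⟨fun t => ⟨(t.1 : ℕ) - off, by have := t.2; omega⟩, fun _ => rfl⟩
  obtain ⟨a', ha'⟩ : ∃ a : {t : Fin (M + M) // off ≤ (t : ℕ) ∧ (t : ℕ) + 1 < off + M ∧
      (t : ℕ) + 1 < M + M} → Fin M, ∀ t, (a t : ℕ) = (t.1 : ℕ) + 1 - off :=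
    ⟨fun t => ⟨(t.1 : ℕ) + 1 - off, by have := t.2; omega⟩, fun _ => rfl⟩
  have hne : ∀ t, a t ≠ a' t := by
    intro t h
    have h1 := congrArg Fin.val h
    rw [ha, ha'] at h1
    have := t.2
    omega
  have h := grp (fun (x : α → ZMod 2) v => if cf (τ v) (mem ι jj (Z x) v) = true then y else 1)
    (fun x v => by split_ifs; exacts [hy, zero_le_one])
    (fun x v => by split_ifs; exacts [hy1, le_rfl])
    (fun (x : α → ZMod 2) (j : Fin M) =>
      Z x (ι (Sum.inr ⟨(off + (j : ℕ)) % (M + M), Nat.mod_lt _ (by omega)⟩))) hinj J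
    (fun t => jj (Sum.inr (t.1, pq t)))
    (fun t _ t' _ h => by
      have h1 := Sum.inr.inj (jj.injective h)
      exact Subtype.ext (congrArg Prod.fst h1))
    (fun t g => g (a t) = (pt t).1 ∧ g (a' t) = (pt t).2) (fun t => {a t, a' t})
    (fun t ht t' ht' hne' => by
      rw [Finset.disjoint_left]
      intro j hj hj'
      simp only [Finset.mem_insert, Finset.mem_singleton] at hj hj'
      apply hne'
      apply Subtype.ext
      apply Fin.ext
      have h1 := (hJ t ht).1
      have h2 := (hJ t' ht').1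
      have h3 := t.2
      have h4 := t'.2
      have e1 := ha t
      have e2 := ha t'
      have e3 := ha' t
      have e4 := ha' t'
      rcases hj with hj | hj <;> rcases hj' with hj' | hj' <;> rw [hj] at hj' <;>
        have h5 := congrArg Fin.val hj' <;> omega)
    (fun t _ g g' h => by
      simp only [Finset.mem_insert, Finset.mem_singleton, forall_eq_or_imp, forall_eq] at h
      rw [h.1, h.2])
    hy
    (fun t _ _ => by
      refine le_trans (le_of_eq ?_) (pat_two (hne t) (pt t).1 (pt t).2 hy hy1)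
      refine Finset.sum_congr rfl fun g _ => ?_
      congr)
    (fun t ht x hx => by
      simp only at hx
      rw [if_pos]
      refine hpt t ht (Z x) ?_ ?_
      · rw [← hx.1]
        congr 3
        apply Fin.ext
        simp only
        rw [ha, Nat.mod_eq_of_lt (by have := t.2; omega)]
        have := t.2
        omega
      · rw [← hx.2]
        congr 3
        apply Fin.ext
        rw [rot_val (by omega)]
        simp only
        have := t.2
        rw [ha', Nat.mod_eq_of_lt (by omega), if_neg (by omega)]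
        omega)
  rwa [Fintype.card_fin] at h

/-- labels -/
theorem kill_lab (hM : 2 ≤ M) (Z : (α → ZMod 2) → Fin N → Bool)
    (hinj : Function.Injective fun (x : α → ZMod 2) (l : α) => Z x (ι (Sum.inl l)))
    {y : ℝ} (hy : 0 ≤ y) (hy1 : y ≤ 1) (hcard : Fintype.card α = M) (τ : Fin n → Option Bool)
    (J : Finset α) (hJ : ∀ l ∈ J, ∃ a, τ (jj (Sum.inl (l, a))) ≠ none) :
    ∑ x : α → ZMod 2, ∏ v, (if cf (τ v) (mem ι jj (Z x) v) = true then y else 1) ≤
      ((3 + y) / 4) ^ J.card * 2 ^ M := by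
  classical
  have hch : ∀ l : α, ∃ a pt : Bool, l ∈ J → ∀ z : Fin N → Bool,
      z (ι (Sum.inl l)) = pt →
        cf (τ (jj (Sum.inl (l, a)))) (mem ι jj z (jj (Sum.inl (l, a)))) = true := by
    intro l
    by_cases hl : l ∈ J
    · obtain ⟨a, hpq⟩ := hJ l hl
      obtain ⟨s, hs⟩ := Option.ne_none_iff_exists'.mp hpq
      rcases s with _ | _
      · refine ⟨a, a, fun _ z h1 => ?_⟩
        rw [hs, mem_jj]
        apply cf_some
        simp [tst, h1]
      · refine ⟨a, !a, fun _ z h1 => ?_⟩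
        rw [hs, mem_jj]
        apply cf_some
        simp [tst, h1]
    · exact ⟨true, true, fun h => absurd h hl⟩
  choose a pt hpt using hch
  have hne : ∀ l : α, ∃ l', l ≠ l' := by
    intro l
    have : 1 < Fintype.card α := by omega
    obtain ⟨l', hl'⟩ := Fintype.exists_ne_of_one_lt_card this l
    exact ⟨l', hl'.symm⟩
  have h := grp (fun (x : α → ZMod 2) v => if cf (τ v) (mem ι jj (Z x) v) = true then y else 1)
    (fun x v => by split_ifs; exacts [hy, zero_le_one])
    (fun x v => by split_ifs; exacts [hy1, le_rfl])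
    (fun (x : α → ZMod 2) (l : α) => Z x (ι (Sum.inl l))) hinj J
    (fun l => jj (Sum.inl (l, a l)))
    (fun t _ t' _ h => by
      have h1 := Sum.inl.inj (jj.injective h)
      exact congrArg Prod.fst h1)
    (fun l g => g l = pt l) (fun l => {l})
    (fun t ht t' ht' hne' => by
      rw [Finset.disjoint_singleton]
      exact hne')
    (fun t _ g g' h => by
      simp only [Finset.mem_singleton, forall_eq] at h
      rw [h])
    hy
    (fun l _ _ => by
      obtain ⟨l', hl'⟩ := hne l
      refine le_trans (Finset.sum_le_sum fun g _ => ?_) (pat_two hl' (pt l) true hy hy1)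
      split_ifs with h1 h2 h2
      · exact le_rfl
      · exact hy1
      · exact absurd h2.1 h1
      · exact le_rfl)
    (fun t ht x hx => by
      simp only at hx
      rw [if_pos]
      exact hpt t ht (Z x) hx)
  rwa [hcard] at h

end kill

section kill2

variable {α : Type*} [Fintype α] [DecidableEq α] {N M n : ℕ}
variable (e : α ≃ Fin M) (ι : α ⊕ Fin (M + M) ↪ Fin N) (jj : Vx α M ↪ Fin n)
variable (σ : Equiv.Perm α) (b c : α → ZMod 2)

/-- the positions in an interval -/
abbrev Ivl (M off : ℕ) :=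
  {t : Fin (M + M) // off ≤ (t : ℕ) ∧ (t : ℕ) + 1 < off + M ∧ (t : ℕ) + 1 < M + M}

open Classical in
/-- touched positions -/
noncomputable def Jp (τ : Fin n → Option Bool) (off r : ℕ) : Finset (Ivl M off) :=
  univ.filter fun t => (t.1 : ℕ) % 2 = r ∧ ∃ p q, τ (jj (Sum.inr (t.1, p, q))) ≠ none

open Classical in
/-- touched labels -/
noncomputable def Jl (τ : Fin n → Option Bool) : Finset α :=
  univ.filter fun l => ∃ a, τ (jj (Sum.inl (l, a))) ≠ none

theorem count_touched (hM : 2 ≤ M) (hcard : Fintype.card α = M) (hn : n ≤ 10 * M + 19)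
    (τ : Fin n → Option Bool) :
    width τ ≤ 27 + 2 * (Jl jj τ).card + 4 * ((Jp jj τ 1 0).card + (Jp jj τ 1 1).card +
      (Jp jj τ M 0).card + (Jp jj τ M 1).card) := by
  classical
  have hsub : (univ.filter fun v => τ v ≠ none) ⊆
      (univ.image jj)ᶜ ∪ ((Jl jj τ ×ˢ (univ : Finset Bool)).image (fun x => jj (Sum.inl x)) ∪
      ((({⟨0, by omega⟩, ⟨M + M - 1, by omega⟩} : Finset (Fin (M + M))) ×ˢ
        (univ : Finset (Bool × Bool))).image (fun x => jj (Sum.inr x)) ∪
      (((Jp jj τ 1 0 ×ˢ (univ : Finset (Bool × Bool))).image fun x => jj (Sum.inr (x.1.1, x.2))) ∪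
      (((Jp jj τ 1 1 ×ˢ (univ : Finset (Bool × Bool))).image fun x => jj (Sum.inr (x.1.1, x.2))) ∪
      (((Jp jj τ M 0 ×ˢ (univ : Finset (Bool × Bool))).image fun x => jj (Sum.inr (x.1.1, x.2))) ∪
      ((Jp jj τ M 1 ×ˢ (univ : Finset (Bool × Bool))).image fun x =>
        jj (Sum.inr (x.1.1, x.2)))))))) := by
    intro v hv
    rw [Finset.mem_filter] at hv
    by_cases h : ∃ w, jj w = v
    · obtain ⟨w, rfl⟩ := h
      rcases w with ⟨l, a⟩ | ⟨t, p, q⟩
      · refine Finset.mem_union_right _ (Finset.mem_union_left _ (Finset.mem_image.mpr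
          ⟨(l, a), ?_, rfl⟩))
        rw [Finset.mem_product]
        refine ⟨?_, Finset.mem_univ _⟩
        unfold Jl
        rw [Finset.mem_filter]
        exact ⟨Finset.mem_univ _, a, hv.2⟩
      · refine Finset.mem_union_right _ (Finset.mem_union_right _ ?_)
        have ht := t.2
        have key : ∀ (off r : ℕ) (h : off ≤ (t : ℕ) ∧ (t : ℕ) + 1 < off + M ∧
            (t : ℕ) + 1 < M + M), (t : ℕ) % 2 = r →
            jj (Sum.inr (t, p, q)) ∈ ((Jp jj τ off r ×ˢ (univ : Finset (Bool × Bool))).image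
              fun x => jj (Sum.inr (x.1.1, x.2))) := by
          intro off r h hr
          refine Finset.mem_image.mpr ⟨(⟨t, h⟩, (p, q)), ?_, rfl⟩
          rw [Finset.mem_product]
          refine ⟨?_, Finset.mem_univ _⟩
          unfold Jp
          rw [Finset.mem_filter]
          exact ⟨Finset.mem_univ _, hr, p, q, hv.2⟩
        by_cases h0 : (t : ℕ) = 0 ∨ (t : ℕ) = M + M - 1
        · refine Finset.mem_union_left _ (Finset.mem_image.mpr ⟨(t, p, q), ?_, rfl⟩)
          rw [Finset.mem_product]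
          refine ⟨?_, Finset.mem_univ _⟩
          simp only [Finset.mem_insert, Finset.mem_singleton]
          rcases h0 with h0 | h0
          · left; exact Fin.ext h0
          · right; exact Fin.ext h0
        · refine Finset.mem_union_right _ ?_
          have hr := Nat.mod_two_eq_zero_or_one (t : ℕ)
          rcases Nat.lt_or_ge (t : ℕ) M with hlt | hge
          · rcases hr with hr | hr
            · exact Finset.mem_union_left _ (key 1 0 (by omega) hr)
            · exact Finset.mem_union_right _ (Finset.mem_union_left _ (key 1 1 (by omega) hr))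
          · rcases hr with hr | hr
            · exact Finset.mem_union_right _ (Finset.mem_union_right _
                (Finset.mem_union_left _ (key M 0 (by omega) hr)))
            · exact Finset.mem_union_right _ (Finset.mem_union_right _
                (Finset.mem_union_right _ (key M 1 (by omega) hr)))
    · refine Finset.mem_union_left _ ?_
      rw [Finset.mem_compl, Finset.mem_image]
      rintro ⟨w, -, hw⟩
      exact h ⟨w, hw⟩
  have hB : (univ : Finset (Bool × Bool)).card = 4 := by decide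
  have h1 : ((univ.image jj)ᶜ : Finset (Fin n)).card ≤ 19 := by
    rw [Finset.card_compl, Finset.card_image_of_injective _ jj.injective, Finset.card_univ,
      Fintype.card_fin, Fintype.card_sum, Fintype.card_prod, Fintype.card_prod, hcard,
      Fintype.card_fin, Fintype.card_prod, Fintype.card_bool]
    omega
  have h2 : ((Jl jj τ ×ˢ (univ : Finset Bool)).image (fun x => jj (Sum.inl x))).card ≤
      2 * (Jl jj τ).card := by
    refine Finset.card_image_le.trans (le_of_eq ?_)
    rw [Finset.card_product, Finset.card_univ, Fintype.card_bool, mul_comm]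
  have h3 : ((({⟨0, by omega⟩, ⟨M + M - 1, by omega⟩} : Finset (Fin (M + M))) ×ˢ
        (univ : Finset (Bool × Bool))).image (fun x => jj (Sum.inr x))).card ≤ 8 := by
    refine Finset.card_image_le.trans ?_
    rw [Finset.card_product, hB]
    have : ({⟨0, by omega⟩, ⟨M + M - 1, by omega⟩} : Finset (Fin (M + M))).card ≤ 2 :=
      Finset.card_le_two
    omega
  have h4 : ∀ off r, ((Jp jj τ off r ×ˢ (univ : Finset (Bool × Bool))).image
      fun x => jj (Sum.inr (x.1.1, x.2))).card ≤ 4 * (Jp jj τ off r).card := by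
    intro off r
    refine Finset.card_image_le.trans (le_of_eq ?_)
    rw [Finset.card_product, hB, mul_comm]
  have h5 := Finset.card_le_card hsub
  have u1 := Finset.card_union_le ((univ.image jj)ᶜ : Finset (Fin n))
    ((Jl jj τ ×ˢ (univ : Finset Bool)).image (fun x => jj (Sum.inl x)) ∪
      ((({⟨0, by omega⟩, ⟨M + M - 1, by omega⟩} : Finset (Fin (M + M))) ×ˢ
        (univ : Finset (Bool × Bool))).image (fun x => jj (Sum.inr x)) ∪
      (((Jp jj τ 1 0 ×ˢ (univ : Finset (Bool × Bool))).image fun x => jj (Sum.inr (x.1.1, x.2))) ∪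
      (((Jp jj τ 1 1 ×ˢ (univ : Finset (Bool × Bool))).image fun x => jj (Sum.inr (x.1.1, x.2))) ∪
      (((Jp jj τ M 0 ×ˢ (univ : Finset (Bool × Bool))).image fun x => jj (Sum.inr (x.1.1, x.2))) ∪
      ((Jp jj τ M 1 ×ˢ (univ : Finset (Bool × Bool))).image fun x =>
        jj (Sum.inr (x.1.1, x.2))))))))
  have u2 := Finset.card_union_le
    ((Jl jj τ ×ˢ (univ : Finset Bool)).image (fun x => jj (Sum.inl x)))
      ((({⟨0, by omega⟩, ⟨M + M - 1, by omega⟩} : Finset (Fin (M + M))) ×ˢ
        (univ : Finset (Bool × Bool))).image (fun x => jj (Sum.inr x)) ∪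
      (((Jp jj τ 1 0 ×ˢ (univ : Finset (Bool × Bool))).image fun x => jj (Sum.inr (x.1.1, x.2))) ∪
      (((Jp jj τ 1 1 ×ˢ (univ : Finset (Bool × Bool))).image fun x => jj (Sum.inr (x.1.1, x.2))) ∪
      (((Jp jj τ M 0 ×ˢ (univ : Finset (Bool × Bool))).image fun x => jj (Sum.inr (x.1.1, x.2))) ∪
      ((Jp jj τ M 1 ×ˢ (univ : Finset (Bool × Bool))).image fun x =>
        jj (Sum.inr (x.1.1, x.2)))))))
  have u3 := Finset.card_union_le
      ((({⟨0, by omega⟩, ⟨M + M - 1, by omega⟩} : Finset (Fin (M + M))) ×ˢ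
        (univ : Finset (Bool × Bool))).image (fun x => jj (Sum.inr x)))
      (((Jp jj τ 1 0 ×ˢ (univ : Finset (Bool × Bool))).image fun x => jj (Sum.inr (x.1.1, x.2))) ∪
      (((Jp jj τ 1 1 ×ˢ (univ : Finset (Bool × Bool))).image fun x => jj (Sum.inr (x.1.1, x.2))) ∪
      (((Jp jj τ M 0 ×ˢ (univ : Finset (Bool × Bool))).image fun x => jj (Sum.inr (x.1.1, x.2))) ∪
      ((Jp jj τ M 1 ×ˢ (univ : Finset (Bool × Bool))).image fun x =>
        jj (Sum.inr (x.1.1, x.2))))))
  have u4 := Finset.card_union_le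
      ((Jp jj τ 1 0 ×ˢ (univ : Finset (Bool × Bool))).image fun x => jj (Sum.inr (x.1.1, x.2)))
      (((Jp jj τ 1 1 ×ˢ (univ : Finset (Bool × Bool))).image fun x => jj (Sum.inr (x.1.1, x.2))) ∪
      (((Jp jj τ M 0 ×ˢ (univ : Finset (Bool × Bool))).image fun x => jj (Sum.inr (x.1.1, x.2))) ∪
      ((Jp jj τ M 1 ×ˢ (univ : Finset (Bool × Bool))).image fun x =>
        jj (Sum.inr (x.1.1, x.2)))))
  have u5 := Finset.card_union_le
      ((Jp jj τ 1 1 ×ˢ (univ : Finset (Bool × Bool))).image fun x => jj (Sum.inr (x.1.1, x.2)))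
      (((Jp jj τ M 0 ×ˢ (univ : Finset (Bool × Bool))).image fun x => jj (Sum.inr (x.1.1, x.2))) ∪
      ((Jp jj τ M 1 ×ˢ (univ : Finset (Bool × Bool))).image fun x =>
        jj (Sum.inr (x.1.1, x.2))))
  have u6 := Finset.card_union_le
      ((Jp jj τ M 0 ×ˢ (univ : Finset (Bool × Bool))).image fun x => jj (Sum.inr (x.1.1, x.2)))
      ((Jp jj τ M 1 ×ˢ (univ : Finset (Bool × Bool))).image fun x =>
        jj (Sum.inr (x.1.1, x.2)))
  have p1 := h4 1 0
  have p2 := h4 1 1
  have p3 := h4 M 0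
  have p4 := h4 M 1
  unfold width
  omega

/-- THE DECAY -/
theorem kill (hM : 2 ≤ M) (hcard : Fintype.card α = M) (hn : n ≤ 10 * M + 19)
    (hb : ∑ i, b i = 1) (hc : ∑ i, c i = 1) {y : ℝ} (hy : 0 ≤ y) (hy1 : y ≤ 1) (K : ℕ)
    (τ : Fin n → Option Bool) (hτ : 18 * K + 27 ≤ width τ) :
    ∑ x : α → ZMod 2, ∏ v, (if cf (τ v) (mem ι jj (bobz (EE2 e) ι x (et σ b c x)) v) = true
      then y else 1) ≤ 2 ^ M * ((3 + y) / 4) ^ K := by
  classical
  have hcnt := count_touched jj hM hcard hn τ
  have hr0 : 0 ≤ (3 + y) / 4 := by positivity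
  have hr1 : (3 + y) / 4 ≤ 1 := by linarith
  have fin : ∀ J : ℕ, K ≤ J → ((3 + y) / 4) ^ J * 2 ^ M ≤ 2 ^ M * ((3 + y) / 4) ^ K := by
    intro J hJ
    rw [mul_comm]
    exact mul_le_mul_of_nonneg_left (pow_le_pow_of_le_one hr0 hr1 hJ) (by positivity)
  have hcase : K ≤ (Jl jj τ).card ∨ K ≤ (Jp jj τ 1 0).card ∨ K ≤ (Jp jj τ 1 1).card ∨
      K ≤ (Jp jj τ M 0).card ∨ K ≤ (Jp jj τ M 1).card := by omega
  have g2 : Function.Injective fun (x : α → ZMod 2) (j : Fin M) =>
      bobz (EE2 e) ι x (et σ b c x)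
        (ι (Sum.inr ⟨(1 + (j : ℕ)) % (M + M), Nat.mod_lt _ (by omega)⟩)) := by
    have h := group2 e ι σ b c hM hb hc
    intro x x' hx
    refine h (funext fun j => ?_)
    have h1 := congrFun hx j
    simp only at h1 ⊢
    have h2 : (⟨(1 + (j : ℕ)) % (M + M), Nat.mod_lt _ (by omega)⟩ : Fin (M + M)) =
        ⟨(j : ℕ) + 1, by omega⟩ := by
      apply Fin.ext
      simp only
      rw [Nat.mod_eq_of_lt (by omega), add_comm]
    rw [h2] at h1
    exact h1
  have g3 : Function.Injective fun (x : α → ZMod 2) (j : Fin M) =>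
      bobz (EE2 e) ι x (et σ b c x)
        (ι (Sum.inr ⟨(M + (j : ℕ)) % (M + M), Nat.mod_lt _ (by omega)⟩)) := by
    have h := group3 e ι σ b c hM hb hc
    intro x x' hx
    refine h (funext fun j => ?_)
    have h1 := congrFun hx j
    simp only at h1 ⊢
    have h2 : (⟨(M + (j : ℕ)) % (M + M), Nat.mod_lt _ (by omega)⟩ : Fin (M + M)) =
        ⟨M + (j : ℕ), by omega⟩ := by
      apply Fin.ext
      simp only
      rw [Nat.mod_eq_of_lt (by omega)]
    rw [h2] at h1
    exact h1
  rcases hcase with h | h | h | h | h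
  · refine (kill_lab ι jj hM (fun x => bobz (EE2 e) ι x (et σ b c x)) (group1 e ι σ b c) hy hy1
      hcard τ (Jl jj τ) (fun l hl => ?_)).trans (fin _ h)
    unfold Jl at hl
    rw [Finset.mem_filter] at hl
    exact hl.2
  · refine (kill_pos ι jj 1 0 (by omega) hM (by omega) (fun x => bobz (EE2 e) ι x (et σ b c x)) g2
      hy hy1 hcard τ (Jp jj τ 1 0) (fun l hl => ?_)).trans (fin _ h)
    unfold Jp at hl
    rw [Finset.mem_filter] at hl
    exact hl.2
  · refine (kill_pos ι jj 1 1 (by omega) hM (by omega) (fun x => bobz (EE2 e) ι x (et σ b c x)) g2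
      hy hy1 hcard τ (Jp jj τ 1 1) (fun l hl => ?_)).trans (fin _ h)
    unfold Jp at hl
    rw [Finset.mem_filter] at hl
    exact hl.2
  · refine (kill_pos ι jj M 0 (by omega) hM (by omega) (fun x => bobz (EE2 e) ι x (et σ b c x)) g3
      hy hy1 hcard τ (Jp jj τ M 0) (fun l hl => ?_)).trans (fin _ h)
    unfold Jp at hl
    rw [Finset.mem_filter] at hl
    exact hl.2
  · refine (kill_pos ι jj M 1 (by omega) hM (by omega) (fun x => bobz (EE2 e) ι x (et σ b c x)) g3
      hy hy1 hcard τ (Jp jj τ M 1) (fun l hl => ?_)).trans (fin _ h)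
    unfold Jp at hl
    rw [Finset.mem_filter] at hl
    exact hl.2

end kill2

end Pool.Agent.H58.IS
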