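import Pool.Agent.H58.IS.Low
import Pool.Agent.H58.LPE.Mean

/-! The exponential lower bound, on average over a set of graphs, in terms of the assignments. -/

set_option autoImplicit false
set_option linter.unusedSectionVars false

namespace Pool.Agent.H58.IS

open Finset Pool.Agent.H58.LPE

theorem third_exp {u : ℝ} (hu : 0 ≤ u) (hu1 : u ≤ 1) :
    (3 + Real.exp (-u)) / 4 ≤ Real.exp (-(u / 8)) := by
  have h1 : Real.exp (-u) ≤ 1 - u / 2 := by
    have h2 : 1 + u ≤ Real.exp u := by
      have := Real.add_one_le_exp u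
      linarith
    rw [Real.exp_neg, inv_le_comm₀ (Real.exp_pos _) (by linarith)]
    refine le_trans ?_ h2
    rw [inv_le_comm₀ (by linarith) (by linarith), ← one_div, div_le_iff₀ (by linarith)]
    nlinarith
  have h3 := Real.add_one_le_exp (-(u / 8))
  linarith

open Classical in
/-- THE LOWER BOUND on average -/
theorem mean_graph {ε : ℝ} (hε : 0 < ε) (hε1 : ε ≤ 1) : ∃ c : ℝ, 0 < c ∧ ∃ N₀ : ℕ,
    ∀ (N R T d k sx n M : ℕ), N₀ ≤ N → (d : ℝ) ≤ c * N → 1 ≤ k → (k : ℝ) * sx ≤ c * N →
      n = (N - 30) / 20 → M = 3 + 2 * n → ∀ (e : Al n ≃ Fin M)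
      (ι : Al n ⊕ Fin (M + M) ↪ Fin (9 + 6 * n)) (jj : Vx (Al n) M ↪ Fin N)
    (a : (Fin N → Option Bool) → Fin R → (Fin (9 + 6 * n) → Bool) → ℝ)
    (_ha : ∀ τ z, Ext τ (mem ι jj z) → ∀ i, 0 ≤ a τ i z),
    Real.exp (c * N / k) * ((univ.filter fun p : Equiv.Perm (Al n) × (Al n → ZMod 2) =>
      ∑ i, p.2 i = 1 ∧ Rfz e ι jj a ε d k sx T p.1 p.2).card : ℝ) ≤ 2 * (T * (R + 1) *
      ((univ.filter fun p : Equiv.Perm (Al n) × (Al n → ZMod 2) => ∑ i, p.2 i = 1).card : ℝ)) := by
  obtain ⟨s, hs⟩ : ∃ s : ℝ, s = ε ^ 3 / (60 * 55987200000) := ⟨_, rfl⟩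
  have hs0 : 0 < s := by rw [hs]; positivity
  obtain ⟨ω₁, hω₁, hnar⟩ := narrow_small (s := s / 8) (by positivity)
  obtain ⟨ω₂, hω₂, hfew⟩ := few_small (s := ε / 10000) (by positivity)
  obtain ⟨ω, hω⟩ : ∃ ω : ℝ, ω = min (min ω₁ (ω₂ / 2)) (min (s / 8) (ε / 5000)) := ⟨_, rfl⟩
  have hω0 : 0 < ω := by rw [hω]; positivity
  have ho1 : ω ≤ ω₁ := by rw [hω]; exact (min_le_left _ _).trans (min_le_left _ _)
  have ho2 : ω ≤ ω₂ / 2 := by rw [hω]; exact (min_le_left _ _).trans (min_le_right _ _)
  have ho3 : ω ≤ s / 8 := by rw [hω]; exact (min_le_right _ _).trans (min_le_left _ _)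
  have ho4 : ω ≤ ε / 5000 := by rw [hω]; exact (min_le_right _ _).trans (min_le_right _ _)
  obtain ⟨c2, hc2⟩ : ∃ c2 : ℝ, c2 = 3 * ε ^ 3 / 373248000000 := ⟨_, rfl⟩
  have hc20 : 0 < c2 := by rw [hc2]; positivity
  obtain ⟨A, hA⟩ : ∃ A : ℝ, A = 5000 / ε + 25 / ω + 16 / (s * c2) + 19 :=
    ⟨_, rfl⟩
  have hA1 : 0 < 5000 / ε := by positivity
  have hA2 : 0 < 25 / ω := by positivity
  have hA4 : 0 < 16 / (s * c2) := by positivity
  obtain ⟨c, hc⟩ : ∃ c : ℝ, c = min (min (min (ω ^ 2 / 50000000) (ω / 50000)) (s / 4)) (ε / 60000) := ⟨_, rfl⟩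
  have hcA : c ≤ ω ^ 2 / 50000000 := by
    rw [hc]; exact (min_le_left _ _).trans ((min_le_left _ _).trans (min_le_left _ _))
  have hcD : c ≤ ω / 50000 := by
    rw [hc]; exact (min_le_left _ _).trans ((min_le_left _ _).trans (min_le_right _ _))
  have hcB : c ≤ s / 4 := by rw [hc]; exact (min_le_left _ _).trans (min_le_right _ _)
  have hcC : c ≤ ε / 60000 := by rw [hc]; exact min_le_right _ _
  refine ⟨c, by rw [hc]; positivity, ⌈11 * A + 60⌉₊, ?_⟩
  intro N R T d k sx n M hN hdN hk1 hkm hn hM e ι jj a ha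
  have hω1 : ω ≤ 1 := by linarith
  have hc0 : 0 < c := by rw [hc]; positivity
  have hk0 : (1:ℝ) ≤ k := by exact_mod_cast hk1
  have hkp : (0:ℝ) < k := by linarith
  have hNA : 11 * A + 60 ≤ N := (Nat.le_ceil _).trans (by exact_mod_cast hN)
  have hA0 : 0 < A := by rw [hA]; positivity
  have hN60 : 60 ≤ N := by
    have : (60:ℝ) ≤ N := by linarith
    exact_mod_cast this
  have hn1 : 0 < n := by omega
  have hMN : (M:ℝ) * 10 ≤ N := by
    have : M * 10 ≤ N := by omega
    exact_mod_cast this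
  have hNM' : N ≤ 10 * M + 19 := by omega
  have hNM : (N:ℝ) ≤ 10 * M + 19 := by exact_mod_cast hNM'
  have hMA : A ≤ M := by linarith
  have hM5 : (5:ℝ) ≤ M := by
    have : 5 ≤ M := by omega
    exact_mod_cast this
  have hA19 : (19:ℝ) ≤ M := by linarith
  have hN11M : (N:ℝ) ≤ 11 * M := by linarith
  have hM0 : (0:ℝ) < M := by linarith
  have hN0 : (0:ℝ) < N := by linarith
  have hR0 : (0:ℝ) ≤ R := Nat.cast_nonneg R
  have hcard : Fintype.card (Al n) = M := by
    simp only [Fintype.card_sum, Fintype.card_fin, Fintype.card_prod, Fintype.card_bool]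
    omega
  -- thresholds
  have hεM : 5000 ≤ ε * M := by
    have : 5000 / ε ≤ M := by linarith
    rw [div_le_iff₀ hε] at this
    linarith
  have hωM : 25 ≤ ω * M := by
    have : 25 / ω ≤ M := by linarith
    rw [div_le_iff₀ hω0] at this
    linarith
  have hsN : 16 / (s * c2) ≤ N := by linarith
  -- parameters
  obtain ⟨θ, hθ⟩ : ∃ θ, θ = ⌊ε * M / 180⌋₊ := ⟨_, rfl⟩
  obtain ⟨W, hW⟩ : ∃ W, W = ⌊ω * M⌋₊ := ⟨_, rfl⟩
  obtain ⟨f, hf⟩ : ∃ f, f = W / 8 := ⟨_, rfl⟩
  obtain ⟨K, hK⟩ : ∃ K, K = W / (1000 * k) := ⟨_, rfl⟩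
  have hθu : (θ:ℝ) ≤ ε * M / 180 := by rw [hθ]; exact Nat.floor_le (by positivity)
  have hθl : ε * M / 180 < θ + 1 := by rw [hθ]; exact Nat.lt_floor_add_one _
  have hWu : (W:ℝ) ≤ ω * M := by rw [hW]; exact Nat.floor_le (by positivity)
  have hWl : ω * M < W + 1 := by rw [hW]; exact Nat.lt_floor_add_one _
  have hθ1 : 1 ≤ θ := by
    have : (1:ℝ) ≤ θ := by linarith
    exact_mod_cast this
  have hθM : 2 * θ ≤ M := by
    have : (2:ℝ) * θ ≤ M := by
      have h1 : ε * M ≤ 1 * M := mul_le_mul_of_nonneg_right hε1 hM0.le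
      linarith
    exact_mod_cast this
  have hW24 : 24 ≤ W := by
    have : (24:ℝ) ≤ W := by linarith
    exact_mod_cast this
  have hWθ : 12 * W ≤ θ := by
    have h1 : ω * M ≤ ε / 5000 * M := mul_le_mul_of_nonneg_right ho4 hM0.le
    have : (12:ℝ) * W ≤ θ := by linarith
    exact_mod_cast this
  have hh : 2 * (θ / 3) + 4 * W ≤ θ := by omega
  have hdW : d ≤ W := by
    rw [hW]
    apply Nat.le_floor
    have h3 : c * N ≤ ω / 11 * N := mul_le_mul_of_nonneg_right (by linarith) hN0.le
    have h4 : ω / 11 * N ≤ ω / 11 * (11 * M) := mul_le_mul_of_nonneg_left hN11M (by positivity)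
    linarith
  have hKf : 2000 * k ≤ W → 2 * f + 6 + k * (3 * (36 * K + 52 + sx) + 3) ≤ W := by
    intro hkW
    have h1 : k * K * 1000 ≤ W := by
      have := Nat.div_mul_le_self W (1000 * k)
      rw [← hK] at this
      linarith
    have h2 : 16 * (k * sx) ≤ W := by
      have h3 : (k:ℝ) * sx ≤ ω / 50000 * (11 * M) := by
        refine hkm.trans ?_
        have := mul_le_mul hcD hN11M hN0.le (by positivity : (0:ℝ) ≤ ω / 50000)
        exact this
      have h4 : (16:ℝ) * (k * sx) ≤ W := by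
        have h24 : (24:ℝ) ≤ W := by exact_mod_cast hW24
        linarith
      exact_mod_cast h4
    have h3 : k * (3 * (36 * K + 52 + sx) + 3) = 108 * (k * K) + 159 * k + 3 * (k * sx) := by ring
    omega
  have hKW : 2000 * k ≤ W → 18 * K + 26 ≤ W := by
    intro hkW
    have h1 : k * K * 1000 ≤ W := by
      have := Nat.div_mul_le_self W (1000 * k)
      rw [← hK] at this
      linarith
    have h2 : K ≤ k * K := Nat.le_mul_of_pos_left K hk1
    omega
  -- expansion
  have hgood : 2 * ((few (Fin (M + M)) (4 * W) : ℝ) * 2 * few (Al n) (4 * W)) * Real.exp (ε / 5000 * M) ≤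
      2 ^ (θ / 3) := by
    have hW2 : ((4 * W : ℕ):ℝ) ≤ ω₂ * (2 * M) := by
      have h1 : ω * M ≤ ω₂ / 2 * M := mul_le_mul_of_nonneg_right ho2 hM0.le
      push_cast
      linarith
    have f1 := hfew (Fin (M + M)) (4 * W) (2 * M) (by
      rw [Fintype.card_fin]
      push_cast
      linarith) hW2
    have f2 := hfew (Al n) (4 * W) (2 * M) (by
      rw [hcard]
      linarith) hW2
    have h1 : (2:ℝ) * (few (Fin (M + M)) (4 * W) * 2 * few (Al n) (4 * W)) * Real.exp (ε / 5000 * M) ≤
        2 * (Real.exp (ε / 10000 * (2 * M)) * 2 * Real.exp (ε / 10000 * (2 * M))) *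
          Real.exp (ε / 5000 * M) := by
      gcongr
    have h2 : (2:ℝ) * (Real.exp (ε / 10000 * (2 * M)) * 2 * Real.exp (ε / 10000 * (2 * M))) *
          Real.exp (ε / 5000 * M) =
        Real.exp (2 * Real.log 2 + 3 * (ε / 5000 * M)) := by
      have e0 : 2 * Real.log 2 = Real.log 2 + Real.log 2 := by ring
      have e1 : 3 * (ε / 5000 * M) = ε / 10000 * (2 * M) + ε / 10000 * (2 * M) + ε / 5000 * M := by
        ring
      rw [Real.exp_add, e0, Real.exp_add, Real.exp_log (by norm_num), e1, Real.exp_add,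
        Real.exp_add]
      ring
    have h3 : (2:ℝ) ^ (θ / 3) = Real.exp ((θ / 3 : ℕ) * Real.log 2) := by
      rw [Real.exp_nat_mul, Real.exp_log (by norm_num)]
    rw [h3]
    refine h1.trans (h2.le.trans (Real.exp_le_exp.mpr ?_))
    have h4 : (θ:ℝ) ≤ 3 * (θ / 3 : ℕ) + 2 := by
      have : θ ≤ 3 * (θ / 3) + 2 := by omega
      exact_mod_cast this
    have h5 : ε * M / 540 - 1 ≤ (θ / 3 : ℕ) := by linarith
    have h6 := mul_le_mul_of_nonneg_right h5 (Real.log_pos (by norm_num : (1:ℝ) < 2)).le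
    have l1 := Real.log_two_gt_d9
    have l2 := Real.log_two_lt_d9
    have h7 : ε * M / 540 * 0.69 ≤ ε * M / 540 * Real.log 2 :=
      mul_le_mul_of_nonneg_left (by linarith) (by positivity)
    rw [sub_mul, one_mul] at h6
    linarith
  -- the sets
  obtain ⟨PB, hPB⟩ : ∃ PB, PB = univ.filter fun p : Equiv.Perm (Al n) × (Al n → ZMod 2) =>
    ∑ i, p.2 i = 1 := ⟨_, rfl⟩
  obtain ⟨PR, hPR⟩ : ∃ PR, PR = univ.filter fun p : Equiv.Perm (Al n) × (Al n → ZMod 2) =>
    ∑ i, p.2 i = 1 ∧ Rfz e ι jj a ε d k sx T p.1 p.2 := ⟨_, rfl⟩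
  rw [← hPB, ← hPR]
  obtain ⟨Bd, hBd⟩ : ∃ Bd, Bd = univ.filter fun σ : Equiv.Perm (Al n) =>
    ¬ Expand (en1 (EE2 e) σ) (en2 (EE2 e)) θ (4 * W) M := ⟨_, rfl⟩
  obtain ⟨Od, hOd⟩ : ∃ Od, Od = univ.filter fun b : Al n → ZMod 2 => ∑ i, b i = 1 := ⟨_, rfl⟩
  obtain ⟨G, hG⟩ : ∃ G, G = PR.filter fun p =>
    Expand (en1 (EE2 e) p.1) (en2 (EE2 e)) θ (4 * W) M := ⟨_, rfl⟩
  have hodd : 2 * Od.card = 2 ^ M := by
    rw [hOd, ← hcard]
    exact odd_card (Sum.inl 0)
  have hPBc : PB.card = M.factorial * Od.card := by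
    have : PB = (univ : Finset (Equiv.Perm (Al n))) ×ˢ Od := by
      rw [hPB, hOd]
      ext p
      simp
    rw [this, Finset.card_product, Finset.card_univ, Fintype.card_perm, hcard]
  have hPRG : PR.card ≤ G.card + Bd.card * Od.card := by
    rw [← Finset.card_product, hG, ← Finset.card_filter_add_card_filter_not (s := PR)
      (fun p => Expand (en1 (EE2 e) p.1) (en2 (EE2 e)) θ (4 * W) M)]
    refine Nat.add_le_add_left (Finset.card_le_card fun p hp => ?_) _
    rw [Finset.mem_filter] at hp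
    rw [Finset.mem_product, hBd, hOd]
    have h1 := hp.1
    rw [hPR, Finset.mem_filter] at h1
    simp only [Finset.mem_filter, Finset.mem_univ, true_and]
    exact ⟨hp.2, h1.2.1⟩
  have hPRB : PR.card ≤ PB.card := by
    refine Finset.card_le_card fun p hp => ?_
    rw [hPR, Finset.mem_filter] at hp
    rw [hPB, Finset.mem_filter]
    exact ⟨hp.1, hp.2.1⟩
  have hPRBR : (PR.card : ℝ) ≤ PB.card := by exact_mod_cast hPRB
  have hT1 : 0 < PR.card → (1:ℝ) ≤ T := by
    intro h
    obtain ⟨p, hp⟩ := Finset.card_pos.mp h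
    rw [hPR, Finset.mem_filter] at hp
    obtain ⟨-, -, -, -, -, -, ⟨i, hi, -⟩, -⟩ := hp.2.2
    have : 1 ≤ T := by omega
    exact_mod_cast this
  rcases Nat.eq_zero_or_pos PR.card with hPR0 | hPR0
  · rw [hPR0]
    simp only [Nat.cast_zero, mul_zero]
    positivity
  have hTT := hT1 hPR0
  have hPRpos : (0:ℝ) < PR.card := by exact_mod_cast hPR0
  -- reduction to one of three bounds
  have hTR : (1:ℝ) ≤ T * (R + 1) := by
    have : (1:ℝ) * 1 ≤ T * (R + 1) := mul_le_mul hTT (by linarith) (by norm_num) (by linarith)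
    linarith
  have hcN : ∀ x : ℝ, c ≤ x → c * N ≤ x * N := fun x hx =>
    mul_le_mul_of_nonneg_right hx hN0.le
  have hcNk : c * N / k ≤ c * N := by
    rw [div_le_iff₀ hkp]
    have : 0 ≤ c * N := by positivity
    calc c * N = c * N * 1 := by ring
      _ ≤ c * N * k := mul_le_mul_of_nonneg_left hk0 this
  have hPBTR : (PB.card : ℝ) ≤ T * (R + 1) * PB.card :=
    le_mul_of_one_le_left (Nat.cast_nonneg _) hTR
  rcases Nat.lt_or_ge W (2000 * k) with hkW | hkW
  · -- much advice
    have h1 : c * N / k ≤ 1 / 2 := by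
      rw [div_le_iff₀ hkp]
      have h2 : (W:ℝ) ≤ 2000 * k := by exact_mod_cast hkW.le
      have h3 : c * N ≤ ω / 50000 * (11 * M) := mul_le_mul (hcD) hN11M hN0.le (by positivity)
      have h24 : (24:ℝ) ≤ W := by exact_mod_cast hW24
      linarith
    have h2 : Real.exp (c * N / k) ≤ 2 := by
      have h3 := half_exp (u := 1 / 2) (by norm_num) (by norm_num)
      have h4 : Real.exp (c * N / k) ≤ Real.exp (1 / 2) := Real.exp_le_exp.mpr h1
      have h5 : Real.exp (1 / 2) ≤ 2 := by
        have h6 : (1:ℝ) / 2 ≤ Real.exp (-(1 / 2)) := by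
          have := Real.add_one_le_exp (-(1 / 2 : ℝ))
          linarith
        rw [Real.exp_neg, le_inv_comm₀ (by norm_num) (Real.exp_pos _)] at h6
        linarith
      linarith
    calc Real.exp (c * N / k) * PR.card ≤ 2 * PB.card :=
          mul_le_mul h2 hPRBR hPRpos.le (by norm_num)
      _ ≤ 2 * (T * (R + 1) * PB.card) := by linarith
  rcases Nat.lt_or_ge (2 * (Bd.card * Od.card)) PR.card with hcase | hcase
  · have hG2 : PR.card ≤ 2 * G.card := by omega
    have hGpos : 0 < G.card := by omega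
    have hGposR : (0:ℝ) < G.card := by exact_mod_cast hGpos
    by_cases hlt : 2 * (T : ℝ) * ((3 + Real.exp (-(f / N))) / 4) ^ K < 1
    · obtain ⟨t, ht⟩ : ∃ t : ℝ, t = ε ^ 3 * n / 55987200000 := ⟨_, rfl⟩
      obtain ⟨q, hq⟩ : ∃ q : ℝ, q = 11664 / ((ε / 200) ^ 2 * n) := ⟨_, rfl⟩
      have hmain := lower hε hε1 n hn1 rfl a hM hNM' (by omega) hθ1 hθM
        (hKf hkW) (hKW hkW) (by omega : W + 2 * d + 6 ≤ 4 * W) hlt e ι jj ha G
        (Finset.card_pos.mp hGpos) (fun p hp => by
          rw [hG, Finset.mem_filter, hPR, Finset.mem_filter] at hp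
          exact ⟨hp.1.2.1, hp.2, hp.1.2.2⟩) (δ := ε / 200) (by positivity) (by linarith) t
        (by rw [ht]; positivity) q hq
      have hkA := hnar N (W + 1) (by
        push_cast
        have h1 : ω * M ≤ ω₁ * M := mul_le_mul_of_nonneg_right ho1 hM0.le
        have h2 : ω₁ * (M * 10) ≤ ω₁ * N := mul_le_mul_of_nonneg_left hMN hω₁.le
        linarith)
      have hkB := hnar (9 + 6 * n) (W + 1) (by
        have h0 : ((9 + 6 * n : ℕ) : ℝ) = 3 * M := by rw [hM]; push_cast; ring
        rw [h0]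
        push_cast
        have h1 : ω * M ≤ ω₁ * M := mul_le_mul_of_nonneg_right ho1 hM0.le
        linarith)
      have hkB' : ((univ.filter fun ρ : Fin (9 + 6 * n) → Option Bool => width ρ < W + 1).card : ℝ)
          ≤ Real.exp (s / 8 * N) := by
        refine hkB.trans (Real.exp_le_exp.mpr ?_)
        have h0 : ((9 + 6 * n : ℕ) : ℝ) = 3 * M := by rw [hM]; push_cast; ring
        rw [h0]
        exact mul_le_mul_of_nonneg_left (by linarith) (by positivity)
      have hE : (2:ℝ) ^ W ≤ Real.exp (s / 8 * N) := by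
        have h1 : (2:ℝ) ≤ Real.exp 1 := by
          have := Real.add_one_le_exp (1:ℝ)
          linarith
        refine (pow_le_pow_left₀ (by norm_num) h1 W).trans ?_
        rw [← Real.exp_nat_mul]
        apply Real.exp_le_exp.mpr
        have h2 : ω * M ≤ s / 8 * M := mul_le_mul_of_nonneg_right ho3 hM0.le
        have h3 : s / 8 * M ≤ s / 8 * N := mul_le_mul_of_nonneg_left (by linarith) (by positivity)
        linarith
      have hst : s * N ≤ t := by
        have h1 : (N:ℝ) ≤ 60 * n := by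
          have : N ≤ 60 * n := by omega
          exact_mod_cast this
        rw [hs, ht]
        have h3 := mul_le_mul_of_nonneg_left h1 (show 0 ≤ ε ^ 3 by positivity)
        rw [div_mul_eq_mul_div, div_le_div_iff₀ (by norm_num) (by norm_num)]
        linarith
      have hres := num_avg (k := Real.exp (s / 8 * N)) (R := (R:ℝ)) (E := (2:ℝ) ^ W)
        (θ := (θ:ℝ)) (M := (M:ℝ))
        (g := (M.factorial * 2 ^ M / G.card : ℝ)) hε hN0.le
        (by exact_mod_cast hn1 : (1:ℝ) ≤ n) hR0 hs0 (by rw [hM]; push_cast; ring)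
        (Real.exp_pos _).le le_rfl (by positivity) hE ht hst hq hθu (by positivity) (by
          refine hmain.trans ?_
          have hq0 : 0 ≤ q := by rw [hq]; positivity
          have h1 : ((univ.filter fun τ : Fin N → Option Bool => width τ < W + 1).card : ℝ) *
              ((univ.filter fun ρ : Fin (9 + 6 * n) → Option Bool => width ρ < W + 1).card : ℝ) *
              (R + 1) ≤ Real.exp (s / 8 * N) ^ 2 * (R + 1) := by
            rw [sq]
            gcongr
          gcongr)
      rw [← hc2] at hres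
      have hg4 : (M.factorial * 2 ^ M / G.card : ℝ) ≤ 4 * PB.card / PR.card := by
        rw [div_le_div_iff₀ hGposR hPRpos]
        have h1 : (M.factorial * 2 ^ M : ℝ) = 2 * PB.card := by
          rw [hPBc]
          have : ((2 * Od.card : ℕ) : ℝ) = ((2 ^ M : ℕ) : ℝ) := by rw [hodd]
          push_cast at this ⊢
          rw [← this]
          ring
        rw [h1]
        have h2 : (PR.card : ℝ) ≤ 2 * G.card := by exact_mod_cast hG2
        have h3 : 0 ≤ (PB.card : ℝ) := Nat.cast_nonneg _
        have h4 := mul_le_mul_of_nonneg_left h2 h3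
        linarith
      have h1 : Real.exp (s / 4 * N) ≤ c2 / 4 * Real.exp (s / 2 * N) := by
        have e1 : Real.exp (s / 2 * N) = Real.exp (s / 4 * N) * Real.exp (s / 4 * N) := by
          rw [← Real.exp_add]; congr 1; ring
        have h2 : 1 ≤ c2 / 4 * Real.exp (s / 4 * N) := by
          have h3 := Real.add_one_le_exp (s / 4 * N)
          have h4 : 4 / c2 ≤ s / 4 * N := by
            rw [div_le_iff₀ (by positivity)] at hsN
            rw [div_le_iff₀ hc20]
            linarith
          have h5 : 4 / c2 ≤ Real.exp (s / 4 * N) := by linarith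
          rw [div_le_iff₀ hc20] at h5
          linarith
        rw [e1]
        have := mul_le_mul_of_nonneg_right h2 (Real.exp_pos (s / 4 * N)).le
        linarith
      have h2 : c2 * Real.exp (s / 2 * N) ≤ 4 * PB.card / PR.card * (R + 1) :=
        hres.trans (mul_le_mul_of_nonneg_right hg4 (by linarith))
      have h3 : Real.exp (s / 4 * N) * PR.card ≤ (R + 1) * PB.card := by
        have h4 : Real.exp (s / 4 * N) ≤ PB.card / PR.card * (R + 1) := by
          have e1 : 4 * (PB.card : ℝ) / PR.card * (R + 1) = 4 * (PB.card / PR.card * (R + 1)) := by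
            ring
          rw [e1] at h2
          linarith
        have h5 := mul_le_mul_of_nonneg_right h4 hPRpos.le
        have e1 : (PB.card : ℝ) / PR.card * (R + 1) * PR.card = (R + 1) * PB.card := by
          field_simp
        rwa [e1] at h5
      have h4 : Real.exp (c * N / k) ≤ Real.exp (s / 4 * N) :=
        Real.exp_le_exp.mpr (hcNk.trans (hcN _ hcB))
      calc Real.exp (c * N / k) * PR.card ≤ Real.exp (s / 4 * N) * PR.card := by gcongr
        _ ≤ (R + 1) * PB.card := h3
        _ ≤ T * ((R + 1) * PB.card) := le_mul_of_one_le_left (by positivity) hTT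
        _ = T * (R + 1) * PB.card := by ring
        _ ≤ 2 * (T * (R + 1) * PB.card) := by
          have : 0 ≤ T * (R + 1) * (PB.card : ℝ) := by positivity
          linarith
    · push Not at hlt
      have hf0 : ω * M / 16 ≤ f := by
        have h1 : (W:ℝ) ≤ 8 * f + 7 := by
          have : W ≤ 8 * f + 7 := by omega
          exact_mod_cast this
        linarith
      have hKl : ω * M / (3000 * k) ≤ K := by
        have h1 : 2 ≤ K := by
          rw [hK, Nat.le_div_iff_mul_le (by positivity)]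
          linarith
        have h2 : W < (K + 1) * (1000 * k) := by
          have h5 := Nat.lt_div_mul_add (a := W) (b := 1000 * k) (by positivity)
          rw [← hK] at h5
          linarith
        have h3 : (W:ℝ) ≤ 1500 * (k * K) := by
          have h4 : W ≤ 1500 * (k * K) := by nlinarith
          exact_mod_cast h4
        rw [div_le_iff₀ (by positivity)]
        have h24 : (24:ℝ) ≤ W := by exact_mod_cast hW24
        linarith
      have hKN : (f:ℝ) / N ≤ 1 := by
        rw [div_le_one hN0]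
        have : f ≤ N := by omega
        exact_mod_cast this
      have h1 := third_exp (u := (f:ℝ) / N) (by positivity) hKN
      have h2 : ((3 + Real.exp (-(f / N : ℝ))) / 4) ^ K ≤
          Real.exp (-(ω ^ 2 / 4224000 * M / k)) := by
        refine (pow_le_pow_left₀ (by positivity) h1 K).trans ?_
        rw [← Real.exp_nat_mul]
        apply Real.exp_le_exp.mpr
        have h4 : ω ^ 2 / 4224000 * M / k ≤ K * (f / N / 8) := by
          have e1 : (K:ℝ) * (f / N / 8) = K * f / (8 * N) := by field_simp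
          rw [e1, le_div_iff₀ (by positivity)]
          have h5 : ω ^ 2 / 4224000 * M / k * (8 * N) ≤ ω ^ 2 / 4224000 * M / k * (8 * (11 * M)) := by
            gcongr
          have e2 : ω ^ 2 / 4224000 * M / k * (8 * (11 * M)) = ω * M / (3000 * k) * (ω * M / 16) := by
            field_simp
            ring
          have h6 : ω * M / (3000 * k) * (ω * M / 16) ≤ K * f := by gcongr
          linarith
        linarith
      have h3 : (1:ℝ) ≤ 2 * T * Real.exp (-(ω ^ 2 / 4224000 * M / k)) :=
        hlt.trans (mul_le_mul_of_nonneg_left h2 (by positivity))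
      have h5 : Real.exp (c * N / k) ≤ 2 * T := by
        have h4 : Real.exp (ω ^ 2 / 4224000 * M / k) ≤ 2 * T := by
          have e1 : Real.exp (-(ω ^ 2 / 4224000 * M / k)) * Real.exp (ω ^ 2 / 4224000 * M / k) = 1 := by
            rw [← Real.exp_add]
            simp
          have h6 := mul_le_mul_of_nonneg_right h3 (Real.exp_pos (ω ^ 2 / 4224000 * M / k)).le
          rw [mul_assoc, e1, mul_one, one_mul] at h6
          exact h6
        refine le_trans (Real.exp_le_exp.mpr (div_le_div_of_nonneg_right ?_ hkp.le)) h4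
        calc c * N ≤ ω ^ 2 / 50000000 * (11 * M) := mul_le_mul hcA hN11M hN0.le (by positivity)
          _ ≤ ω ^ 2 / 4224000 * M := by
            have : 0 ≤ ω ^ 2 * M := by positivity
            linarith
      calc Real.exp (c * N / k) * PR.card ≤ 2 * T * PB.card :=
            mul_le_mul h5 hPRBR hPRpos.le (by linarith)
        _ ≤ 2 * T * ((R + 1) * PB.card) := by
          refine mul_le_mul_of_nonneg_left ?_ (by linarith)
          exact le_mul_of_one_le_left (Nat.cast_nonneg _) (by linarith)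
        _ = 2 * (T * (R + 1) * PB.card) := by ring
  · -- few of the refuted formulas expand
    have hbad := bad_count (by omega) (EE2 e) hcard hh (by omega : θ ≤ M)
    rw [← hBd] at hbad
    have hbadR : (Bd.card : ℝ) * 2 ^ (θ / 3) ≤
        few (Fin (M + M)) (4 * W) * 2 * (few (Al n) (4 * W) * M.factorial) := by
      exact_mod_cast hbad
    have h1 : 2 * (Bd.card : ℝ) * Real.exp (ε / 5000 * M) ≤ M.factorial := by
      have h2 : (2:ℝ) ^ (θ / 3) * (2 * (Bd.card : ℝ) * Real.exp (ε / 5000 * M)) ≤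
          2 ^ (θ / 3) * M.factorial := by
        calc (2:ℝ) ^ (θ / 3) * (2 * (Bd.card : ℝ) * Real.exp (ε / 5000 * M))
            = 2 * (Bd.card * 2 ^ (θ / 3)) * Real.exp (ε / 5000 * M) := by ring
          _ ≤ 2 * (few (Fin (M + M)) (4 * W) * 2 * (few (Al n) (4 * W) * M.factorial)) *
              Real.exp (ε / 5000 * M) := by gcongr
          _ = 2 * ((few (Fin (M + M)) (4 * W) : ℝ) * 2 * few (Al n) (4 * W)) * Real.exp (ε / 5000 * M) *
              M.factorial := by ring
          _ ≤ 2 ^ (θ / 3) * M.factorial := by gcongr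
      exact le_of_mul_le_mul_left h2 (by positivity)
    have h2 : (PR.card : ℝ) ≤ 2 * (Bd.card * Od.card) := by exact_mod_cast hcase
    have h3 : (PR.card : ℝ) * Real.exp (ε / 5000 * M) ≤ PB.card := by
      rw [hPBc]
      push_cast
      calc (PR.card : ℝ) * Real.exp (ε / 5000 * M)
          ≤ 2 * (Bd.card * Od.card) * Real.exp (ε / 5000 * M) := by gcongr
        _ = 2 * (Bd.card : ℝ) * Real.exp (ε / 5000 * M) * Od.card := by ring
        _ ≤ M.factorial * Od.card := by gcongr
    have h4 : Real.exp (c * N) ≤ Real.exp (ε / 5000 * M) := by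
      apply Real.exp_le_exp.mpr
      have h5 : ε / 60000 * N ≤ ε / 60000 * (11 * M) := by gcongr
      have := hcN _ hcC
      have h6 : 0 ≤ ε * M := by positivity
      linarith
    have h5 : Real.exp (c * N / k) ≤ Real.exp (ε / 5000 * M) :=
      (Real.exp_le_exp.mpr hcNk).trans h4
    calc Real.exp (c * N / k) * PR.card ≤ Real.exp (ε / 5000 * M) * PR.card := by gcongr
      _ ≤ PB.card := by rw [mul_comm]; exact h3
      _ ≤ 2 * (T * (R + 1) * PB.card) := by linarith

end Pool.Agent.H58.IS
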