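import Pool.Agent.H58.IS.Enc

/-! Certificates for the graphs give certificates in terms of the assignments. -/

set_option autoImplicit false
set_option linter.unusedSectionVars false

namespace Pool.Agent.H58.IS

open Finset Pool.Agent.H58.LPE

theorem totalDegree_aeval_le {σ τ : Type*} (q : σ → MvPolynomial τ ℝ) (k : ℕ)
    (hq : ∀ v, (q v).totalDegree ≤ k) (p : MvPolynomial σ ℝ) :
    (MvPolynomial.aeval q p).totalDegree ≤ k * p.totalDegree := by
  classical
  rw [MvPolynomial.aeval_def, MvPolynomial.eval₂_eq]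
  refine (MvPolynomial.totalDegree_finsetSum _ _).trans (Finset.sup_le fun d hd => ?_)
  refine (MvPolynomial.totalDegree_mul _ _).trans ?_
  have h1 : ((algebraMap ℝ (MvPolynomial τ ℝ)) (MvPolynomial.coeff d p)).totalDegree = 0 := by
    rw [MvPolynomial.algebraMap_eq, MvPolynomial.totalDegree_C]
  rw [h1, zero_add]
  refine (MvPolynomial.totalDegree_finsetProd _ _).trans ?_
  have h2 : ∀ i ∈ d.support, (q i ^ d i).totalDegree ≤ d i * k := fun i _ =>
    (MvPolynomial.totalDegree_pow _ _).trans (Nat.mul_le_mul_left _ (hq i))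
  refine (Finset.sum_le_sum h2).trans ?_
  rw [← Finset.sum_mul, mul_comm]
  exact Nat.mul_le_mul_left _ (MvPolynomial.le_totalDegree hd)

section pull

variable {α : Type*} [Fintype α] [DecidableEq α] {N M n : ℕ}
variable (e : α ≃ Fin M) (ι : α ⊕ Fin (M + M) ↪ Fin N) (jj : Vx α M ↪ Fin n)
variable (σ : Equiv.Perm α) (b : α → ZMod 2)

/-- the polynomial of a literal -/
noncomputable def lit (i : Fin N) (s : Bool) : MvPolynomial (Fin N) ℝ :=
  if s then MvPolynomial.X i else 1 - MvPolynomial.X i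

theorem lit_deg (i : Fin N) (s : Bool) : (lit i s).totalDegree ≤ 1 := by
  unfold lit
  split_ifs
  · rw [MvPolynomial.totalDegree_X]
  · refine (MvPolynomial.totalDegree_sub _ _).trans ?_
    rw [MvPolynomial.totalDegree_one, MvPolynomial.totalDegree_X]
    exact le_rfl

theorem lit_ev (i : Fin N) (s : Bool) (z : Fin N → Bool) :
    LPE.ev z (lit i s) = if z i = s then 1 else 0 := by
  unfold LPE.ev lit
  cases s <;> cases h : z i <;> simp [h]

/-- the polynomial of a vertex -/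
theorem vert (v : Fin n) : ∃ q : MvPolynomial (Fin N) ℝ, q.totalDegree ≤ 2 ∧
    ∀ z, LPE.ev z q = if v ∈ Sz ι jj z then 1 else 0 := by
  by_cases hv : ∃ w, jj w = v
  · obtain ⟨w, rfl⟩ := hv
    rcases w with ⟨l, a⟩ | ⟨t, p, q⟩
    · refine ⟨lit (ι (Sum.inl l)) a, (lit_deg _ _).trans (by norm_num), fun z => ?_⟩
      rw [lit_ev]
      simp only [mem_Sz, mem_jj, tst, beq_iff_eq]
    · refine ⟨lit (ι (Sum.inr t)) p * lit (ι (Sum.inr (finRotate (M + M) t))) q,
        (MvPolynomial.totalDegree_mul _ _).trans (Nat.add_le_add (lit_deg _ _) (lit_deg _ _)),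
        fun z => ?_⟩
      have h1 : LPE.ev z (lit (ι (Sum.inr t)) p * lit (ι (Sum.inr (finRotate (M + M) t))) q) =
          LPE.ev z (lit (ι (Sum.inr t)) p) *
            LPE.ev z (lit (ι (Sum.inr (finRotate (M + M) t))) q) := by
        unfold LPE.ev
        rw [map_mul]
      rw [h1, lit_ev, lit_ev]
      simp only [mem_Sz, mem_jj, tst, Bool.and_eq_true, beq_iff_eq]
      by_cases h2 : z (ι (Sum.inr t)) = p <;>
        by_cases h3 : z (ι (Sum.inr (finRotate (M + M) t))) = q <;> simp only [h2, h3, if_true,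
          if_false, and_true, and_false, mul_one, mul_zero]
  · push Not at hv
    refine ⟨1, by rw [MvPolynomial.totalDegree_one]; exact Nat.zero_le _, fun z => ?_⟩
    rw [if_pos ((mem_Sz ι jj z v).mpr (mem_out ι jj z v hv))]
    unfold LPE.ev
    rw [map_one]

/-- the polynomials in terms of the assignment -/
theorem pullp : ∃ F : MvPolynomial (Fin n) ℝ → MvPolynomial (Fin N) ℝ,
    (∀ p, (F p).totalDegree ≤ 2 * p.totalDegree) ∧
    ∀ p z, LPE.ev z (F p) = ev (Sz ι jj z) p := by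
  choose q hq hqz using vert ι jj
  refine ⟨fun p => MvPolynomial.aeval q p, fun p => totalDegree_aeval_le q 2 hq p, fun p z => ?_⟩
  have hqz' : ∀ v, MvPolynomial.eval (fun i => if z i then (1:ℝ) else 0) (q v) =
      if v ∈ Sz ι jj z then 1 else 0 := fun v => hqz v z
  unfold LPE.ev ev
  simp only
  rw [MvPolynomial.aeval_def, MvPolynomial.algebraMap_eq, ← MvPolynomial.eval_assoc]
  congr 2
  funext v
  exact hqz' v

/-- the two vertices of a falsified clause -/
def v1 (t : (α ⊕ α) × Bool × Bool) : Fin n := jj (Sum.inr (EE2 e t.1, t.2.1, t.2.2))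
/-- the other one -/
def v2 (t : (α ⊕ α) × Bool × Bool) : Fin n :=
  jj (Sum.inl (lab σ t.1, third b t.1 t.2.1 t.2.2))

theorem pairs (z : Fin N → Bool) (f : Fin n → Fin n → ℝ)
    [∀ u v, Decidable ((Gr e jj σ b).Adj u v)]
    [DecidablePred fun t : (α ⊕ α) × Bool × Bool => ∃ l ∈ cl (EE2 e) ι σ b t, z l.1 = l.2] :
    ∑ u ∈ Sz ι jj z, ∑ v ∈ Sz ι jj z, (if (Gr e jj σ b).Adj u v then f u v else 0) =
      ∑ t : (α ⊕ α) × Bool × Bool, (if ∃ l ∈ cl (EE2 e) ι σ b t, z l.1 = l.2 then 0 else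
        f (v1 e jj t) (v2 jj σ b t) + f (v2 jj σ b t) (v1 e jj t)) := by
  classical
  have h12 : ∀ t t', v1 e jj t ≠ v2 jj σ b t' := by
    intro t t' h
    exact absurd (jj.injective h) (by simp)
  have hi1 : Function.Injective (v1 e jj (α := α)) := by
    rintro ⟨κ, p, q⟩ ⟨κ', p', q'⟩ h
    have h1 := Sum.inr.inj (jj.injective h)
    simp only [Prod.mk.injEq, EmbeddingLike.apply_eq_iff_eq] at h1
    obtain ⟨h1, h2, h3⟩ := h1
    rw [h1, h2, h3]
  have hmem : ∀ t : (α ⊕ α) × Bool × Bool, (¬ ∃ l ∈ cl (EE2 e) ι σ b t, z l.1 = l.2) →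
      v1 e jj t ∈ Sz ι jj z ∧ v2 jj σ b t ∈ Sz ι jj z := by
    intro t ht
    obtain ⟨h1, h2, h3⟩ := (not_sat_iff (EE2 e) ι σ b t z).mp ht
    rw [mem_Sz, mem_Sz]
    unfold v1 v2
    rw [mem_jj, mem_jj]
    simp only [tst, h1, h2, h3, beq_self_eq_true, Bool.and_self, and_self]
  have hrel : ∀ t : (α ⊕ α) × Bool × Bool, (Gr e jj σ b).Adj (v1 e jj t) (v2 jj σ b t) := by
    intro t
    rw [Gr_adj]
    refine ⟨h12 t t, Or.inl ⟨_, _, rfl, rfl, ?_⟩⟩
    simp only [rel, Equiv.symm_apply_apply]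
    exact ⟨trivial, trivial⟩
  have key : ∀ u v, mem ι jj z u = true → mem ι jj z v = true →
      (∃ w w', jj w = u ∧ jj w' = v ∧ rel e σ b w w') →
      ∃ t : (α ⊕ α) × Bool × Bool, (¬ ∃ l ∈ cl (EE2 e) ι σ b t, z l.1 = l.2) ∧
        u = v1 e jj t ∧ v = v2 jj σ b t := by
    intro u v hu hv h
    obtain ⟨κ, h1, h2, h3⟩ := (adj_Sz e ι jj σ b z u v hu hv).mp h
    rw [viol_iff] at h1
    refine ⟨(κ, z (ι (Sum.inr (EE2 e κ))), z (ι (Sum.inr (finRotate (M + M) (EE2 e κ))))), ?_,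
      h2, ?_⟩
    · rw [not_sat_iff]
      exact ⟨rfl, rfl, h1⟩
    · rw [h3, h1]
      rfl
  obtain ⟨TT, hTT⟩ : ∃ TT : Finset ((α ⊕ α) × Bool × Bool), TT =
    univ.filter fun t => ¬ ∃ l ∈ cl (EE2 e) ι σ b t, z l.1 = l.2 := ⟨_, rfl⟩
  have hset : ((Sz ι jj z ×ˢ Sz ι jj z).filter fun x => (Gr e jj σ b).Adj x.1 x.2) =
      TT.image (fun t => (v1 e jj t, v2 jj σ b t)) ∪
        TT.image (fun t => (v2 jj σ b t, v1 e jj t)) := by
    ext ⟨u, v⟩
    rw [Finset.mem_filter, Finset.mem_product, Finset.mem_union, Finset.mem_image,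
      Finset.mem_image]
    constructor
    · rintro ⟨⟨hu, hv⟩, h⟩
      simp only at hu hv h
      have hu' := (mem_Sz ι jj z u).mp hu
      have hv' := (mem_Sz ι jj z v).mp hv
      rw [Gr_adj] at h
      rcases h.2 with h | h
      · obtain ⟨t, h1, rfl, rfl⟩ := key u v hu' hv' h
        left
        exact ⟨t, by rw [hTT]; simpa using h1, rfl⟩
      · obtain ⟨t, h1, rfl, rfl⟩ := key v u hv' hu' h
        right
        exact ⟨t, by rw [hTT]; simpa using h1, rfl⟩
    · rintro (⟨t, ht, h⟩ | ⟨t, ht, h⟩)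
      · rw [hTT, Finset.mem_filter] at ht
        obtain ⟨h1, h2⟩ := hmem t ht.2
        obtain ⟨rfl, rfl⟩ := Prod.mk.inj h
        exact ⟨⟨h1, h2⟩, hrel t⟩
      · rw [hTT, Finset.mem_filter] at ht
        obtain ⟨h1, h2⟩ := hmem t ht.2
        obtain ⟨rfl, rfl⟩ := Prod.mk.inj h
        exact ⟨⟨h2, h1⟩, (hrel t).symm⟩
  have h1 : ∑ u ∈ Sz ι jj z, ∑ v ∈ Sz ι jj z, (if (Gr e jj σ b).Adj u v then f u v else 0) =
      ∑ x ∈ (Sz ι jj z ×ˢ Sz ι jj z).filter (fun x => (Gr e jj σ b).Adj x.1 x.2), f x.1 x.2 := by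
    rw [Finset.sum_filter, Finset.sum_product]
  rw [h1, hset, Finset.sum_union, Finset.sum_image, Finset.sum_image, ← Finset.sum_add_distrib, hTT,
    Finset.sum_filter]
  · refine Finset.sum_congr rfl fun t _ => ?_
    by_cases h : ∃ l ∈ cl (EE2 e) ι σ b t, z l.1 = l.2
    · rw [if_neg (not_not.mpr h), if_pos h]
    · rw [if_pos h, if_neg h]
  · intro t _ t' _ h
    exact hi1 (Prod.mk.inj h).2
  · intro t _ t' _ h
    exact hi1 (Prod.mk.inj h).1
  · rw [Finset.disjoint_left]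
    rintro x hx hx'
    obtain ⟨t, -, rfl⟩ := Finset.mem_image.mp hx
    obtain ⟨t', -, h⟩ := Finset.mem_image.mp hx'
    exact h12 t t' (Prod.mk.inj h).1.symm

/-- SUMS OF SQUARES -/
theorem sos_pull (hL : 3 ≤ M + M) {k d : ℕ} (hk : ∀ z, (Sz ι jj z).card = k)
    (τ : Fin n → Option Bool) (h : SosRefutes d k τ (Gr e jj σ b)) :
    SosC e ι jj (2 * d) σ b τ := by
  classical
  obtain ⟨m, p, h, hp, hh, hid⟩ := h
  obtain ⟨F, hF, hFz⟩ := pullp ι jj
  refine ⟨m, fun j => F (p j), fun C => ∑ t : (α ⊕ α) × Bool × Bool,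
    (if cl (EE2 e) ι σ b t = C then F (h (v1 e jj t) (v2 jj σ b t)) +
      F (h (v2 jj σ b t) (v1 e jj t)) else 0), fun j => ?_, fun C => ?_, fun z hz => ?_⟩
  · have h1 := hF (p j)
    have h2 := hp j
    simp only
    omega
  · refine (MvPolynomial.totalDegree_finsetSum _ _).trans (Finset.sup_le fun t _ => ?_)
    split_ifs
    · refine (MvPolynomial.totalDegree_add _ _).trans (max_le ?_ ?_)
      · have h1 := hF (h (v1 e jj t) (v2 jj σ b t))
        have h2 := hh (v1 e jj t) (v2 jj σ b t)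
        omega
      · have h1 := hF (h (v2 jj σ b t) (v1 e jj t))
        have h2 := hh (v2 jj σ b t) (v1 e jj t)
        omega
    · rw [MvPolynomial.totalDegree_zero]
      exact Nat.zero_le _
  · have h1 := hid (Sz ι jj z) (hk z) ((ext_Sz ι jj τ z).mpr hz)
    rw [pairs e ι jj σ b z (fun u v => ev (Sz ι jj z) (h u v))] at h1
    rw [← h1]
    congr 1
    · exact Finset.sum_congr rfl fun j _ => by rw [hFz]
    · unfold Fm
      rw [Finset.sum_image fun t _ t' _ h => cl_inj hL (EE2 e) ι σ b h]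
      refine Finset.sum_congr rfl fun t _ => ?_
      split_ifs with h2
      · rfl
      · have h3 : ∑ t' : (α ⊕ α) × Bool × Bool,
            (if cl (EE2 e) ι σ b t' = cl (EE2 e) ι σ b t then F (h (v1 e jj t') (v2 jj σ b t')) +
              F (h (v2 jj σ b t') (v1 e jj t')) else 0) =
            F (h (v1 e jj t) (v2 jj σ b t)) + F (h (v2 jj σ b t) (v1 e jj t)) := by
          rw [Finset.sum_eq_single t]
          · rw [if_pos rfl]
          · intro t' _ hne
            rw [if_neg fun h => hne (cl_inj hL (EE2 e) ι σ b h)]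
          · intro h
            exact absurd (Finset.mem_univ _) h
        simp only
        rw [h3, ← hFz, ← hFz]
        unfold LPE.ev
        rw [map_add]

/-- LINEAR PROGRAMMES -/
theorem lp_pull {R : ℕ} {E : Type*} [AddCommGroup E] [Module ℝ E] (S : AffineSubspace ℝ E)
    (a : Fin R → (E →ᵃ[ℝ] ℝ)) (L : E →ᵃ[ℝ] ℝ) (pt : (Fin N → Bool) → E) {ε : ℝ}
    (τ : Fin n → Option Bool)
    (hw : ∀ z, LPE.Ext τ (mem ι jj z) → pt z ∈ S ∧ ∀ i, 0 ≤ a i (pt z))
    (hL : ∀ z, LPE.Ext τ (mem ι jj z) → L (pt z) = edgesIn (Gr e jj σ b) (Sz ι jj z))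
    (h : ∀ p ∈ S, (∀ i, 0 ≤ a i p) → ε ≤ L p) :
    ∃ (c : Fin R → ℝ) (c0 : ℝ), (∀ i, 0 ≤ c i) ∧ 0 ≤ c0 ∧ ∀ z, LPE.Ext τ (mem ι jj z) →
    (nv e ι σ b z : ℝ) - ε = ∑ i, c i * a i (pt z) + c0 := by
  classical
  by_cases hz : ∃ z, LPE.Ext τ (mem ι jj z)
  · obtain ⟨z0, hz0⟩ := hz
    obtain ⟨c, c0, hc, hc0, h1⟩ := lp_dual S a (-L) (-ε) (pt z0) (hw z0 hz0).1 (hw z0 hz0).2
      (fun p hp hp0 => by
        have := h p hp hp0
        simp only [AffineMap.coe_neg, Pi.neg_apply]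
        linarith)
    refine ⟨c, c0, hc, hc0, fun z hz => ?_⟩
    rw [← h1 (pt z) (hw z hz).1]
    simp only [AffineMap.coe_neg, Pi.neg_apply]
    rw [hL z hz, edges_Sz]
    ring
  · exact ⟨fun _ => 0, 0, fun _ => le_rfl, le_rfl, fun z h => absurd ⟨z, h⟩ hz⟩

end pull

end Pool.Agent.H58.IS
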