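import Pool.Agent.H58.IS.Kill

/-! Random restrictions which kill all wide cells. -/

set_option autoImplicit false
set_option linter.unusedSectionVars false

namespace Pool.Agent.H58.IS

open Finset Pool.Agent.H58.LPE

variable {α : Type*} [Fintype α] [DecidableEq α] {N M n : ℕ}
variable (e : α ≃ Fin M) (ι : α ⊕ Fin (M + M) ↪ Fin N) (jj : Vx α M ↪ Fin n)
variable (σ : Equiv.Perm α) (b : α → ZMod 2)

/-- A RESTRICTION WHICH KILLS ALL WIDE CELLS -/
theorem restr (hM : 2 ≤ M) (hcard : Fintype.card α = M) (hn : n ≤ 10 * M + 19)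
    (hn3 : 0 < n) (hb : ∑ i, b i = 1) (P : Finset (Fin n → Option Bool)) (K f : ℕ)
    (Bad : (Fin f → Fin n) → Finset α) (hBad : ∀ g, 2 * (Bad g).card ≤ M)
    (hlt : 2 * (P.card : ℝ) * ((3 + Real.exp (-(f / n))) / 4) ^ K < 1) :
    ∃ (p : α) (x : α → ZMod 2) (g : Fin f → Fin n), p ∉ Bad g ∧
      ∀ τ ∈ P, 18 * K + 27 ≤ width τ →
      ∃ j, cf (τ (g j)) (mem ι jj (bobz (EE2 e) ι x (et σ b (Pi.single p 1) x)) (g j)) = true := by
  by_contra hcon
  push Not at hcon
  obtain ⟨y, hy⟩ : ∃ y : ℝ, y = Real.exp (-(f / n)) := ⟨_, rfl⟩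
  rw [← hy] at hlt
  have hy0 : 0 ≤ y := by rw [hy]; exact (Real.exp_pos _).le
  have hy1 : y ≤ 1 := by
    rw [hy]
    apply Real.exp_le_one_iff.mpr
    have : (0:ℝ) ≤ f / n := by positivity
    linarith
  have hN' : (0:ℝ) < n := by exact_mod_cast hn3
  have hM' : (0:ℝ) < M := by
    have : 0 < M := by omega
    exact_mod_cast this
  have hps : ∀ p : α, ∑ i, (Pi.single p 1 : α → ZMod 2) i = 1 := by
    intro p
    rw [Finset.sum_pi_single']
    simp
  obtain ⟨zz, hzz⟩ : ∃ zz : α → (α → ZMod 2) → Fin n → Bool, ∀ p x, zz p x =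
    mem ι jj (bobz (EE2 e) ι x (et σ b (Pi.single p 1) x)) := ⟨_, fun _ _ => rfl⟩
  simp only [← hzz] at hcon
  obtain ⟨Z, hZ⟩ : ∃ Z, Z = ∑ p : α, ∑ ρ ∈ P.filter (fun ρ => 18 * K + 27 ≤ width ρ),
      ∑ x : α → ZMod 2, (univ.filter fun g : Fin f → Fin n => ∀ j,
          ¬ cf (ρ (g j)) (zz p x (g j)) = true).card := ⟨_, rfl⟩
  -- every triple is bad
  have h1 : 2 * Fintype.card (α × (α → ZMod 2) × (Fin f → Fin n)) ≤
      M * (2 ^ M * n ^ f) + 2 * Z := by
    have h2 : (univ : Finset (α × (α → ZMod 2) × (Fin f → Fin n))) ⊆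
        ((univ : Finset ((α → ZMod 2) × (Fin f → Fin n))).biUnion fun q =>
          (Bad q.2).image fun p => (p, q)) ∪
        (univ : Finset α).biUnion fun p => (P.filter fun ρ => 18 * K + 27 ≤ width ρ).biUnion
          fun ρ => (univ : Finset (α → ZMod 2)).biUnion fun x =>
          (univ.filter fun g : Fin f → Fin n => ∀ j,
          ¬ cf (ρ (g j)) (zz p x (g j)) = true).image
            fun g => (p, x, g) := by
      rintro ⟨p, x, g⟩ -
      rw [Finset.mem_union]
      by_cases hp : p ∈ Bad g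
      · left
        simp only [Finset.mem_biUnion, Finset.mem_univ, true_and, Finset.mem_image]
        exact ⟨(x, g), p, hp, rfl⟩
      · right
        obtain ⟨ρ, hρ, hw, hj⟩ := hcon p x g hp
        simp only [Finset.mem_biUnion, Finset.mem_univ, true_and, Finset.mem_image,
          Finset.mem_filter, Prod.mk.injEq]
        exact ⟨p, ρ, ⟨hρ, hw⟩, x, g, hj, rfl, rfl, rfl⟩
    have h3 := Finset.card_le_card h2
    rw [Finset.card_univ] at h3
    have h4 : ((univ : Finset α).biUnion fun p =>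
        (P.filter fun ρ => 18 * K + 27 ≤ width ρ).biUnion fun ρ =>
          (univ : Finset (α → ZMod 2)).biUnion fun x =>
          (univ.filter fun g : Fin f → Fin n => ∀ j,
          ¬ cf (ρ (g j)) (zz p x (g j)) = true).image
            fun g => (p, x, g)).card ≤ Z := by
      rw [hZ]
      refine Finset.card_biUnion_le.trans (Finset.sum_le_sum fun p _ => ?_)
      refine Finset.card_biUnion_le.trans (Finset.sum_le_sum fun ρ _ => ?_)
      refine Finset.card_biUnion_le.trans (Finset.sum_le_sum fun x _ => ?_)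
      exact Finset.card_image_le
    have h5 : 2 * ((univ : Finset ((α → ZMod 2) × (Fin f → Fin n))).biUnion fun q =>
          (Bad q.2).image fun p => (p, q)).card ≤ M * (2 ^ M * n ^ f) := by
      have h6 : ((univ : Finset ((α → ZMod 2) × (Fin f → Fin n))).biUnion fun q =>
          (Bad q.2).image fun p => (p, q)).card ≤
          ∑ q : (α → ZMod 2) × (Fin f → Fin n), (Bad q.2).card :=
        Finset.card_biUnion_le.trans (Finset.sum_le_sum fun q _ => Finset.card_image_le)
      refine (Nat.mul_le_mul_left 2 h6).trans ?_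
      rw [Finset.mul_sum]
      refine (Finset.sum_le_sum fun q _ => hBad q.2).trans (le_of_eq ?_)
      rw [Finset.sum_const, Finset.card_univ, Fintype.card_prod, Fintype.card_fun,
        Fintype.card_fun, ZMod.card, Fintype.card_fin, Fintype.card_fin, hcard, smul_eq_mul]
      ring
    have h7 := Finset.card_union_le ((univ : Finset ((α → ZMod 2) × (Fin f → Fin n))).biUnion
          fun q => (Bad q.2).image fun p => (p, q))
        ((univ : Finset α).biUnion fun p => (P.filter fun ρ => 18 * K + 27 ≤ width ρ).biUnion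
          fun ρ => (univ : Finset (α → ZMod 2)).biUnion fun x =>
          (univ.filter fun g : Fin f → Fin n => ∀ j,
          ¬ cf (ρ (g j)) (zz p x (g j)) = true).image
            fun g => (p, x, g))
    omega
  have h2 : (Z : ℝ) ≤ ∑ _p : α, ∑ _ρ ∈ P.filter (fun ρ => 18 * K + 27 ≤ width ρ),
        (n:ℝ) ^ f * (2 ^ M * ((3 + y) / 4) ^ K) := by
    rw [hZ]
    push_cast
    refine Finset.sum_le_sum fun p _ => Finset.sum_le_sum fun ρ hρ => ?_
    rw [Finset.mem_filter] at hρ
    refine (Finset.sum_le_sum fun x _ => nonconf_card hn3 ρ _).trans ?_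
    rw [← Finset.mul_sum, ← hy]
    simp only [hzz]
    exact mul_le_mul_of_nonneg_left
      (kill e ι jj σ b (Pi.single p 1) hM hcard hn hb (hps p) hy0 hy1 K ρ hρ.2) (by positivity)
  have h3 : ∑ _p : α, ∑ _ρ ∈ P.filter (fun ρ => 18 * K + 27 ≤ width ρ),
        (n:ℝ) ^ f * (2 ^ M * ((3 + y) / 4) ^ K) ≤
      (M : ℝ) * P.card * ((3 + y) / 4) ^ K * (n ^ f * 2 ^ M) := by
    simp only [Finset.sum_const, nsmul_eq_mul, Finset.card_univ, hcard]
    have h4 : ((P.filter fun ρ => 18 * K + 27 ≤ width ρ).card : ℝ) ≤ P.card := by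
      exact_mod_cast Finset.card_filter_le _ _
    calc (M : ℝ) * (((P.filter fun ρ => 18 * K + 27 ≤ width ρ).card : ℝ) *
          ((n:ℝ) ^ f * (2 ^ M * ((3 + y) / 4) ^ K)))
        ≤ (M : ℝ) * ((P.card : ℝ) * ((n:ℝ) ^ f * (2 ^ M * ((3 + y) / 4) ^ K))) := by gcongr
      _ = (M : ℝ) * P.card * ((3 + y) / 4) ^ K * (n ^ f * 2 ^ M) := by ring
  have h4 : (2:ℝ) * (M * (2 ^ M * n ^ f)) ≤ M * (2 ^ M * n ^ f) + 2 * Z := by
    rw [Fintype.card_prod, Fintype.card_prod, Fintype.card_fun, Fintype.card_fun, ZMod.card,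
      Fintype.card_fin, Fintype.card_fin, hcard] at h1
    exact_mod_cast h1
  have h5 : (0:ℝ) < M * (n ^ f * 2 ^ M) := by positivity
  have h6 := h2.trans h3
  have h7 : 2 * (P.card : ℝ) * ((3 + y) / 4) ^ K * (M * (n ^ f * 2 ^ M)) <
      1 * (M * (n ^ f * 2 ^ M)) := mul_lt_mul_of_pos_right hlt h5
  have e1 : 2 * (P.card : ℝ) * ((3 + y) / 4) ^ K * (M * (n ^ f * 2 ^ M)) =
      2 * ((M : ℝ) * P.card * ((3 + y) / 4) ^ K * (n ^ f * 2 ^ M)) := by ring
  have e2 : (M:ℝ) * (2 ^ M * n ^ f) = M * (n ^ f * 2 ^ M) := by ring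
  rw [e1] at h7
  rw [e2] at h4
  linarith

end Pool.Agent.H58.IS
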