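import Pool.Agent.H58.IS.Walk
import Pool.Agent.H58.IS.Restr
import Pool.Agent.H58.LPE.Select

/-! A leaf of a refutation which is closed by a relaxation, and a subcube of it on which the
violations are unconstrained. -/

set_option autoImplicit false
set_option linter.unusedSectionVars false

namespace Pool.Agent.H58.IS

open Finset Pool.Agent.H58.LPE

section select

variable {α : Type*} [Fintype α] [DecidableEq α] {N M n : ℕ}
variable (e : α ≃ Fin M) (ι : α ⊕ Fin (M + M) ↪ Fin N) (jj : Vx α M ↪ Fin n)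
variable (σ : Equiv.Perm α) (b : α → ZMod 2)

/-- the variables of a cell -/
noncomputable def vt (τ : Fin n → Option Bool) : Finset (Fin N) :=
  (univ.filter fun v => τ v ≠ none).biUnion (vv ι jj)

theorem vt_card (τ : Fin n → Option Bool) : (vt ι jj τ).card ≤ 2 * width τ := by
  unfold vt width
  rw [mul_comm]
  exact Finset.card_biUnion_le_card_mul _ _ 2 fun v _ => vv_card ι jj v

theorem ext_local {τ : Fin n → Option Bool} {z z' : Fin N → Bool}
    (h : ∀ j ∈ vt ι jj τ, z' j = z j) (he : Ext τ (mem ι jj z)) : Ext τ (mem ι jj z') := by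
  intro v s hv
  rw [← he v s hv]
  refine mem_local ι jj v fun j hj => h j ?_
  unfold vt
  rw [Finset.mem_biUnion]
  exact ⟨v, by simp [hv], hj⟩

/-- THE SELECTION -/
theorem select (hM : 2 ≤ M) (hcard : Fintype.card α = M) (hN : N ≤ 3 * M + 5)
    (hn : n ≤ 10 * M + 19) (hn0 : 0 < n)
    (hb : ∑ i, b i = 1) {θ φ K f T W s k : ℕ} (hθ : 1 ≤ θ) (hθM : 2 * θ ≤ M)
    (hE : Expand (en1 (EE2 e) σ) (en2 (EE2 e)) θ φ M)
    (hW : 2 * f + 6 + k * (3 * (36 * K + 52 + s) + 3) ≤ W) (hKW : 18 * K + 26 ≤ W) (hWφ : W ≤ φ)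
    (hlt : 2 * (T : ℝ) * ((3 + Real.exp (-(f / n))) / 4) ^ K < 1)
    (τ : ℕ → Fin n → Option Bool) (A : (Fin N → Bool) → Fin k)
    (Q : ℕ → Fin k → (Fin N → Bool) → Prop)
    (Sx : ℕ → Finset (Fin N)) (hSx : ∀ i, (Sx i).card ≤ s)
    (hQ : ∀ i a z z', cb (Sx i) z z' → Q i a z → Q i a z')
    (closed : (Fin n → Option Bool) → Prop)
    (hroot : ∃ i < T, ∀ z, Ext (τ i) (mem ι jj z) ∧ Q i (A z) z)
    (hstep : ∀ i < T, closed (τ i) ∨ (∃ C ∈ Fm (EE2 e) ι σ b, ∀ z, Ext (τ i) (mem ι jj z) →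
      Q i (A z) z → ¬ ∃ l ∈ C, z l.1 = l.2) ∨ ∃ j < i, ∃ l < i, ∀ z, Ext (τ i) (mem ι jj z) →
        Q i (A z) z → (Ext (τ j) (mem ι jj z) ∧ Q j (A z) z) ∨
          (Ext (τ l) (mem ι jj z) ∧ Q l (A z) z)) :
    ∃ (τ0 : Fin n → Option Bool) (ρ1 : Fin N → Option Bool) (N0 : ℕ) (C : Finset α), closed τ0 ∧
      width τ0 ≤ W ∧
      width ρ1 ≤ W ∧ (∀ z, Ext ρ1 z → Ext τ0 (mem ι jj z)) ∧ C.card < θ ∧ 2 ^ M ≤ N0 * 2 ^ W ∧
      (∀ v : α → ZMod 2, ∑ i, v i = 1 → cnt e ι σ b ρ1 v ≤ N0) ∧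
      (∀ v : α → ZMod 2, ∑ i, v i = 1 → (∀ i ∈ C, v i = 0) → cnt e ι σ b ρ1 v = N0) ∧
      ∃ (D : Finset (Fin N)) (z0 : Fin N → Bool), D.card ≤ W ∧
        (∀ κ ∈ core ι (en1 (EE2 e) σ) (en2 (EE2 e)) D θ, viol (EE2 e) ι σ b z0 κ = 0) ∧
        ∀ z, (∀ i ∈ D, z i = z0 i) → Ext τ0 (mem ι jj z) := by
  classical
  have hN3 : 3 * M ≤ N := by
    have := Fintype.card_le_of_embedding ι
    rw [Fintype.card_sum, Fintype.card_fin, Fintype.card_fin, hcard] at this
    omega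
  obtain ⟨Dtg, hDtg⟩ : ∃ Dtg : (Fin f → Fin n) → Finset (Fin N), ∀ g, Dtg g =
    (univ.image g).biUnion (vv ι jj) ∪
    ({ι (Sum.inr ⟨0, by omega⟩)} ∪ (univ.image ι)ᶜ) := ⟨_, fun _ => rfl⟩
  have hDc : ∀ g, (Dtg g).card ≤ 2 * f + 6 := by
    intro g
    rw [hDtg]
    refine (Finset.card_union_le _ _).trans ?_
    have h1 : ((univ.image g).biUnion (vv ι jj)).card ≤ 2 * f := by
      refine (Finset.card_biUnion_le_card_mul _ _ 2 fun v _ => vv_card ι jj v).trans ?_
      have := Finset.card_image_le (s := (univ : Finset (Fin f))) (f := g)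
      rw [Finset.card_univ, Fintype.card_fin] at this
      omega
    have h2 : ((univ.image ι)ᶜ : Finset (Fin N)).card ≤ 5 := by
      rw [Finset.card_compl, Finset.card_image_of_injective _ ι.injective, Finset.card_univ,
        Fintype.card_sum, Fintype.card_fin, Fintype.card_fin, hcard]
      omega
    have h3 := Finset.card_union_le ({ι (Sum.inr ⟨0, by omega⟩)} : Finset (Fin N)) (univ.image ι)ᶜ
    rw [Finset.card_singleton] at h3
    omega
  -- a constraint outside the core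
  have hcoreC : ∀ D : Finset (Fin N), D.card ≤ φ →
      (univ.filter fun p : α => Sum.inl p ∈ core ι (en1 (EE2 e) σ) (en2 (EE2 e)) D θ).card < θ := by
    intro D hD
    refine lt_of_le_of_lt ?_ (core_spec (em := ι) ι.injective hθ hθM hE hD).1
    refine Finset.card_le_card_of_injOn Sum.inl (fun p hp => ?_) Sum.inl_injective.injOn
    simpa using hp
  have hcore : ∀ D : Finset (Fin N), D.card ≤ φ →
      ∃ p : α, Sum.inl p ∉ core ι (en1 (EE2 e) σ) (en2 (EE2 e)) D θ := by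
    intro D hD
    by_contra hcon
    push Not at hcon
    have h1 := hcoreC D hD
    rw [Finset.filter_true_of_mem (fun p _ => hcon p), Finset.card_univ, hcard] at h1
    omega
  obtain ⟨p, x, g, hp, hg⟩ := restr e ι jj σ b hM hcard hn hn0 hb ((Finset.range T).image τ) K f
    (fun g => univ.filter fun p : α =>
      Sum.inl p ∈ core ι (en1 (EE2 e) σ) (en2 (EE2 e)) (Dtg g) θ) (fun g => by
      have := hcoreC (Dtg g) ((hDc g).trans (by omega))
      omega) (by
    refine lt_of_le_of_lt ?_ hlt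
    have h1 : (((Finset.range T).image τ).card : ℝ) ≤ T := by
      have := Finset.card_image_le (s := Finset.range T) (f := τ)
      rw [Finset.card_range] at this
      exact_mod_cast this
    have h2 : 0 ≤ ((3 + Real.exp (-(f / n : ℝ))) / 4) ^ K := by positivity
    gcongr)
  obtain ⟨Dt, hDt'⟩ : ∃ Dt, Dt = Dtg g := ⟨_, rfl⟩
  have hDc := hDc g
  rw [← hDt'] at hDc hp
  rw [Finset.mem_filter, not_and] at hp
  have hp := hp (Finset.mem_univ p)
  have hDt : Dt = (univ.image g).biUnion (vv ι jj) ∪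
      ({ι (Sum.inr ⟨0, by omega⟩)} ∪ (univ.image ι)ᶜ) := by
    rw [hDt', hDtg]
  obtain ⟨zs, hzs⟩ : ∃ zs, zs = bobz (EE2 e) ι x (et σ b (Pi.single p 1) x) := ⟨_, rfl⟩
  have hps : ∑ i, (Pi.single p 1 : α → ZMod 2) i = 1 := by
    rw [Finset.sum_pi_single']
    simp
  -- wide cells are empty
  have hwide : ∀ i < T, 18 * K + 26 < width (τ i) → ∀ z, cb Dt zs z →
      ¬ Ext (τ i) (mem ι jj z) := by
    intro i hi hw z hz hext
    obtain ⟨j, hj⟩ := hg (τ i) (Finset.mem_image_of_mem _ (Finset.mem_range.mpr hi)) (by omega)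
    obtain ⟨s, hs, hne⟩ := cf_spec hj
    apply hne
    rw [← hzs, ← hext _ _ hs]
    refine mem_local ι jj (g j) fun l hl => ?_
    refine (hz l ?_).symm
    rw [hDt]
    exact Finset.mem_union_left _ (Finset.mem_biUnion.mpr
      ⟨g j, Finset.mem_image_of_mem _ (Finset.mem_univ j), hl⟩)
  -- the root
  have hmur : M < mu (viol (EE2 e) ι σ b) (cb Dt zs) := by
    by_contra hcon
    obtain ⟨-, S, hS, hR⟩ := mu_dich e ι σ b hE hb (cb Dt zs) Dt
      (by omega) (cb_fl Dt zs) (by omega)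
    obtain ⟨κ, hκ, hv⟩ := hR zs fun _ _ => rfl
    rw [hzs, viol_bob (EE2 e) ι σ b _ hM hb hps] at hv
    rcases κ with i | l
    · simp only [Sum.elim_inl] at hv
      by_cases hip : i = p
      · subst hip
        exact hp (hS hκ)
      · rw [Pi.single_eq_of_ne hip] at hv
        exact hv rfl
    · exact hv rfl
  -- the walk
  have hL : 3 ≤ M + M := by omega
  have hLc : M + M = 2 * Fintype.card α := by rw [hcard]; ring
  obtain ⟨i, hi, hcl, D, z, hDD, hDc', hzD, hmD, hdom, a0, hext, -⟩ := walk_all e ι σ b hθ hθM hE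
    hb (s := 36 * K + 52 + s) A
    (fun i a z => Ext (τ i) (mem ι jj z) ∧ Q i a z) (fun i => vt ι jj (τ i) ∪ Sx i)
    (fun i a z z' hz h => ⟨ext_local ι jj (fun j hj => hz j (Finset.mem_union_left _ hj)) h.1,
      hQ i a z z' (fun j hj => hz j (Finset.mem_union_right _ hj)) h.2⟩)
    (fun i => closed (τ i)) hroot (fun i hi => by
      rcases hstep i hi with h | ⟨C, hC, h⟩ | ⟨j, hj, l, hl, h⟩
      · exact Or.inl h
      · exact Or.inr (Or.inl ⟨C, hC, ((Fm_sparse hL hLc (EE2 e) ι σ b).2.1 C hC).1,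
          fun z hz => h z hz.1 hz.2⟩)
      · exact Or.inr (Or.inr ⟨j, hj, l, hl, fun z hz => h z hz.1 hz.2⟩))
    (fun i hi hw a z hz h => by
      refine hwide i hi ?_ z hz h.1
      have h1 := Finset.card_union_le (vt ι jj (τ i)) (Sx i)
      have h2 := vt_card ι jj (τ i)
      have h3 := hSx i
      omega) hmur (by omega)
  have hwi : width (τ i) ≤ 18 * K + 26 := by
    by_contra hcon
    exact hwide i hi (by omega) z hzD hext
  have hDW : D.card ≤ W := by omega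
  have hcsD := core_spec (em := ι) ι.injective hθ hθM hE (hDW.trans hWφ)
  -- a solution of the core
  have hz0 : ∃ z0, cb D z z0 ∧
      ∀ κ ∈ core ι (en1 (EE2 e) σ) (en2 (EE2 e)) D θ, viol (EE2 e) ι σ b z0 κ = 0 := by
    by_contra hcon
    push Not at hcon
    have h1 := mu_le (viol (EE2 e) ι σ b) (C := cb D z)
      (S := core ι (en1 (EE2 e) σ) (en2 (EE2 e)) D θ) hcon
    omega
  obtain ⟨z0, hz0, hzc⟩ := hz0
  have hz0s : cb Dt zs z0 := cb_trans hzD hDD hz0
  obtain ⟨q, hq⟩ := hcore D (hDW.trans hWφ)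
  have hf1 : ∀ i, (∀ y, ι y ≠ i) → i ∈ D ∧ z0 i = false := by
    intro i hi
    have h1 : i ∈ Dt := by
      rw [hDt]
      refine Finset.mem_union_right _ (Finset.mem_union_right _ ?_)
      rw [Finset.mem_compl, Finset.mem_image]
      rintro ⟨y, -, hy⟩
      exact hi y hy
    refine ⟨hDD h1, ?_⟩
    rw [hz0s i h1, hzs, bob_out _ _ _ _ i hi]
  have hf2 : ι (Sum.inr ⟨0, by omega⟩) ∈ D ∧ z0 (ι (Sum.inr ⟨0, by omega⟩)) = false := by
    have h1 : ι (Sum.inr ⟨0, by omega⟩) ∈ Dt := by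
      rw [hDt]
      exact Finset.mem_union_right _ (Finset.mem_union_left _ (Finset.mem_singleton_self _))
    refine ⟨hDD h1, ?_⟩
    rw [hz0s _ h1, hzs, bob_zero _ _ hM]
  have hqs : ∑ i, (Pi.single q 1 : α → ZMod 2) i = 1 := by
    rw [Finset.sum_pi_single']
    simp
  have hne : ∀ v : α → ZMod 2, ∑ i, v i = 1 →
      (∀ i ∈ (univ.filter fun i => Sum.inl i ∈ core ι (en1 (EE2 e) σ) (en2 (EE2 e)) D θ),
        v i = 0) →
      (fib (EE2 e) ι σ b D z0 (Sum.elim v fun _ => 0)).Nonempty := by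
    intro v hv h0
    refine fib_nonempty (EE2 e) ι σ b hb hθ hθM hE (hDW.trans hWφ) hcard z0 hzc _
      (fun κ hκ => ?_) ?_
    · rcases κ with i | l
      · exact h0 i (by simpa using hκ)
      · rfl
    · rw [Fintype.sum_sum_type]
      simp only [Sum.elim_inl, Sum.elim_inr, Finset.sum_const_zero, add_zero]
      exact hv
  have hneq := hne (Pi.single q 1) hqs (fun i hi => by
    simp only [Finset.mem_filter, Finset.mem_univ, true_and] at hi
    exact Pi.single_eq_of_ne (by rintro rfl; exact hq hi) _)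
  have hDρ : ∀ z', (∀ j ∈ D, z' j = z0 j) → Ext (τ i) (mem ι jj z') := fun z' hz' =>
    ext_local ι jj (fun j hj => by
      have h1 : j ∈ D := hdom (Finset.mem_union_left _ hj)
      rw [hz' j h1, hz0 j h1]) hext
  refine ⟨τ i, fun j => if j ∈ D then some (z0 j) else none,
    (fib (EE2 e) ι σ b D z0 (Sum.elim (Pi.single q 1) fun _ => 0)).card,
    univ.filter fun i => Sum.inl i ∈ core ι (en1 (EE2 e) σ) (en2 (EE2 e)) D θ,
    hcl, by omega, ?_, ?_, ?_, ?_, ?_, ?_, D, z0, hDW, hzc, hDρ⟩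
  · refine le_trans (le_of_eq ?_) hDW
    unfold width
    congr 1
    ext j
    simp
  · intro z hz
    exact hDρ z fun j hj => hz j (z0 j) (by simp [hj])
  · refine lt_of_le_of_lt ?_ hcsD.1
    refine Finset.card_le_card_of_injOn Sum.inl (fun i hi => ?_) Sum.inl_injective.injOn
    simpa using hi
  · have h1 := fib_total (EE2 e) ι σ b D z0 _ hneq
    rw [hcard] at h1
    have h2 : 2 ^ (2 * M) * 2 ^ M ≤ 2 ^ N := by
      rw [← pow_add]
      exact Nat.pow_le_pow_right (by norm_num) (by omega)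
    have h3 : 2 ^ D.card ≤ 2 ^ W := Nat.pow_le_pow_right (by norm_num) hDW
    obtain ⟨c, hc⟩ : ∃ c, c = (fib (EE2 e) ι σ b D z0 (Sum.elim (Pi.single q 1) fun _ => 0)).card :=
      ⟨_, rfl⟩
    rw [← hc] at h1 ⊢
    have h4 : 2 ^ (2 * M) * 2 ^ M ≤ 2 ^ (2 * M) * (c * 2 ^ W) := by
      calc 2 ^ (2 * M) * 2 ^ M ≤ c * 2 ^ (2 * M) * 2 ^ D.card := h2.trans h1
        _ ≤ c * 2 ^ (2 * M) * 2 ^ W := Nat.mul_le_mul_left _ h3
        _ = 2 ^ (2 * M) * (c * 2 ^ W) := by ring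
    exact Nat.le_of_mul_le_mul_left h4 (by positivity)
  · intro v hv
    rw [cnt_eq e ι σ b hM hb D z0 hf1 hf2 v hv]
    exact fib_le _ _ _ _ _ _ _ _ hneq
  · intro v hv h0
    rw [cnt_eq e ι σ b hM hb D z0 hf1 hf2 v hv]
    exact le_antisymm (fib_le _ _ _ _ _ _ _ _ hneq) (fib_le _ _ _ _ _ _ _ _ (hne v hv h0))

end select

end Pool.Agent.H58.IS
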