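import Pool.Agent.H58.IS.Defs
import Pool.Agent.H58.LPE.Upper

/-! Small refutations with advice. -/

set_option autoImplicit false
set_option linter.unusedSectionVars false

namespace Pool.Agent.H58.IS

open Finset

/-- a partial decision and a set of values of the advice -/
abbrev Cel (n K : ℕ) := (Fin n → Option Bool) × (Fin K → Prop)

section up

variable {n K : ℕ} (k : ℕ) (A : Finset (Fin n) → Fin K) (G : SimpleGraph (Fin n))

/-- membership in a cell -/
def inC (c : Cel n K) (S : Finset (Fin n)) : Prop := S.card = k ∧ Ext c.1 S ∧ c.2 (A S)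

/-- the rule for one cell -/
def Stp (l : List (Cel n K)) (c : Cel n K) : Prop :=
  (∃ u v, G.Adj u v ∧ ∀ S, inC k A c S → u ∈ S ∧ v ∈ S) ∨
    ∃ c1 ∈ l, ∃ c2 ∈ l, ∀ S, inC k A c S → inC k A c1 S ∨ inC k A c2 S

/-- a list in which every cell follows from the later ones -/
def Der : List (Cel n K) → Prop
  | [] => True
  | c :: l => Der l ∧ Stp k A G l c

variable {k A G}

theorem Stp.mono {l l' : List (Cel n K)} {c : Cel n K} (h : Stp k A G l c)
    (hl : ∀ x ∈ l, x ∈ l') : Stp k A G l' c := by
  rcases h with h | ⟨c1, h1, c2, h2, h⟩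
  · exact Or.inl h
  · exact Or.inr ⟨c1, hl _ h1, c2, hl _ h2, h⟩

theorem Der.append {l1 l2 : List (Cel n K)} (h1 : Der k A G l1) (h2 : Der k A G l2) :
    Der k A G (l1 ++ l2) := by
  induction l1 with
  | nil => exact h2
  | cons c l ih => exact ⟨ih h1.1, h1.2.mono fun x hx => List.mem_append_left _ hx⟩

theorem Der.get {l : List (Cel n K)} (h : Der k A G l) : ∀ i (hi : i < l.length),
    (∃ u v, G.Adj u v ∧ ∀ S, inC k A l[i] S → u ∈ S ∧ v ∈ S) ∨
      ∃ (p q : ℕ) (hp : p < l.length) (hq : q < l.length), i < p ∧ i < q ∧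
        ∀ S, inC k A l[i] S → inC k A l[p] S ∨ inC k A l[q] S := by
  induction l with
  | nil => intro i hi; simp at hi
  | cons c l ih =>
    intro i hi
    rcases i with _ | i
    · rcases h.2 with h1 | ⟨c1, h1, c2, h2, h3⟩
      · exact Or.inl h1
      · obtain ⟨p, hp, rfl⟩ := List.getElem_of_mem h1
        obtain ⟨q, hq, rfl⟩ := List.getElem_of_mem h2
        exact Or.inr ⟨p + 1, q + 1, by simpa using hp, by simpa using hq, by omega, by omega, h3⟩
    · rcases ih h.1 i (by simpa using hi) with h1 | ⟨p, q, hp, hq, h1, h2, h3⟩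
      · exact Or.inl h1
      · exact Or.inr ⟨p + 1, q + 1, by simpa using hp, by simpa using hq, by omega, by omega, h3⟩

/-- branching on one vertex -/
theorem branch {τ : Fin n → Option Bool} {w : Fin n} {a : Fin K} (hw : τ w = none)
    {S : Finset (Fin n)} (h : inC k A (τ, fun x => x = a) S) (s : Bool) (hs : w ∈ S ↔ s = true) :
    inC k A (Function.update τ w (some s), fun x => x = a) S := by
  refine ⟨h.1, fun v s' hv => ?_, h.2.2⟩
  by_cases hvw : v = w
  · subst hvw
    simp only [Function.update_self, Option.some.injEq] at hv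
    rw [hs, hv]
  · simp only [Function.update_of_ne hvw] at hv
    exact h.2.1 v s' hv

/-- looking for an adjacent vertex -/
theorem scan {u0 v0 : Fin n} (he : G.Adj u0 v0) (a : Fin K) (U : Finset (Fin n))
    (hA : ∀ S : Finset (Fin n), S.card = k → A S = a → ∃ u ∈ U, ∃ v, u ∈ S ∧ v ∈ S ∧ G.Adj u v)
    (V : Finset (Fin n)) :
    ∀ τ : Fin n → Option Bool, (∀ u ∈ U, τ u ≠ none) →
      (∀ x ∈ U, τ x = some true → ∀ w, G.Adj x w → τ w = some false ∨ w ∈ V) →
      ∃ l : List (Cel n K), Der k A G l ∧ (τ, fun x => x = a) ∈ l ∧ l.length ≤ 2 * V.card + 1 := by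
  classical
  induction V using Finset.induction_on with
  | empty =>
    intro τ hU hτ
    refine ⟨[(τ, fun x => x = a)], ⟨trivial, Or.inl ⟨u0, v0, he, fun S hS => ?_⟩⟩, by simp, by simp⟩
    exfalso
    obtain ⟨u, hu, v, huS, hvS, huv⟩ := hA S hS.1 hS.2.2
    have h1 : τ u = some true := by
      obtain ⟨s, hs⟩ := Option.ne_none_iff_exists'.mp (hU u hu)
      rw [hs, (hS.2.1 u s hs).mp huS]
    rcases hτ u hu h1 v huv with h2 | h2
    · exact absurd ((hS.2.1 v false h2).mp hvS) (by decide)
    · exact Finset.notMem_empty _ h2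
  | insert w V hw ih =>
    intro τ hU hτ
    rw [Finset.card_insert_of_notMem hw]
    by_cases hskip : τ w = some false ∨ ∀ x ∈ U, τ x = some true → ¬ G.Adj x w
    · obtain ⟨l, hl, hm, hc⟩ := ih τ hU (fun x hx hx1 v hv => by
        rcases hτ x hx hx1 v hv with h | h
        · exact Or.inl h
        · rcases Finset.mem_insert.mp h with rfl | h
          · rcases hskip with h2 | h2
            · exact Or.inl h2
            · exact absurd hv (h2 x hx hx1)
          · exact Or.inr h)
      exact ⟨l, hl, hm, by omega⟩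
    · push Not at hskip
      obtain ⟨hwf, x, hx, hx1, hxw⟩ := hskip
      have hcl : ∀ τ' : Fin n → Option Bool, τ' x = some true → τ' w = some true →
          ∀ S, inC k A (τ', fun x => x = a) S → x ∈ S ∧ w ∈ S := fun τ' h1 h2 S hS =>
        ⟨(hS.2.1 x true h1).mpr rfl, (hS.2.1 w true h2).mpr rfl⟩
      rcases hwn : τ w with _ | s
      · have hwx : x ≠ w := by
          rintro rfl
          rw [hx1] at hwn
          exact absurd hwn (by simp)
        obtain ⟨l, hl, hm, hc⟩ := ih (Function.update τ w (some false)) (fun u hu => by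
            by_cases h : u = w
            · rw [h, Function.update_self]; simp
            · rw [Function.update_of_ne h]; exact hU u hu)
          (fun y hy hy1 v hv => by
            have hyw : y ≠ w := by
              rintro rfl
              rw [Function.update_self] at hy1
              exact absurd hy1 (by simp)
            rw [Function.update_of_ne hyw] at hy1
            by_cases hvw : v = w
            · left; rw [hvw, Function.update_self]
            · rw [Function.update_of_ne hvw]
              rcases hτ y hy hy1 v hv with h | h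
              · exact Or.inl h
              · rcases Finset.mem_insert.mp h with h | h
                · exact absurd h hvw
                · exact Or.inr h)
        refine ⟨(τ, fun x => x = a) :: (Function.update τ w (some true), fun x => x = a) :: l,
          ⟨⟨hl, Or.inl ⟨x, w, hxw, hcl _ (by rw [Function.update_of_ne hwx]; exact hx1)
            (by rw [Function.update_self])⟩⟩, Or.inr ⟨_, List.mem_cons_self, _,
            List.mem_cons_of_mem _ hm, fun S hS => ?_⟩⟩, List.mem_cons_self, ?_⟩
        · by_cases hwS : w ∈ S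
          · exact Or.inl (branch hwn hS true (by simp [hwS]))
          · exact Or.inr (branch hwn hS false (by simp [hwS]))
        · simp only [List.length_cons]
          omega
      · have hs : s = true := by
          cases s
          · exact absurd hwn hwf
          · rfl
        subst hs
        exact ⟨[(τ, fun x => x = a)], ⟨trivial, Or.inl ⟨x, w, hxw, hcl τ hx1 hwn⟩⟩, by simp, by simp⟩

/-- a decision tree for one value of the advice -/
theorem tree {u0 v0 : Fin n} (he : G.Adj u0 v0) (a : Fin K) (U : Finset (Fin n))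
    (hA : ∀ S : Finset (Fin n), S.card = k → A S = a → ∃ u ∈ U, ∃ v, u ∈ S ∧ v ∈ S ∧ G.Adj u v)
    (V : Finset (Fin n)) :
    ∀ τ : Fin n → Option Bool, (∀ u ∈ U, τ u ≠ none ∨ u ∈ V) →
      ∃ l : List (Cel n K), Der k A G l ∧ (τ, fun x => x = a) ∈ l ∧
        l.length + 1 ≤ 2 ^ V.card * (2 * n + 2) := by
  classical
  induction V using Finset.induction_on with
  | empty =>
    intro τ hτ
    obtain ⟨l, hl, hm, hc⟩ := scan he a U hA univ τ
      (fun u hu => (hτ u hu).resolve_right (Finset.notMem_empty _))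
      (fun x _ _ w _ => Or.inr (Finset.mem_univ _))
    rw [Finset.card_univ, Fintype.card_fin] at hc
    exact ⟨l, hl, hm, by simp only [Finset.card_empty, pow_zero, one_mul]; omega⟩
  | insert w V hw ih =>
    intro τ hτ
    rw [Finset.card_insert_of_notMem hw, pow_succ]
    have h1 : 0 < 2 ^ V.card * (2 * n + 2) := by positivity
    have h2 : 2 ^ V.card * 2 * (2 * n + 2) =
      2 ^ V.card * (2 * n + 2) + 2 ^ V.card * (2 * n + 2) := by ring
    by_cases hwn : τ w = none
    · have hup : ∀ s : Bool, ∀ u ∈ U, Function.update τ w (some s) u ≠ none ∨ u ∈ V := by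
        intro s u hu
        by_cases h : u = w
        · left; rw [h, Function.update_self]; simp
        · rw [Function.update_of_ne h]
          rcases hτ u hu with h3 | h3
          · exact Or.inl h3
          · exact Or.inr ((Finset.mem_insert.mp h3).resolve_left h)
      obtain ⟨l0, hl0, hm0, hc0⟩ := ih _ (hup false)
      obtain ⟨l1, hl1, hm1, hc1⟩ := ih _ (hup true)
      refine ⟨(τ, fun x => x = a) :: (l0 ++ l1), ⟨hl0.append hl1, Or.inr ⟨_,
        List.mem_append_left _ hm0, _, List.mem_append_right _ hm1, fun S hS => ?_⟩⟩, by simp, ?_⟩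
      · by_cases hwS : w ∈ S
        · exact Or.inr (branch hwn hS true (by simp [hwS]))
        · exact Or.inl (branch hwn hS false (by simp [hwS]))
      · rw [List.length_cons, List.length_append]
        omega
    · obtain ⟨l, hl, hm, hc⟩ := ih τ (fun u hu => by
        rcases hτ u hu with h | h
        · exact Or.inl h
        · rcases Finset.mem_insert.mp h with h | h
          · left; rw [h]; exact hwn
          · exact Or.inr h)
      exact ⟨l, hl, hm, by omega⟩

/-- all values -/
theorem chain {u0 v0 : Fin n} (he : G.Adj u0 v0) (U : Fin K → Finset (Fin n)) (g : ℕ)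
    (hU : ∀ a, (U a).card ≤ g)
    (hA : ∀ S : Finset (Fin n), S.card = k → ∃ u ∈ U (A S), ∃ v, u ∈ S ∧ v ∈ S ∧ G.Adj u v) :
    ∀ m ≤ K, ∃ l : List (Cel n K), Der k A G l ∧
      ((fun _ => none, fun x => K - m ≤ (x : ℕ)) : Cel n K) ∈ l ∧
      l.length ≤ m * (2 ^ g * (2 * n + 2)) + 1 := by
  intro m
  induction m with
  | zero =>
    intro _
    refine ⟨[(fun _ => none, fun x => K - 0 ≤ (x : ℕ))], ⟨trivial, Or.inl ⟨u0, v0, he,
      fun S hS => ?_⟩⟩, by simp, by simp⟩
    have h1 := hS.2.2
    have h2 := (A S).2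
    simp only at h1
    omega
  | succ m ih =>
    intro hm
    obtain ⟨l, hl, hml, hc⟩ := ih (by omega)
    obtain ⟨a, ha⟩ : ∃ a : Fin K, (a : ℕ) = K - (m + 1) := ⟨⟨K - (m + 1), by omega⟩, rfl⟩
    obtain ⟨t, ht, hmt, hct⟩ := tree (A := A) he a (U a) (fun S hS hSa => by
      obtain ⟨u, hu, h⟩ := hA S hS
      rw [hSa] at hu
      exact ⟨u, hu, h⟩) (U a) (fun _ => none) (fun u hu => Or.inr hu)
    have hpow : 2 ^ (U a).card * (2 * n + 2) ≤ 2 ^ g * (2 * n + 2) :=
      Nat.mul_le_mul_right _ (Nat.pow_le_pow_right (by norm_num) (hU a))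
    refine ⟨(fun _ => none, fun x => K - (m + 1) ≤ (x : ℕ)) :: (l ++ t), ⟨hl.append ht,
      Or.inr ⟨_, List.mem_append_left _ hml, _, List.mem_append_right _ hmt, fun S hS => ?_⟩⟩,
      by simp, ?_⟩
    · have h1 := hS.2.2
      simp only at h1
      by_cases h : K - m ≤ (A S : ℕ)
      · exact Or.inl ⟨hS.1, hS.2.1, h⟩
      · refine Or.inr ⟨hS.1, hS.2.1, Fin.ext ?_⟩
        rw [ha]
        omega
    · rw [List.length_cons, List.length_append]
      have : (m + 1) * (2 ^ g * (2 * n + 2)) = m * (2 ^ g * (2 * n + 2)) + 2 ^ g * (2 * n + 2) := by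
        ring
      omega

end up

/-- SMALL REFUTATIONS WITH ADVICE -/
theorem small {n K k : ℕ} (hK : 1 ≤ K) (G : SimpleGraph (Fin n)) (hG : NoIndep G k)
    (hk : k ≤ n) :
    ∃ (A : Finset (Fin n) → Fin K) (l : List (Cel n K)), Der k A G l ∧
      (∃ c ∈ l, ∀ S, S.card = k → inC k A c S) ∧
      l.length ≤ K * (2 ^ (n / K + 1) * (2 * n + 2)) + 1 := by
  classical
  obtain ⟨S0, hS0⟩ : ∃ S0 : Finset (Fin n), S0.card = k := by
    obtain ⟨S, -, hS⟩ := Finset.exists_subset_card_eq (s := (univ : Finset (Fin n))) (n := k)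
      (by rw [Finset.card_univ, Fintype.card_fin]; exact hk)
    exact ⟨S, hS⟩
  obtain ⟨u0, -, v0, -, he⟩ := hG S0 hS0
  have hch : ∀ S : Finset (Fin n), ∃ u : Fin n, S.card = k → ∃ v, u ∈ S ∧ v ∈ S ∧ G.Adj u v := by
    intro S
    by_cases hS : S.card = k
    · obtain ⟨u, hu, v, hv, h⟩ := hG S hS
      exact ⟨u, fun _ => ⟨v, hu, hv, h⟩⟩
    · exact ⟨u0, fun h => absurd h hS⟩
  choose U hU using hch
  obtain ⟨l, hl, hm, hc⟩ := chain (k := k) (A := fun S => ⟨(U S : ℕ) % K, Nat.mod_lt _ hK⟩) he
    (fun a => univ.filter fun i : Fin n => (i : ℕ) % K = a) (n / K + 1)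
    (fun a => LPE.mod_fiber n K a)
    (fun S hS => by
      obtain ⟨v, h1, h2, h3⟩ := hU S hS
      exact ⟨U S, by simp, v, h1, h2, h3⟩) K le_rfl
  refine ⟨_, l, hl, ⟨_, hm, fun S hS => ⟨hS, fun i s h => ?_, ?_⟩⟩, hc⟩
  · simp at h
  · simp

end Pool.Agent.H58.IS
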