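import Pool.Agent.H58.LPE.Adv

/-! The walk in a refutation whose cells are given by arbitrary conditions. -/

set_option autoImplicit false
set_option linter.unusedSectionVars false

namespace Pool.Agent.H58.IS

open Finset Pool.Agent.H58.LPE

section adv

variable {α : Type*} [Fintype α] [DecidableEq α] {N M : ℕ}
variable (e : α ≃ Fin M) (ι : α ⊕ Fin (M + M) ↪ Fin N) (σ : Equiv.Perm α) (b : α → ZMod 2)

/-- one value of the advice -/
theorem walk_one {θ φ : ℕ} (hθ : 1 ≤ θ) (hθM : 2 * θ ≤ M)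
    (hE : Expand (en1 (EE2 e) σ) (en2 (EE2 e)) θ φ M) (hb : ∑ i, b i = 1)
    {T s : ℕ} (Q : ℕ → (Fin N → Bool) → Prop)
    (Sx : ℕ → Finset (Fin N)) (hQ : ∀ i z z', cb (Sx i) z z' → Q i z → Q i z')
    (At : (Fin N → Bool) → Prop) (closed : ℕ → Prop)
    (hroot : ∃ i < T, ∀ z, At z → Q i z)
    (hstep : ∀ i < T, closed i ∨ (∃ C ∈ Fm (EE2 e) ι σ b, C.card = 3 ∧ ∀ z, At z → Q i z →
      ¬ ∃ l ∈ C, z l.1 = l.2) ∨ ∃ j < i, ∃ k < i, ∀ z, At z → Q i z → Q j z ∨ Q k z)
    {Dt : Finset (Fin N)} {zs : Fin N → Bool}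
    (hwide : ∀ i < T, s < (Sx i).card → ∀ z, cb Dt zs z → ¬ Q i z)
    {B : Finset (Fin N)} {zB : Fin N → Bool} (hB : Dt ⊆ B) (hzB : cb Dt zs zB)
    (hmu : M < mu (viol (EE2 e) ι σ b) (cb B zB)) (hBc : B.card + (3 * s + 3) ≤ φ) :
    (∃ i < T, closed i ∧ ∃ D z, B ⊆ D ∧ D.card ≤ B.card + s ∧ cb B zB z ∧
      M < mu (viol (EE2 e) ι σ b) (cb D z) ∧ Sx i ⊆ D ∧ Q i z) ∨
    ∃ B' z', B ⊆ B' ∧ B'.card ≤ B.card + (3 * s + 3) ∧ cb B zB z' ∧
      M < mu (viol (EE2 e) ι σ b) (cb B' z') ∧ ∀ z, cb B' z' z → ¬ At z := by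
  classical
  by_cases hcert : ∃ B' z', B ⊆ B' ∧ B'.card ≤ B.card + (3 * s + 3) ∧ cb B zB z' ∧
      M < mu (viol (EE2 e) ι σ b) (cb B' z') ∧ ∀ z, cb B' z' z → ¬ At z
  · exact Or.inr hcert
  left
  push Not at hcert
  obtain ⟨dm, hdm⟩ : ∃ dm : ℕ → Finset (Fin N), ∀ i, dm i =
    if (Sx i).card ≤ s then Sx i else ∅ := ⟨_, fun _ => rfl⟩
  have hdmc : ∀ i, (dm i).card ≤ s := by
    intro i
    rw [hdm]
    split_ifs with h
    · exact h
    · simp
  have hdec : ∀ i < T, ∀ (D : Finset (Fin N)) (z : Fin N → Bool), B ⊆ D → dm i ⊆ D → cb B zB z →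
      ∀ z', cb D z z' → Q i z' → Sx i = dm i ∧ Q i z := by
    intro i hi D z hBD hD hz z' hz' h2
    have hn : (Sx i).card ≤ s := by
      by_contra hcon
      refine hwide i hi (by omega) z' ?_ h2
      exact cb_trans hzB hB (cb_trans hz hBD hz')
    have hd : Sx i = dm i := by rw [hdm, if_pos hn]
    refine ⟨hd, ?_⟩
    · refine hQ i z' z (fun j hj => ?_) h2
      refine (hz' j ?_).symm
      rw [← hd] at hD
      exact hD hj
  -- the reachable nodes
  obtain ⟨gd, hgd⟩ : ∃ gd : ℕ → Prop, ∀ i, gd i ↔ i < T ∧ ∃ z, cb B zB z ∧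
    M < mu (viol (EE2 e) ι σ b) (cb (B ∪ dm i) z) ∧ Sx i = dm i ∧ Q i z :=
    ⟨_, fun _ => Iff.rfl⟩
  have hex : ∃ i, gd i := by
    obtain ⟨i0, hi0, hr⟩ := hroot
    have hc : (B ∪ dm i0).card ≤ φ := by
      have := Finset.card_union_le B (dm i0)
      have := hdmc i0
      omega
    obtain ⟨z, hz, hm⟩ := ext_good e ι σ b hθ hθM hE hb hc hmu
    obtain ⟨z', hz', hA⟩ := hcert (B ∪ dm i0) z Finset.subset_union_left (by
      have := Finset.card_union_le B (dm i0)
      have := hdmc i0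
      omega) hz hm
    have h2 := hr z' hA
    obtain ⟨h3, h5⟩ := hdec i0 hi0 (B ∪ dm i0) z Finset.subset_union_left
      Finset.subset_union_right hz z' hz' h2
    exact ⟨i0, (hgd _).mpr ⟨hi0, z, hz, hm, h3, h5⟩⟩
  have hfind := Nat.find_spec hex
  have hmin : ∀ j < Nat.find hex, ¬ gd j := fun j hj => Nat.find_min hex hj
  obtain ⟨i, hi⟩ : ∃ i, i = Nat.find hex := ⟨_, rfl⟩
  rw [← hi] at hfind hmin
  obtain ⟨hiT, z, hz, hm, hdi, hq⟩ := (hgd _).mp hfind
  have hci := Finset.card_union_le B (dm i)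
  have hdi' := hdmc i
  have hsubi : Sx i ⊆ B ∪ dm i := by
    rw [← hdi]
    exact Finset.subset_union_right
  -- transfer to the points of the cube
  have htr : ∀ (D : Finset (Fin N)) (y : Fin N → Bool), B ∪ dm i ⊆ D → cb (B ∪ dm i) z y →
      ∀ z', cb D y z' → Q i z' := by
    intro D y hD hy z' hz'
    have h1 : cb (B ∪ dm i) z z' := cb_trans hy hD hz'
    exact hQ i z z' (fun j hj => h1 j (hsubi hj)) hq
  rcases hstep i hiT with hcl | ⟨C, hC, hC3, hCz⟩ | ⟨j, hj, k, hk, hjk⟩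
  · exact ⟨i, hiT, hcl, B ∪ dm i, z, Finset.subset_union_left, by omega, hz, hm, hsubi, hq⟩
  · exfalso
    obtain ⟨VC, hVC⟩ : ∃ VC : Finset (Fin N), VC = C.image Prod.fst := ⟨_, rfl⟩
    have hVCc : VC.card ≤ 3 := by rw [hVC, ← hC3]; exact Finset.card_image_le
    have hc : (B ∪ dm i ∪ VC).card ≤ B.card + (3 * s + 3) := by
      have := Finset.card_union_le (B ∪ dm i) VC
      omega
    obtain ⟨y, hy, hmy⟩ := ext_good e ι σ b hθ hθM hE hb (hc.trans hBc) hm
    have hBy : cb B zB y := cb_trans hz Finset.subset_union_left hy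
    obtain ⟨z', hz', hA⟩ := hcert (B ∪ dm i ∪ VC) y
      (Finset.subset_union_left.trans Finset.subset_union_left) hc hBy hmy
    have h2 := htr _ _ Finset.subset_union_left hy z' hz'
    have h3 := hCz z' hA h2
    obtain ⟨κ, hκ⟩ := viol_clause (EE2 e) ι σ b hC
    have h4 : Ref (viol (EE2 e) ι σ b) (cb (B ∪ dm i ∪ VC) y) {κ} := by
      intro z'' hz''
      refine ⟨κ, Finset.mem_singleton_self _, hκ z'' ?_⟩
      rintro ⟨l, hl, hzl⟩
      apply h3
      refine ⟨l, hl, ?_⟩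
      have hm : l.1 ∈ B ∪ dm i ∪ VC := by
        refine Finset.mem_union_right _ ?_
        rw [hVC]
        exact Finset.mem_image_of_mem _ hl
      rw [hz' _ hm, ← hz'' _ hm, hzl]
    have h5 := mu_le (viol (EE2 e) ι σ b) h4
    rw [Finset.card_singleton] at h5
    omega
  · exfalso
    have hdj := hdmc j
    have hdk := hdmc k
    obtain ⟨D, hD⟩ : ∃ D, D = B ∪ dm i ∪ (dm j ∪ dm k) := ⟨_, rfl⟩
    have hc : D.card ≤ B.card + (3 * s + 3) := by
      have h1 := Finset.card_union_le (B ∪ dm i) (dm j ∪ dm k)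
      have h2 := Finset.card_union_le (dm j) (dm k)
      rw [hD]
      omega
    obtain ⟨y, hy, hmy⟩ := ext_good e ι σ b hθ hθM hE hb (hc.trans hBc) hm
    have hBy : cb B zB y := cb_trans hz Finset.subset_union_left hy
    have hBi : B ∪ dm i ⊆ D := by rw [hD]; exact Finset.subset_union_left
    have hBD : B ⊆ D := Finset.subset_union_left.trans hBi
    obtain ⟨z', hz', hA⟩ := hcert D y hBD hc hBy hmy
    have h2 := htr _ _ hBi hy z' hz'
    have key : ∀ l < i, dm l ⊆ D → ¬ Q l z' := by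
      rintro l hl hlD h4
      obtain ⟨h5, h7⟩ := hdec l (hl.trans hiT) D y hBD hlD hBy z' hz' h4
      refine hmin l hl ((hgd _).mpr ⟨hl.trans hiT, y, hBy, ?_, h5, h7⟩)
      refine lt_of_lt_of_le hmy (mu_mono e ι σ b hb fun x hx => ?_)
      intro u hu
      refine hx u ?_
      rcases Finset.mem_union.mp hu with h | h
      · exact hBD h
      · exact hlD h
    rcases hjk z' hA h2 with h | h
    · exact key j hj (by rw [hD]; exact Finset.subset_union_left.trans Finset.subset_union_right) h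
    · exact key k hk (by rw [hD]; exact Finset.subset_union_right.trans Finset.subset_union_right) h

/-- all values of the advice -/
theorem walk_all {θ φ : ℕ} (hθ : 1 ≤ θ) (hθM : 2 * θ ≤ M)
    (hE : Expand (en1 (EE2 e) σ) (en2 (EE2 e)) θ φ M) (hb : ∑ i, b i = 1)
    {T s k : ℕ} (A : (Fin N → Bool) → Fin k)
    (Q : ℕ → Fin k → (Fin N → Bool) → Prop) (Sx : ℕ → Finset (Fin N))
    (hQ : ∀ i a z z', cb (Sx i) z z' → Q i a z → Q i a z') (closed : ℕ → Prop)
    (hroot : ∃ i < T, ∀ z, Q i (A z) z)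
    (hstep : ∀ i < T, closed i ∨ (∃ C ∈ Fm (EE2 e) ι σ b, C.card = 3 ∧ ∀ z,
      Q i (A z) z → ¬ ∃ l ∈ C, z l.1 = l.2) ∨ ∃ j < i, ∃ l < i, ∀ z, Q i (A z) z →
        Q j (A z) z ∨ Q l (A z) z)
    {Dt : Finset (Fin N)} {zs : Fin N → Bool}
    (hwide : ∀ i < T, s < (Sx i).card → ∀ a z, cb Dt zs z → ¬ Q i a z)
    (hmu : M < mu (viol (EE2 e) ι σ b) (cb Dt zs)) (hc : Dt.card + k * (3 * s + 3) ≤ φ) :
    ∃ i < T, closed i ∧ ∃ D z, Dt ⊆ D ∧ D.card ≤ Dt.card + k * (3 * s + 3) ∧ cb Dt zs z ∧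
      M < mu (viol (EE2 e) ι σ b) (cb D z) ∧ Sx i ⊆ D ∧ ∃ a, Q i a z := by
  by_contra hcon
  push Not at hcon
  have key : ∀ m ≤ k, ∃ B z, Dt ⊆ B ∧ B.card ≤ Dt.card + m * (3 * s + 3) ∧ cb Dt zs z ∧
      M < mu (viol (EE2 e) ι σ b) (cb B z) ∧ ∀ z', cb B z z' → ¬ (A z' : ℕ) < m := by
    intro m
    induction m with
    | zero =>
      intro _
      exact ⟨Dt, zs, Finset.Subset.refl _, by omega, fun _ _ => rfl, hmu, fun _ _ => by omega⟩
    | succ m ih =>
      intro hm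
      obtain ⟨B, zB, hB, hBc, hzB, hmB, hA⟩ := ih (by omega)
      have h1 : (m + 1) * (3 * s + 3) ≤ k * (3 * s + 3) := Nat.mul_le_mul_right _ hm
      have h2 : (m + 1) * (3 * s + 3) = m * (3 * s + 3) + (3 * s + 3) := by ring
      rcases walk_one e ι σ b hθ hθM hE hb (fun i => Q i ⟨m, by omega⟩) Sx
        (fun i => hQ i _) (fun z => A z = ⟨m, by omega⟩) closed
        (by
          obtain ⟨i, hi, h⟩ := hroot
          refine ⟨i, hi, fun z hz => ?_⟩
          have := h z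
          rw [hz] at this
          exact this)
        (by
          intro i hi
          rcases hstep i hi with h | ⟨C, hC, hC3, h⟩ | ⟨j, hj, l, hl, h⟩
          · exact Or.inl h
          · refine Or.inr (Or.inl ⟨C, hC, hC3, fun z hz h2 => h z ?_⟩)
            rw [hz]
            exact h2
          · refine Or.inr (Or.inr ⟨j, hj, l, hl, fun z hz h2 => ?_⟩)
            have := h z (by rw [hz]; exact h2)
            rw [hz] at this
            exact this)
        (fun i hi hw z hz => hwide i hi hw _ z hz) hB hzB hmB (by omega) with h | h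
      · obtain ⟨i, hi, hcl, D, z, hBD, hDc, hz, hmD, hd, he⟩ := h
        exact absurd he (hcon i hi hcl D z (hB.trans hBD) (by omega)
          (cb_trans hzB hB hz) hmD hd _)
      · obtain ⟨B', z', hBB, hB'c, hz', hmB', hAt⟩ := h
        refine ⟨B', z', hB.trans hBB, by omega, cb_trans hzB hB hz', hmB', fun z hz hlt => ?_⟩
        have h3 := hA z (cb_trans hz' hBB hz)
        refine hAt z hz (Fin.ext ?_)
        simp only
        omega
  obtain ⟨B, z, -, -, -, -, h⟩ := key k le_rfl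
  exact h z (fun _ _ => rfl) (A z).2

end adv

end Pool.Agent.H58.IS
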